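import Mathlib

set_option autoImplicit false
set_option linter.unusedSectionVars false

/-!
Subspaces `U` of `ι → ℝ`, thought of as spaces of linear dependences of a vector configuration
indexed by `ι`; circuits are the minimal supports of nonzero vectors of `U`.
-/

namespace Pool.Agent.Helper141C

open Finset

variable {ι : Type*} [Fintype ι] [DecidableEq ι]

/-- The support of a vector. -/
noncomputable def sp (z : ι → ℝ) : Finset ι := by
  classical exact univ.filter (fun i => z i ≠ 0)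

theorem mem_sp {z : ι → ℝ} {i : ι} : i ∈ sp z ↔ z i ≠ 0 := by simp [sp]

theorem notMem_sp {z : ι → ℝ} {i : ι} : i ∉ sp z ↔ z i = 0 := by simp [sp]

theorem sp_eq_empty {z : ι → ℝ} : sp z = ∅ ↔ z = 0 := by
  constructor
  · intro h
    funext i
    have : i ∉ sp z := by rw [h]; exact notMem_empty i
    simpa using notMem_sp.1 this
  · rintro rfl
    ext i
    simp [mem_sp]

theorem sp_nonempty {z : ι → ℝ} : (sp z).Nonempty ↔ z ≠ 0 := by
  rw [nonempty_iff_ne_empty, Ne, sp_eq_empty]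

theorem sp_smul {z : ι → ℝ} {c : ℝ} (hc : c ≠ 0) : sp (c • z) = sp z := by
  ext i
  simp [mem_sp, hc]

theorem sp_subset_iff {z : ι → ℝ} {X : Finset ι} : sp z ⊆ X ↔ ∀ i, i ∉ X → z i = 0 := by
  constructor
  · intro h i hi
    by_contra hne
    exact hi (h (mem_sp.2 hne))
  · intro h i hi
    by_contra hne
    exact mem_sp.1 hi (h i hne)

theorem sp_add_subset {z y : ι → ℝ} {X : Finset ι} (hz : sp z ⊆ X) (hy : sp y ⊆ X) :
    sp (z + y) ⊆ X := by
  rw [sp_subset_iff] at *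
  intro i hi
  simp [hz i hi, hy i hi]

theorem sp_sub_smul_subset {z y : ι → ℝ} {X : Finset ι} (c : ℝ) (hz : sp z ⊆ X)
    (hy : sp y ⊆ X) : sp (z - c • y) ⊆ X := by
  rw [sp_subset_iff] at *
  intro i hi
  simp [hz i hi, hy i hi]

/-- Subtracting the multiple of `y` that kills coordinate `i`. -/
theorem sp_elim {z y : ι → ℝ} {X : Finset ι} {i : ι} (hz : sp z ⊆ insert i X)
    (hy : sp y ⊆ insert i X) (hi : y i ≠ 0) : sp (z - (z i / y i) • y) ⊆ X := by
  rw [sp_subset_iff] at *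
  intro j hj
  by_cases hji : j = i
  · subst hji
    simp [hi]
  · have h1 : j ∉ insert i X := by simp [hji, hj]
    simp [hz j h1, hy j h1]

/-- The vectors of `U` supported in `X`. -/
def on (U : Submodule ℝ (ι → ℝ)) (X : Finset ι) : Submodule ℝ (ι → ℝ) where
  carrier := {y | y ∈ U ∧ ∀ i, i ∉ X → y i = 0}
  add_mem' := by
    rintro a b ⟨h1, h2⟩ ⟨h3, h4⟩
    exact ⟨U.add_mem h1 h3, fun i hi => by rw [Pi.add_apply, h2 i hi, h4 i hi, add_zero]⟩
  zero_mem' := ⟨U.zero_mem, fun _ _ => rfl⟩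
  smul_mem' := by
    rintro c a ⟨h1, h2⟩
    exact ⟨U.smul_mem _ h1, fun i hi => by rw [Pi.smul_apply, h2 i hi, smul_zero]⟩

theorem mem_on {U : Submodule ℝ (ι → ℝ)} {X : Finset ι} {y : ι → ℝ} :
    y ∈ on U X ↔ y ∈ U ∧ sp y ⊆ X := by
  rw [sp_subset_iff]
  rfl

theorem on_le {U : Submodule ℝ (ι → ℝ)} {X : Finset ι} : on U X ≤ U := fun _ h => h.1

theorem on_mono {U : Submodule ℝ (ι → ℝ)} {X Y : Finset ι} (h : X ⊆ Y) : on U X ≤ on U Y :=
  fun _ hy => ⟨hy.1, fun i hi => hy.2 i (fun h' => hi (h h'))⟩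

theorem on_on {U : Submodule ℝ (ι → ℝ)} {X Y : Finset ι} (h : X ⊆ Y) :
    on (on U Y) X = on U X := by
  apply le_antisymm
  · intro y hy
    exact ⟨hy.1.1, hy.2⟩
  · intro y hy
    exact ⟨⟨hy.1, fun i hi => hy.2 i (fun h' => hi (h h'))⟩, hy.2⟩

theorem on_eq_self {U : Submodule ℝ (ι → ℝ)} {A : Finset ι} (h : ∀ z ∈ U, sp z ⊆ A) :
    on U A = U := le_antisymm on_le (fun z hz => mem_on.2 ⟨hz, h z hz⟩)

/-- One coordinate: the kernel of a coordinate on `on U (insert j Y)` is `on U Y`. -/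
theorem finrank_on_insert_le (U : Submodule ℝ (ι → ℝ)) (Y : Finset ι) (j : ι) :
    Module.finrank ℝ (on U (insert j Y)) ≤ Module.finrank ℝ (on U Y) + 1 := by
  by_cases h : ∃ u ∈ on U (insert j Y), u j ≠ 0
  · obtain ⟨u, hu, huj⟩ := h
    have hle : on U (insert j Y) ≤ on U Y ⊔ Submodule.span ℝ {u} := by
      intro z hz
      rw [Submodule.mem_sup]
      refine ⟨z - (z j / u j) • u, ?_, (z j / u j) • u,
        Submodule.smul_mem _ _ (Submodule.mem_span_singleton_self u), by simp⟩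
      rw [mem_on] at *
      exact ⟨U.sub_mem hz.1 (U.smul_mem _ hu.1), sp_elim hz.2 hu.2 huj⟩
    calc Module.finrank ℝ (on U (insert j Y))
        ≤ Module.finrank ℝ (on U Y ⊔ Submodule.span ℝ {u} : Submodule ℝ (ι → ℝ)) :=
          Submodule.finrank_mono hle
      _ ≤ Module.finrank ℝ (on U Y) + Module.finrank ℝ (Submodule.span ℝ {u}) :=
          Submodule.finrank_add_le_finrank_add_finrank _ _
      _ ≤ Module.finrank ℝ (on U Y) + 1 := by
          have := finrank_span_le_card (R := ℝ) ({u} : Set (ι → ℝ))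
          simp at this
          omega
  · push Not at h
    have hle : on U (insert j Y) ≤ on U Y := by
      intro z hz
      have hz' := mem_on.1 hz
      refine mem_on.2 ⟨hz'.1, ?_⟩
      rw [sp_subset_iff] at hz' ⊢
      intro i hi
      by_cases hij : i = j
      · subst hij
        exact h z hz
      · exact hz'.2 i (by simp [hij, hi])
    have := Submodule.finrank_mono hle
    omega

theorem finrank_on_insert {U : Submodule ℝ (ι → ℝ)} {Y : Finset ι} {j : ι} (hj : j ∉ Y)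
    {u : ι → ℝ} (hu : u ∈ U) (hus : sp u ⊆ insert j Y) (huj : u j ≠ 0) :
    Module.finrank ℝ (on U (insert j Y)) = Module.finrank ℝ (on U Y) + 1 := by
  apply le_antisymm (finrank_on_insert_le U Y j)
  have hlt : on U Y < on U (insert j Y) := by
    refine lt_of_le_of_ne (on_mono (subset_insert j Y)) ?_
    intro heq
    have : u ∈ on U Y := by rw [heq]; exact mem_on.2 ⟨hu, hus⟩
    exact hj ((mem_on.1 this).2 (mem_sp.2 huj))
  exact Submodule.finrank_lt_finrank_of_lt hlt

theorem finrank_on_le_add (U : Submodule ℝ (ι → ℝ)) {X Y : Finset ι} (h : X ⊆ Y) :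
    Module.finrank ℝ (on U Y) ≤ Module.finrank ℝ (on U X) + (Y \ X).card := by
  have key : ∀ T : Finset ι, Module.finrank ℝ (on U (X ∪ T)) ≤
      Module.finrank ℝ (on U X) + T.card := by
    intro T
    induction T using Finset.induction_on with
    | empty => rw [union_empty, card_empty, add_zero]
    | insert j T hj ih =>
      rw [union_insert, card_insert_of_notMem hj]
      have := finrank_on_insert_le U (X ∪ T) j
      omega
  have := key (Y \ X)
  rwa [union_sdiff_of_subset h] at this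

theorem finrank_on_eq_add {U : Submodule ℝ (ι → ℝ)} {X Y : Finset ι} (h : X ⊆ Y)
    (hc : ∀ i ∈ Y \ X, ∃ u ∈ U, u i ≠ 0 ∧ sp u ⊆ insert i X) :
    Module.finrank ℝ (on U Y) = Module.finrank ℝ (on U X) + (Y \ X).card := by
  have key : ∀ T : Finset ι, T ⊆ Y \ X → Module.finrank ℝ (on U (X ∪ T)) =
      Module.finrank ℝ (on U X) + T.card := by
    intro T
    induction T using Finset.induction_on with
    | empty => intro _; rw [union_empty, card_empty, add_zero]
    | insert j T hj ih =>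
      intro hT
      have hjY : j ∈ Y \ X := hT (mem_insert_self j T)
      obtain ⟨u, hu, huj, hus⟩ := hc j hjY
      have hjX : j ∉ X ∪ T := by
        rw [mem_union, not_or]
        exact ⟨(mem_sdiff.1 hjY).2, hj⟩
      rw [union_insert, card_insert_of_notMem hj, finrank_on_insert hjX hu
        (hus.trans (insert_subset_insert j subset_union_left)) huj,
        ih ((subset_insert j T).trans hT)]
      omega
  have := key (Y \ X) (Subset.refl _)
  rwa [union_sdiff_of_subset h] at this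

/-- The closure of `X`. -/
noncomputable def cl (U : Submodule ℝ (ι → ℝ)) (X : Finset ι) : Finset ι := by
  classical exact univ.filter (fun i => i ∈ X ∨ ∃ u ∈ U, u i ≠ 0 ∧ sp u ⊆ insert i X)

theorem mem_cl {U : Submodule ℝ (ι → ℝ)} {X : Finset ι} {i : ι} :
    i ∈ cl U X ↔ i ∈ X ∨ ∃ u ∈ U, u i ≠ 0 ∧ sp u ⊆ insert i X := by simp [cl]

theorem subset_cl (U : Submodule ℝ (ι → ℝ)) (X : Finset ι) : X ⊆ cl U X :=
  fun _ hi => mem_cl.2 (Or.inl hi)

theorem cl_mono {U : Submodule ℝ (ι → ℝ)} {X Y : Finset ι} (h : X ⊆ Y) : cl U X ⊆ cl U Y := by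
  intro i hi
  rcases mem_cl.1 hi with h1 | ⟨u, hu, hui, hus⟩
  · exact mem_cl.2 (Or.inl (h h1))
  · exact mem_cl.2 (Or.inr ⟨u, hu, hui, hus.trans (insert_subset_insert i h)⟩)

/-- `F` is flat: no vector of `U` has exactly one coordinate outside `F`. -/
def Flat (U : Submodule ℝ (ι → ℝ)) (F : Finset ι) : Prop := ∀ z ∈ U, (sp z \ F).card ≠ 1

/-- A vector supported on `T ∪ cl X` can be moved to `T ∪ X` without changing it off `cl X`. -/
theorem exists_move {U : Submodule ℝ (ι → ℝ)} {X Y : Finset ι} (hXY : X ⊆ Y)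
    (hc : ∀ i ∈ Y \ X, ∃ u ∈ U, u i ≠ 0 ∧ sp u ⊆ insert i X) {z : ι → ℝ} (hz : z ∈ U) :
    ∃ z' ∈ U, (∀ i, i ∉ Y → z' i = z i) ∧ ∀ i ∈ Y \ X, z' i = 0 := by
  have key : ∀ T : Finset ι, T ⊆ Y \ X → ∃ z' ∈ U, (∀ i, i ∉ Y → z' i = z i) ∧
      ∀ i ∈ T, z' i = 0 := by
    intro T
    induction T using Finset.induction_on with
    | empty => exact fun _ => ⟨z, hz, fun _ _ => rfl, fun i hi => absurd hi (notMem_empty i)⟩
    | insert j T hj ih =>
      intro hT
      obtain ⟨w, hw, hw1, hw2⟩ := ih ((subset_insert j T).trans hT)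
      have hjY : j ∈ Y \ X := hT (mem_insert_self j T)
      obtain ⟨u, hu, huj, hus⟩ := hc j hjY
      have hu0 : ∀ i, i ≠ j → i ∉ X → u i = 0 := by
        intro i hij hiX
        exact sp_subset_iff.1 hus i (by simp [hij, hiX])
      refine ⟨w - (w j / u j) • u, U.sub_mem hw (U.smul_mem _ hu), ?_, ?_⟩
      · intro i hi
        have h1 : i ≠ j := by rintro rfl; exact hi (mem_sdiff.1 hjY).1
        have h2 : i ∉ X := fun h => hi (hXY h)
        simp [hu0 i h1 h2, hw1 i hi]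
      · intro i hi
        rcases mem_insert.1 hi with h | h
        · subst h; simp [huj]
        · have h1 : i ≠ j := by rintro rfl; exact hj h
          have h2 : i ∉ X := (mem_sdiff.1 (hT (mem_insert_of_mem h))).2
          simp [hu0 i h1 h2, hw2 i h]
  exact key _ (Subset.refl _)

theorem flat_cl (U : Submodule ℝ (ι → ℝ)) (X : Finset ι) : Flat U (cl U X) := by
  intro z hz hcard
  obtain ⟨i, hi⟩ := card_eq_one.1 hcard
  have hi' : i ∈ sp z \ cl U X := by rw [hi]; exact mem_singleton_self i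
  rw [mem_sdiff] at hi'
  have hc : ∀ i ∈ cl U X \ X, ∃ u ∈ U, u i ≠ 0 ∧ sp u ⊆ insert i X := by
    intro i hi
    rw [mem_sdiff] at hi
    rcases mem_cl.1 hi.1 with h | h
    · exact absurd h hi.2
    · exact h
  obtain ⟨z', hz', h1, h2⟩ := exists_move (subset_cl U X) hc hz
  apply hi'.2
  refine mem_cl.2 (Or.inr ⟨z', hz', ?_, ?_⟩)
  · rw [h1 i hi'.2]; exact mem_sp.1 hi'.1
  · rw [sp_subset_iff]
    intro j hj
    rw [mem_insert, not_or] at hj
    by_cases hjc : j ∈ cl U X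
    · exact h2 j (mem_sdiff.2 ⟨hjc, hj.2⟩)
    · rw [h1 j hjc]
      by_contra hne
      have : j ∈ sp z \ cl U X := mem_sdiff.2 ⟨mem_sp.2 hne, hjc⟩
      rw [hi, mem_singleton] at this
      exact hj.1 this

theorem cl_subset_of_flat {U : Submodule ℝ (ι → ℝ)} {X F : Finset ι} (hF : Flat U F)
    (h : X ⊆ F) : cl U X ⊆ F := by
  intro i hi
  by_contra hiF
  rcases mem_cl.1 hi with h1 | ⟨u, hu, hui, hus⟩
  · exact hiF (h h1)
  · apply hF u hu
    rw [card_eq_one]
    refine ⟨i, ?_⟩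
    ext j
    rw [mem_sdiff, mem_singleton]
    constructor
    · rintro ⟨h2, h3⟩
      rcases mem_insert.1 (hus h2) with h4 | h4
      · exact h4
      · exact absurd (h h4) h3
    · rintro rfl
      exact ⟨mem_sp.2 hui, hiF⟩

theorem cl_subset_ground {U : Submodule ℝ (ι → ℝ)} {X A : Finset ι} (hA : ∀ z ∈ U, sp z ⊆ A)
    (h : X ⊆ A) : cl U X ⊆ A := by
  intro i hi
  rcases mem_cl.1 hi with h1 | ⟨u, hu, hui, -⟩
  · exact h h1
  · exact hA u hu (mem_sp.2 hui)

/-- Circuits: minimal supports of nonzero vectors. -/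
def IsC (U : Submodule ℝ (ι → ℝ)) (C : Finset ι) : Prop :=
  (∃ z ∈ U, z ≠ 0 ∧ sp z = C) ∧ ∀ y ∈ U, y ≠ 0 → sp y ⊆ C → sp y = C

/-- The set of circuits. -/
noncomputable def circs (U : Submodule ℝ (ι → ℝ)) : Finset (Finset ι) := by
  classical exact univ.filter (fun C => IsC U C)

theorem mem_circs {U : Submodule ℝ (ι → ℝ)} {C : Finset ι} : C ∈ circs U ↔ IsC U C := by
  simp [circs]

/-- Simple: every nonzero vector of `U` has support at least three. -/
def Sim (U : Submodule ℝ (ι → ℝ)) : Prop := ∀ z ∈ U, z ≠ 0 → 3 ≤ (sp z).card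

theorem Sim.on {U : Submodule ℝ (ι → ℝ)} (h : Sim U) (X : Finset ι) :
    Sim (Pool.Agent.Helper141C.on U X) := fun z hz => h z hz.1

theorem circs_on_subset (U : Submodule ℝ (ι → ℝ)) (X : Finset ι) : circs (on U X) ⊆ circs U := by
  intro C hC
  rw [mem_circs] at *
  obtain ⟨⟨z, hz, hz0, hzC⟩, hmin⟩ := hC
  refine ⟨⟨z, hz.1, hz0, hzC⟩, fun y hy hy0 hyC => hmin y ?_ hy0 hyC⟩
  refine mem_on.2 ⟨hy, hyC.trans ?_⟩
  rw [← hzC]
  exact (mem_on.1 hz).2

theorem circs_on_ground {U : Submodule ℝ (ι → ℝ)} {X C : Finset ι} (hC : C ∈ circs (on U X)) :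
    C ⊆ X ∧ C.Nonempty := by
  rw [mem_circs] at hC
  obtain ⟨⟨z, hz, hz0, hzC⟩, -⟩ := hC
  rw [← hzC]
  exact ⟨(mem_on.1 hz).2, sp_nonempty.2 hz0⟩

/-- A nonzero vector has a circuit in its support. -/
theorem exists_circuit {U : Submodule ℝ (ι → ℝ)} {z : ι → ℝ} (hz : z ∈ U) (hz0 : z ≠ 0) :
    ∃ C ∈ circs U, C ⊆ sp z := by
  classical
  have hne : (univ.filter (fun D : Finset ι => D ⊆ sp z ∧ ∃ y ∈ U, y ≠ 0 ∧ sp y = D)).Nonempty :=
    ⟨sp z, by simpa using ⟨z, hz, hz0, rfl⟩⟩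
  obtain ⟨D, hD, hmin⟩ := exists_min_image _ (fun D : Finset ι => D.card) hne
  simp only [mem_filter, mem_univ, true_and] at hD hmin
  refine ⟨D, mem_circs.2 ⟨hD.2, fun y hy hy0 hyD => ?_⟩, hD.1⟩
  exact eq_of_subset_of_card_le hyD (hmin (sp y) ⟨hyD.trans hD.1, y, hy, hy0, rfl⟩)

end Pool.Agent.Helper141C
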