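import Mathlib
import Pool.Agent.Helper141_circuits.Core

set_option autoImplicit false
set_option linter.unusedSectionVars false

/-!
A simple configuration with dependence space `W` has at least `choose (dim W + 2) 2` bases.
-/

namespace Pool.Agent.Helper141C

open Finset

variable {ι : Type*} [Fintype ι] [DecidableEq ι]

/-- No nonzero vector of `W` is supported in `B`. -/
def Ind (W : Submodule ℝ (ι → ℝ)) (B : Finset ι) : Prop := ∀ z ∈ W, sp z ⊆ B → z = 0

/-- Every element of `Y` outside `B` depends on `B`. -/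
def Spans (W : Submodule ℝ (ι → ℝ)) (B Y : Finset ι) : Prop :=
  ∀ i ∈ Y \ B, ∃ u ∈ W, u i ≠ 0 ∧ sp u ⊆ insert i B

theorem exists_max_ind {W : Submodule ℝ (ι → ℝ)} {I Y : Finset ι} (hI : Ind W I) (hIY : I ⊆ Y) :
    ∃ B, I ⊆ B ∧ B ⊆ Y ∧ Ind W B ∧ Spans W B Y := by
  classical
  have hne : (univ.filter (fun B : Finset ι => I ⊆ B ∧ B ⊆ Y ∧ Ind W B)).Nonempty :=
    ⟨I, by simp [hIY, hI]⟩
  obtain ⟨B, hB, hmax⟩ := exists_max_image _ (fun B : Finset ι => B.card) hne
  simp only [mem_filter, mem_univ, true_and] at hB hmax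
  refine ⟨B, hB.1, hB.2.1, hB.2.2, fun i hi => ?_⟩
  rw [mem_sdiff] at hi
  by_contra hcon
  push Not at hcon
  have hind : Ind W (insert i B) := by
    intro z hz hzs
    by_cases hzi : z i = 0
    · refine hB.2.2 z hz ?_
      rw [sp_subset_iff] at hzs ⊢
      intro j hj
      by_cases hji : j = i
      · rw [hji]; exact hzi
      · exact hzs j (by simp [hji, hj])
    · exact absurd hzs (hcon z hz hzi)
  have := hmax (insert i B) ⟨hB.1.trans (subset_insert i B), insert_subset hi.1 hB.2.1, hind⟩
  rw [card_insert_of_notMem hi.2] at this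
  omega

theorem on_eq_bot {W : Submodule ℝ (ι → ℝ)} {B : Finset ι} (hB : Ind W B) : on W B = ⊥ := by
  rw [Submodule.eq_bot_iff]
  intro z hz
  rw [mem_on] at hz
  exact hB z hz.1 hz.2

theorem basis_card {W : Submodule ℝ (ι → ℝ)} {A B : Finset ι} (hA : ∀ z ∈ W, sp z ⊆ A)
    (hBA : B ⊆ A) (hB : Ind W B) (hs : Spans W B A) :
    B.card + Module.finrank ℝ W = A.card := by
  have h := finrank_on_eq_add hBA hs
  rw [on_eq_self hA, on_eq_bot hB, finrank_bot, zero_add] at h
  rw [h, ← card_sdiff_add_card_eq_card hBA]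
  omega

theorem spans_trans {W : Submodule ℝ (ι → ℝ)} {B Y A : Finset ι} (hBY : B ⊆ Y)
    (h1 : Spans W B Y) (h2 : Spans W Y A) : Spans W B A := by
  intro i hi
  rw [mem_sdiff] at hi
  by_cases hiY : i ∈ Y
  · exact h1 i (mem_sdiff.2 ⟨hiY, hi.2⟩)
  · obtain ⟨u, hu, hui, hus⟩ := h2 i (mem_sdiff.2 ⟨hi.1, hiY⟩)
    obtain ⟨z, hz, hz1, hz2⟩ := exists_move hBY h1 hu
    refine ⟨z, hz, by rw [hz1 i hiY]; exact hui, ?_⟩
    rw [sp_subset_iff]
    intro j hj
    rw [mem_insert, not_or] at hj
    by_cases hjY : j ∈ Y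
    · exact hz2 j (mem_sdiff.2 ⟨hjY, hj.2⟩)
    · rw [hz1 j hjY]
      exact sp_subset_iff.1 hus j (by simp [hj.1, hjY])

theorem spans_mono {W : Submodule ℝ (ι → ℝ)} {B B' A : Finset ι} (h : B ⊆ B')
    (h1 : Spans W B A) : Spans W B' A := by
  intro i hi
  rw [mem_sdiff] at hi
  obtain ⟨u, hu, hui, hus⟩ := h1 i (mem_sdiff.2 ⟨hi.1, fun h' => hi.2 (h h')⟩)
  exact ⟨u, hu, hui, hus.trans (insert_subset_insert i h)⟩

/-- The set of bases. -/
noncomputable def bases (W : Submodule ℝ (ι → ℝ)) (A : Finset ι) : Finset (Finset ι) := by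
  classical exact univ.filter (fun B => B ⊆ A ∧ Ind W B ∧ B.card + Module.finrank ℝ W = A.card)

theorem mem_bases {W : Submodule ℝ (ι → ℝ)} {A B : Finset ι} :
    B ∈ bases W A ↔ B ⊆ A ∧ Ind W B ∧ B.card + Module.finrank ℝ W = A.card := by
  simp [bases]

theorem card_bases {W : Submodule ℝ (ι → ℝ)} {A : Finset ι} (hA : ∀ z ∈ W, sp z ⊆ A)
    (hS : Sim W) : (Module.finrank ℝ W + 2).choose 2 ≤ (bases W A).card := by
  classical
  have hemp : Ind W (∅ : Finset ι) := fun z _ hz => sp_eq_empty.1 (subset_empty.1 hz)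
  obtain ⟨B₀, -, hB₀A, hB₀, hspan⟩ := exists_max_ind (Y := A) hemp (empty_subset _)
  set E := A \ B₀ with hE
  have hEc : E.card = Module.finrank ℝ W := by
    have h1 := basis_card hA hB₀A hB₀ hspan
    have h2 : E.card + B₀.card = A.card := card_sdiff_add_card_eq_card hB₀A
    omega
  -- the fibres of `B ↦ B \ B₀`
  have hfib0 : ∀ T ∈ powersetCard 0 E, 1 ≤ ((bases W A).filter (fun B => B \ B₀ = T)).card := by
    intro T hT
    rw [powersetCard_zero, mem_singleton] at hT
    subst hT
    refine card_pos.2 ⟨B₀, ?_⟩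
    rw [mem_filter, mem_bases]
    exact ⟨⟨hB₀A, hB₀, basis_card hA hB₀A hB₀ hspan⟩, sdiff_self⟩
  have hfib1 : ∀ T ∈ powersetCard 1 E, 2 ≤ ((bases W A).filter (fun B => B \ B₀ = T)).card := by
    intro T hT
    rw [mem_powersetCard] at hT
    obtain ⟨x, rfl⟩ := card_eq_one.1 hT.2
    have hx : x ∈ A ∧ x ∉ B₀ := mem_sdiff.1 (singleton_subset_iff.1 hT.1)
    obtain ⟨u, hu, hux, hus⟩ := hspan x (mem_sdiff.2 hx)
    have hu0 : u ≠ 0 := by rintro rfl; exact hux rfl
    have h3 := hS u hu hu0
    have h2 : 1 < ((sp u).erase x).card := by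
      rw [card_erase_of_mem (mem_sp.2 hux)]; omega
    obtain ⟨b, hb, b', hb', hbb'⟩ := one_lt_card.1 h2
    have hgood : ∀ b ∈ (sp u).erase x, insert x (B₀.erase b) ∈
        (bases W A).filter (fun B => B \ B₀ = {x}) := by
      intro b hb
      rw [mem_erase] at hb
      have hbB : b ∈ B₀ := by
        rcases mem_insert.1 (hus hb.2) with h | h
        · exact absurd h hb.1
        · exact h
      rw [mem_filter, mem_bases]
      have hxe : x ∉ B₀.erase b := fun h => hx.2 (mem_of_mem_erase h)
      refine ⟨⟨insert_subset hx.1 ((erase_subset _ _).trans hB₀A), ?_, ?_⟩, ?_⟩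
      · intro z hz hzs
        have h4 : sp (z - (z x / u x) • u) ⊆ B₀ :=
          sp_elim (hzs.trans (insert_subset_insert x (erase_subset _ _))) hus hux
        have h5 := hB₀ _ (W.sub_mem hz (W.smul_mem _ hu)) h4
        have h6 : z b = 0 := sp_subset_iff.1 hzs b (by simp [hb.1])
        have h7 := congrFun h5 b
        simp only [Pi.sub_apply, Pi.smul_apply, smul_eq_mul, Pi.zero_apply, h6, zero_sub,
          neg_eq_zero, mul_eq_zero, div_eq_zero_iff] at h7
        have h8 : z x = 0 := by
          rcases h7 with (h | h) | h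
          · exact h
          · exact absurd h hux
          · exact absurd h (mem_sp.1 hb.2)
        rw [h8] at h5
        simpa using h5
      · rw [card_insert_of_notMem hxe, card_erase_of_mem hbB]
        have h1 := basis_card hA hB₀A hB₀ hspan
        have : 0 < B₀.card := card_pos.2 ⟨b, hbB⟩
        omega
      · ext j
        rw [mem_sdiff, mem_insert, mem_erase, mem_singleton]
        constructor
        · rintro ⟨h | h, h'⟩
          · exact h
          · exact absurd h.2 h'
        · rintro rfl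
          exact ⟨Or.inl rfl, hx.2⟩
    refine one_lt_card.2 ⟨_, hgood b hb, _, hgood b' hb', ?_⟩
    intro heq
    have hbB : b ∈ B₀ := by
      rw [mem_erase] at hb
      rcases mem_insert.1 (hus hb.2) with h | h
      · exact absurd h hb.1
      · exact h
    have hbx : b ≠ x := (mem_erase.1 hb).1
    have h5 : b ∈ insert x (B₀.erase b') := by simp [hbB, hbb']
    rw [← heq] at h5
    simp [hbx] at h5
  have hfib2 : ∀ T ∈ powersetCard 2 E, 1 ≤ ((bases W A).filter (fun B => B \ B₀ = T)).card := by
    intro T hT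
    rw [mem_powersetCard] at hT
    have hTind : Ind W T := by
      intro z hz hzs
      by_contra hz0
      have := hS z hz hz0
      have h2 := card_le_card hzs
      omega
    obtain ⟨B, hTB, hBY, hB, hsp⟩ := exists_max_ind (Y := T ∪ B₀) hTind subset_union_left
    have hBA : B ⊆ A := hBY.trans (union_subset (hT.1.trans sdiff_subset) hB₀A)
    have hspA : Spans W B A := spans_trans hBY hsp (spans_mono subset_union_right hspan)
    refine card_pos.2 ⟨B, ?_⟩
    rw [mem_filter, mem_bases]
    refine ⟨⟨hBA, hB, basis_card hA hBA hB hspA⟩, ?_⟩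
    ext j
    rw [mem_sdiff]
    constructor
    · rintro ⟨h1, h2⟩
      rcases mem_union.1 (hBY h1) with h | h
      · exact h
      · exact absurd h h2
    · intro h
      exact ⟨hTB h, (mem_sdiff.1 (hT.1 h)).2⟩
  -- sum up
  have hsum : ∀ j c : ℕ, (∀ T ∈ powersetCard j E,
      c ≤ ((bases W A).filter (fun B => B \ B₀ = T)).card) →
      c * E.card.choose j ≤ ((bases W A).filter (fun B => (B \ B₀).card = j)).card := by
    intro j c h
    have hmaps : ∀ B ∈ (bases W A).filter (fun B => (B \ B₀).card = j),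
        B \ B₀ ∈ powersetCard j E := by
      intro B hB
      rw [mem_filter, mem_bases] at hB
      rw [mem_powersetCard]
      exact ⟨sdiff_subset_sdiff hB.1.1 (Subset.refl _), hB.2⟩
    rw [card_eq_sum_card_fiberwise hmaps]
    calc c * E.card.choose j = ∑ T ∈ powersetCard j E, c := by
          rw [sum_const, card_powersetCard, smul_eq_mul, mul_comm]
      _ ≤ _ := by
          apply sum_le_sum
          intro T hT
          refine (h T hT).trans (card_le_card ?_)
          intro B hB
          rw [mem_filter] at hB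
          rw [mem_filter, mem_filter]
          exact ⟨⟨hB.1, by rw [hB.2]; exact (mem_powersetCard.1 hT).2⟩, hB.2⟩
  have h0 := hsum 0 1 hfib0
  have h1 := hsum 1 2 hfib1
  have h2 := hsum 2 1 hfib2
  have hdisj : ((bases W A).filter (fun B => (B \ B₀).card = 0)).card +
      ((bases W A).filter (fun B => (B \ B₀).card = 1)).card +
      ((bases W A).filter (fun B => (B \ B₀).card = 2)).card ≤ (bases W A).card := by
    rw [← card_union_of_disjoint, ← card_union_of_disjoint]
    · apply card_le_card
      intro B hB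
      simp only [mem_union, mem_filter] at hB
      rcases hB with (h | h) | h <;> exact h.1
    · rw [disjoint_left]
      intro B hB hB'
      simp only [mem_union, mem_filter] at hB hB'
      omega
    · rw [disjoint_left]
      intro B hB hB'
      simp only [mem_filter] at hB hB'
      omega
  rw [Nat.choose_zero_right] at h0
  rw [Nat.choose_one_right] at h1
  rw [← hEc]
  have hch : (E.card + 2).choose 2 = 1 + 2 * E.card + E.card.choose 2 := by
    rw [Nat.choose_succ_succ' (E.card + 1) 1, Nat.choose_succ_succ' E.card 1, Nat.choose_one_right,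
      Nat.choose_one_right]
    ring
  rw [hch]
  omega

end Pool.Agent.Helper141C
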