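import Mathlib
import Pool.Agent.Helper141_circuits.Bases

set_option autoImplicit false
set_option linter.unusedSectionVars false

/-!
Crossing circuits of a flat `F`: circuits of the contraction by `F` that are not circuits of the
configuration itself.  In a connected simple configuration there are at least
`(N * N - K * N) / (2 * K)` of them, `N` the number of elements and `K` the rank outside `F`.
-/

namespace Pool.Agent.Helper141C

open Finset

variable {ι : Type*} [Fintype ι] [DecidableEq ι]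

/-- `D` is a circuit of the contraction by `F`. -/
def IsMin (U : Submodule ℝ (ι → ℝ)) (F D : Finset ι) : Prop :=
  D.Nonempty ∧ (∃ z ∈ U, sp z \ F = D) ∧
    ∀ y ∈ U, (sp y \ F).Nonempty → sp y \ F ⊆ D → sp y \ F = D

/-- `D` is a crossing circuit of `F`. -/
def IsX (U : Submodule ℝ (ι → ℝ)) (F D : Finset ι) : Prop :=
  IsMin U F D ∧ Ind U D

theorem IsMin.disj {U : Submodule ℝ (ι → ℝ)} {F D : Finset ι} (h : IsMin U F D) {i : ι}
    (hi : i ∈ D) : i ∉ F := by
  obtain ⟨-, ⟨z, -, hz⟩, -⟩ := h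
  rw [← hz, mem_sdiff] at hi
  exact hi.2

theorem exists_isMin {U : Submodule ℝ (ι → ℝ)} {F : Finset ι} {z : ι → ℝ} (hz : z ∈ U)
    (hne : (sp z \ F).Nonempty) : ∃ D ⊆ sp z \ F, IsMin U F D := by
  classical
  have hne' : (univ.filter (fun D : Finset ι => D.Nonempty ∧ D ⊆ sp z \ F ∧
      ∃ y ∈ U, sp y \ F = D)).Nonempty := ⟨sp z \ F, by simpa using ⟨hne, z, hz, rfl⟩⟩
  obtain ⟨D, hD, hmin⟩ := exists_min_image _ (fun D : Finset ι => D.card) hne'
  simp only [mem_filter, mem_univ, true_and] at hD hmin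
  refine ⟨D, hD.2.1, hD.1, hD.2.2, fun y hy hy0 hyD => ?_⟩
  exact eq_of_subset_of_card_le hyD (hmin (sp y \ F) ⟨hy0, hyD.trans hD.2.1, y, hy, rfl⟩)

theorem IsMin.proportional {U : Submodule ℝ (ι → ℝ)} {F D : Finset ι} (h : IsMin U F D)
    {z y : ι → ℝ} (hz : z ∈ U) (hzD : sp z \ F = D) (hy : y ∈ U) (hyD : sp y \ F ⊆ D) :
    ∃ c : ℝ, ∀ i, i ∉ F → y i = c * z i := by
  obtain ⟨i, hi⟩ := h.1
  have hi' := hi
  rw [← hzD, mem_sdiff, mem_sp] at hi'
  refine ⟨y i / z i, fun j hj => ?_⟩
  have hw : y - (y i / z i) • z ∈ U := U.sub_mem hy (U.smul_mem _ hz)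
  have hws : sp (y - (y i / z i) • z) \ F ⊆ D := by
    intro k hk
    rw [mem_sdiff, mem_sp] at hk
    by_contra hkD
    apply hk.1
    have h1 : y k = 0 := by
      by_contra hne
      exact hkD (hyD (mem_sdiff.2 ⟨mem_sp.2 hne, hk.2⟩))
    have h2 : z k = 0 := by
      by_contra hne
      exact hkD (by rw [← hzD]; exact mem_sdiff.2 ⟨mem_sp.2 hne, hk.2⟩)
    simp [h1, h2]
  have hwi : i ∉ sp (y - (y i / z i) • z) := by
    rw [notMem_sp]
    simp [hi'.1]
  by_contra hne
  have hne2 : (sp (y - (y i / z i) • z) \ F).Nonempty := by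
    refine ⟨j, mem_sdiff.2 ⟨mem_sp.2 ?_, hj⟩⟩
    simp only [Pi.sub_apply, Pi.smul_apply, smul_eq_mul]
    intro h0
    exact hne (by linarith)
  have := h.2.2 _ hw hne2 hws
  rw [← this, mem_sdiff] at hi
  exact hwi hi.1

/-- If `F` has no crossing circuits then it splits off. -/
theorem sep_of_no_cross {U : Submodule ℝ (ι → ℝ)} {F : Finset ι} (hno : ∀ D, ¬ IsX U F D) :
    ∀ (n : ℕ) (z : ι → ℝ), z ∈ U → (sp z \ F).card = n → ∃ a ∈ U, sp a ⊆ F ∧ ∀ i ∈ F, a i = z i := by
  intro n
  induction n using Nat.strong_induction_on with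
  | _ n ih =>
    intro z hz hn
    by_cases hne : (sp z \ F).Nonempty
    · obtain ⟨D, hDz, hD⟩ := exists_isMin hz hne
      have hnx : ¬ Ind U D := fun h => hno D ⟨hD, h⟩
      rw [Ind] at hnx
      push Not at hnx
      obtain ⟨w, hw, hwD, hw0⟩ := hnx
      have hwF : sp w \ F = sp w := by
        rw [Finset.sdiff_eq_self_iff_disjoint, disjoint_left]
        intro i hi
        exact hD.disj (hwD hi)
      have hwD' : sp w = D := by
        have := hD.2.2 w hw (by rw [hwF]; exact sp_nonempty.2 hw0) (by rw [hwF]; exact hwD)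
        rwa [hwF] at this
      obtain ⟨i, hi⟩ := hD.1
      have hwi : w i ≠ 0 := by rw [← mem_sp, hwD']; exact hi
      have hz' : z - (z i / w i) • w ∈ U := U.sub_mem hz (U.smul_mem _ hw)
      have hsub : sp (z - (z i / w i) • w) \ F ⊆ (sp z \ F).erase i := by
        intro j hj
        rw [mem_sdiff, mem_sp] at hj
        rw [mem_erase, mem_sdiff]
        refine ⟨?_, ?_, hj.2⟩
        · rintro rfl
          apply hj.1
          simp [hwi]
        · by_contra hjz
          have h1 : z j = 0 := notMem_sp.1 hjz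
          have h2 : w j = 0 := by
            by_contra hwj
            have : j ∈ sp z \ F := hDz (by rw [← hwD']; exact mem_sp.2 hwj)
            exact hjz (mem_sdiff.1 this).1
          apply hj.1
          simp [h1, h2]
      have hlt : (sp (z - (z i / w i) • w) \ F).card < n := by
        have h1 := card_le_card hsub
        rw [card_erase_of_mem (hDz hi)] at h1
        have : 0 < (sp z \ F).card := card_pos.2 hne
        omega
      obtain ⟨a, ha, haF, haz⟩ := ih _ hlt _ hz' rfl
      refine ⟨a, ha, haF, fun j hj => ?_⟩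
      rw [haz j hj]
      have h2 : w j = 0 := by
        by_contra hwj
        exact hD.disj (by rw [← hwD']; exact mem_sp.2 hwj) hj
      simp [h2]
    · rw [not_nonempty_iff_eq_empty, sdiff_eq_empty_iff_subset] at hne
      exact ⟨z, hz, hne, fun _ _ => rfl⟩

/-- Lifting a crossing circuit of `F'` to one of `F`. -/
theorem lift_cross {U : Submodule ℝ (ι → ℝ)} {F F' D D₂ : Finset ι} (hFF' : F ⊆ F')
    (hD : IsX U F D) (hDF' : D ⊆ F') (hspan : ∀ b ∈ D, ∀ i ∈ F' \ (F ∪ D.erase b),
      ∃ u ∈ U, u i ≠ 0 ∧ sp u ⊆ insert i (F ∪ D.erase b)) (hD₂ : IsX U F' D₂) :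
    ∃ D', IsX U F D' ∧ D' \ F' = D₂ := by
  obtain ⟨z₀, hz₀, hz₀s⟩ := hD₂.1.2.1
  have hmove : ∀ b ∈ D, ∃ z ∈ U, (∀ i, i ∉ F' → z i = z₀ i) ∧
      ∀ i ∈ F' \ (F ∪ D.erase b), z i = 0 := by
    intro b hb
    exact exists_move (union_subset hFF' ((erase_subset _ _).trans hDF')) (hspan b hb) hz₀
  by_contra hcon
  push Not at hcon
  have hy : ∀ b ∈ D, ∃ y ∈ U, (∀ i, i ∉ F' → y i = z₀ i) ∧ sp y ⊆ D₂ ∪ D.erase b := by
    intro b hb
    obtain ⟨z, hz, hz1, hz2⟩ := hmove b hb
    have hzD₂ : (sp z \ F) \ F' = D₂ := by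
      rw [← hz₀s]
      ext i
      rw [mem_sdiff, mem_sdiff, mem_sdiff, mem_sp, mem_sp]
      constructor
      · rintro ⟨⟨h1, -⟩, h3⟩
        exact ⟨by rwa [← hz1 i h3], h3⟩
      · rintro ⟨h1, h2⟩
        exact ⟨⟨by rwa [hz1 i h2], fun h => h2 (hFF' h)⟩, h2⟩
    have hzsub : sp z \ F ⊆ D₂ ∪ D.erase b := by
      intro i hi
      by_cases hiF' : i ∈ F'
      · rw [mem_sdiff, mem_sp] at hi
        by_contra hcon2
        rw [mem_union, not_or] at hcon2
        refine hi.1 (hz2 i (mem_sdiff.2 ⟨hiF', ?_⟩))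
        rw [mem_union, not_or]
        exact ⟨hi.2, hcon2.2⟩
      · refine mem_union_left _ ?_
        rw [← hzD₂]
        exact mem_sdiff.2 ⟨hi, hiF'⟩
    -- minimality
    have hmin : IsMin U F (sp z \ F) := by
      refine ⟨?_, ⟨z, hz, rfl⟩, fun y hy hyne hys => ?_⟩
      · obtain ⟨i, hi⟩ := hD₂.1.1
        rw [← hzD₂, mem_sdiff] at hi
        exact ⟨i, hi.1⟩
      · have hyF' : sp y \ F' ⊆ D₂ := by
          intro i hi
          rw [mem_sdiff] at hi
          rw [← hzD₂]
          exact mem_sdiff.2 ⟨hys (mem_sdiff.2 ⟨hi.1, fun h => hi.2 (hFF' h)⟩), hi.2⟩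
        have hzz : sp z \ F' = D₂ := by
          rw [← hzD₂]
          ext i
          rw [mem_sdiff, mem_sdiff, mem_sdiff]
          exact ⟨fun h => ⟨⟨h.1, fun h' => h.2 (hFF' h')⟩, h.2⟩, fun h => ⟨h.1.1, h.2⟩⟩
        obtain ⟨c, hc⟩ := hD₂.1.proportional hz hzz hy hyF'
        -- `y - c z` is supported in `F ∪ D.erase b`
        have hw : y - c • z ∈ U := U.sub_mem hy (U.smul_mem _ hz)
        have hws : sp (y - c • z) \ F ⊆ D.erase b := by
          intro i hi
          rw [mem_sdiff, mem_sp] at hi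
          have hiF' : i ∈ F' := by
            by_contra h
            apply hi.1
            simp [hc i h]
          by_contra hne
          have h1 : z i = 0 := by
            refine hz2 i (mem_sdiff.2 ⟨hiF', ?_⟩)
            rw [mem_union, not_or]
            exact ⟨hi.2, hne⟩
          have h2 : y i = 0 := by
            by_contra h
            have := hys (mem_sdiff.2 ⟨mem_sp.2 h, hi.2⟩)
            exact mem_sp.1 (mem_sdiff.1 this).1 h1
          apply hi.1
          simp [h1, h2]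
        have hw0 : ¬ (sp (y - c • z) \ F).Nonempty := by
          intro hne
          have h1 := hD.1.2.2 _ hw hne (hws.trans (erase_subset _ _))
          rw [h1] at hws
          exact notMem_erase b D (hws hb)
        have hoff : ∀ i, i ∉ F → y i = c * z i := by
          intro i hi
          by_contra hne
          apply hw0
          refine ⟨i, mem_sdiff.2 ⟨mem_sp.2 ?_, hi⟩⟩
          simp only [Pi.sub_apply, Pi.smul_apply, smul_eq_mul]
          intro h0
          exact hne (by linarith)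
        have hc0 : c ≠ 0 := by
          rintro rfl
          obtain ⟨i, hi⟩ := hyne
          rw [mem_sdiff, mem_sp] at hi
          exact hi.1 (by rw [hoff i hi.2, zero_mul])
        ext i
        rw [mem_sdiff, mem_sdiff, mem_sp, mem_sp]
        constructor
        · rintro ⟨h1, h2⟩
          refine ⟨fun h => h1 ?_, h2⟩
          rw [hoff i h2, h, mul_zero]
        · rintro ⟨h1, h2⟩
          exact ⟨by rw [hoff i h2]; exact mul_ne_zero hc0 h1, h2⟩
    have hnx : ¬ Ind U (sp z \ F) := fun h => hcon _ ⟨hmin, h⟩ hzD₂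
    rw [Ind] at hnx
    push Not at hnx
    obtain ⟨y, hy, hys, hy0⟩ := hnx
    have hyF : sp y \ F = sp y := by
      rw [Finset.sdiff_eq_self_iff_disjoint, disjoint_left]
      intro i hi
      exact (mem_sdiff.1 (hys hi)).2
    have hyeq : sp y = sp z \ F := by
      have := hmin.2.2 y hy (by rw [hyF]; exact sp_nonempty.2 hy0) (by rw [hyF]; exact hys)
      rwa [hyF] at this
    have hyF' : sp y \ F' ⊆ D₂ := by rw [hyeq, hzD₂]
    obtain ⟨c, hc⟩ := hD₂.1.proportional hz₀ hz₀s hy hyF'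
    have hc0 : c ≠ 0 := by
      rintro rfl
      obtain ⟨i, hi⟩ := hD₂.1.1
      rw [← hzD₂, mem_sdiff, ← hyeq, mem_sp] at hi
      exact hi.1 (by rw [hc i hi.2, zero_mul])
    refine ⟨c⁻¹ • y, U.smul_mem _ hy, fun i hi => ?_, ?_⟩
    · simp only [Pi.smul_apply, smul_eq_mul, hc i hi]
      field_simp
    · rw [sp_smul (inv_ne_zero hc0), hyeq]
      exact hzsub
  choose! y hyU hyoff hys using hy
  have heq : ∀ b ∈ D, ∀ b' ∈ D, y b = y b' := by
    intro b hb b' hb'
    have hw : y b - y b' ∈ U := U.sub_mem (hyU b hb) (hyU b' hb')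
    have hws : sp (y b - y b') ⊆ D := by
      intro i hi
      rw [mem_sp, Pi.sub_apply] at hi
      have hiF' : i ∈ F' := by
        by_contra h
        apply hi
        rw [hyoff b hb i h, hyoff b' hb' i h, sub_self]
      have hiD₂ : i ∉ D₂ := fun h => hD₂.1.disj h hiF'
      by_contra hiD
      apply hi
      have h1 : y b i = 0 := sp_subset_iff.1 (hys b hb) i (by
        rw [mem_union, not_or]; exact ⟨hiD₂, fun h => hiD (mem_of_mem_erase h)⟩)
      have h2 : y b' i = 0 := sp_subset_iff.1 (hys b' hb') i (by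
        rw [mem_union, not_or]; exact ⟨hiD₂, fun h => hiD (mem_of_mem_erase h)⟩)
      rw [h1, h2, sub_self]
    exact sub_eq_zero.1 (hD.2 _ hw hws)
  obtain ⟨b₀, hb₀⟩ := hD.1.1
  have hsub : sp (y b₀) ⊆ D₂ := by
    intro i hi
    by_contra hiD₂
    have h1 : i ∈ D₂ ∪ D.erase b₀ := hys b₀ hb₀ hi
    have hiD : i ∈ D := by
      rcases mem_union.1 h1 with h | h
      · exact absurd h hiD₂
      · exact mem_of_mem_erase h
    rw [heq b₀ hb₀ i hiD, mem_sp] at hi
    apply hi
    refine sp_subset_iff.1 (hys i hiD) i ?_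
    rw [mem_union, not_or]
    exact ⟨hiD₂, notMem_erase i D⟩
  have h0 := hD₂.2 _ (hyU b₀ hb₀) hsub
  obtain ⟨i, hi⟩ := hD₂.1.1
  have hi2 := hi
  rw [← hz₀s, mem_sdiff, mem_sp] at hi2
  apply hi2.1
  rw [← hyoff b₀ hb₀ i hi2.2, h0]
  rfl

end Pool.Agent.Helper141C
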