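import Mathlib
import Pool.Agent.Helper141_circuits.Cross

set_option autoImplicit false
set_option linter.unusedSectionVars false

/-!
The lower bound for the number of crossing circuits of a flat of a connected simple configuration.
-/

namespace Pool.Agent.Helper141C

open Finset

variable {ι : Type*} [Fintype ι] [DecidableEq ι]

/-- The set of crossing circuits of `F`. -/
noncomputable def crossing (U : Submodule ℝ (ι → ℝ)) (F : Finset ι) : Finset (Finset ι) := by
  classical exact univ.filter (fun D => IsX U F D)

theorem mem_crossing {U : Submodule ℝ (ι → ℝ)} {F D : Finset ι} :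
    D ∈ crossing U F ↔ IsX U F D := by simp [crossing]

/-- Zeroing the coordinates in `F`. -/
def zeroOn (F : Finset ι) : (ι → ℝ) →ₗ[ℝ] (ι → ℝ) where
  toFun z := fun i => if i ∈ F then 0 else z i
  map_add' := by
    intro x y
    funext i
    by_cases h : i ∈ F <;> simp [h]
  map_smul' := by
    intro c x
    funext i
    by_cases h : i ∈ F <;> simp [h]

theorem zeroOn_apply (F : Finset ι) (z : ι → ℝ) (i : ι) :
    zeroOn F z i = if i ∈ F then 0 else z i := rfl

theorem sp_zeroOn (F : Finset ι) (z : ι → ℝ) : sp (zeroOn F z) = sp z \ F := by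
  ext i
  rw [mem_sp, mem_sdiff, mem_sp, zeroOn_apply]
  by_cases h : i ∈ F <;> simp [h]

theorem zeroOn_eq_self {F : Finset ι} {z : ι → ℝ} (h : Disjoint (sp z) F) : zeroOn F z = z := by
  funext i
  rw [zeroOn_apply]
  split_ifs with hi
  · by_contra hne
    exact disjoint_left.1 h (mem_sp.2 (Ne.symm hne)) hi
  · rfl

theorem finrank_map_zeroOn (U : Submodule ℝ (ι → ℝ)) {F F' : Finset ι} (h : F ⊆ F') :
    Module.finrank ℝ ((on U F').map (zeroOn F)) + Module.finrank ℝ (on U F) =
      Module.finrank ℝ (on U F') := by
  have h1 := LinearMap.finrank_range_add_finrank_ker ((zeroOn F).domRestrict (on U F'))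
  rw [LinearMap.range_domRestrict] at h1
  have h2 : LinearMap.ker ((zeroOn F).domRestrict (on U F')) =
      (on U F).comap (on U F').subtype := by
    ext ⟨z, hz⟩
    rw [LinearMap.mem_ker, LinearMap.domRestrict_apply, Submodule.mem_comap,
      Submodule.subtype_apply, mem_on, ← sp_eq_empty, sp_zeroOn, sdiff_eq_empty_iff_subset]
    exact ⟨fun h => ⟨(mem_on.1 hz).1, h⟩, fun h => h.2⟩
  rw [h2, (Submodule.comapSubtypeEquivOfLe (on_mono h)).finrank_eq] at h1
  exact h1

/-- Data for one step of the induction. -/
theorem inner_count {U : Submodule ℝ (ι → ℝ)} (hS : Sim U) {F F' D : Finset ι} (hFF' : F ⊆ F')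
    (hflat : Flat U F) (hD : IsX U F D) (hDF' : D ⊆ F') {k : ℕ} (hk1 : 1 ≤ k)
    (hcard : ∀ D', IsX U F D' → D' ⊆ F' → D'.card = k + 1)
    (hk : Module.finrank ℝ (on U F') + k = Module.finrank ℝ (on U F) + (F' \ F).card) :
    ((F' \ F).card - k + 1).choose 2 ≤ ((crossing U F).filter (fun D' => D' ⊆ F')).card := by
  classical
  by_cases hk2 : k = 1
  · subst hk2
    have hD2 : D.card = 2 := hcard D hD hDF'
    have hDsub : D ⊆ F' \ F := fun i hi => mem_sdiff.2 ⟨hDF' hi, hD.1.disj hi⟩
    have h2 : 2 ≤ (F' \ F).card := by rw [← hD2]; exact card_le_card hDsub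
    rw [Nat.sub_add_cancel (by omega), ← card_powersetCard]
    apply card_le_card
    intro P hP
    rw [mem_powersetCard] at hP
    rw [mem_filter, mem_crossing]
    have hPF' : P ⊆ F' := hP.1.trans sdiff_subset
    refine ⟨⟨?_, ?_⟩, hPF'⟩
    · -- minimal
      have hex : ∃ z ∈ U, (sp z \ F).Nonempty ∧ sp z \ F ⊆ P := by
        by_contra hcon
        push Not at hcon
        have heq : on U (F ∪ P) ≤ on U F := by
          intro z hz
          rw [mem_on] at hz ⊢
          refine ⟨hz.1, ?_⟩
          by_contra hns
          have hne : (sp z \ F).Nonempty := by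
            rw [nonempty_iff_ne_empty, Ne, sdiff_eq_empty_iff_subset]
            exact hns
          refine hcon z hz.1 hne ?_
          intro i hi
          rw [mem_sdiff] at hi
          rcases mem_union.1 (hz.2 hi.1) with h | h
          · exact absurd h hi.2
          · exact h
        have h3 := Submodule.finrank_mono heq
        have h4 := finrank_on_le_add U (union_subset hFF' hPF')
        have h5 : (F' \ (F ∪ P)).card + P.card = (F' \ F).card := by
          rw [← card_union_of_disjoint]
          · congr 1
            ext i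
            simp only [mem_union, mem_sdiff]
            constructor
            · rintro (h | h)
              · exact ⟨h.1, fun h' => h.2 (Or.inl h')⟩
              · exact mem_sdiff.1 (hP.1 h)
            · rintro ⟨h, h'⟩
              by_cases hp : i ∈ P
              · exact Or.inr hp
              · exact Or.inl ⟨h, fun h'' => h''.elim h' hp⟩
          · rw [disjoint_left]
            intro i hi hi'
            exact (mem_sdiff.1 hi).2 (mem_union_right _ hi')
        omega
      have hcases : ∀ y ∈ U, (sp y \ F).Nonempty → sp y \ F ⊆ P → sp y \ F = P := by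
        intro y hy hyne hyP
        apply eq_of_subset_of_card_le hyP
        have h6 : 0 < (sp y \ F).card := card_pos.2 hyne
        have h7 := hflat y hy
        omega
      obtain ⟨z, hz, hzne, hzP⟩ := hex
      refine ⟨?_, ⟨z, hz, hcases z hz hzne hzP⟩, hcases⟩
      rw [← card_pos]
      omega
    · intro y hy hys
      by_contra hy0
      have := hS y hy hy0
      have h2 := card_le_card hys
      omega
  · have hk2' : 2 ≤ k := by omega
    obtain ⟨zD, hzD, hzDs⟩ := hD.1.2.1
    have hDsub : D ⊆ F' \ F := fun i hi => mem_sdiff.2 ⟨hDF' hi, hD.1.disj hi⟩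
    have hnot : zeroOn F zD ∉ on U (F' \ F) := by
      intro hmem
      have h1 := hD.2 _ (mem_on.1 hmem).1 (by rw [sp_zeroOn, hzDs])
      have h2 := hD.1.1
      rw [← hzDs, ← sp_zeroOn, h1] at h2
      have h3 : sp (0 : ι → ℝ) = ∅ := sp_eq_empty.2 rfl
      rw [h3] at h2
      exact not_nonempty_empty h2
    obtain ⟨φ, hφD, hφ⟩ := Submodule.exists_le_ker_of_notMem hnot
    set V := (on U F').map (zeroOn F) with hV
    set W := V ⊓ LinearMap.ker φ with hW
    have hVr := finrank_map_zeroOn U hFF'
    rw [← hV] at hVr
    have hzDV : zeroOn F zD ∈ V := by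
      refine Submodule.mem_map_of_mem (mem_on.2 ⟨hzD, ?_⟩)
      intro i hi
      by_cases hiF : i ∈ F
      · exact hFF' hiF
      · exact hDF' (by rw [← hzDs]; exact mem_sdiff.2 ⟨hi, hiF⟩)
    have hWlt : W < V := by
      refine lt_of_le_of_ne inf_le_left ?_
      intro heq
      have : zeroOn F zD ∈ W := by rw [heq]; exact hzDV
      exact hφD (LinearMap.mem_ker.1 (Submodule.mem_inf.1 this).2)
    have hWr : Module.finrank ℝ W + 1 = Module.finrank ℝ V := by
      apply le_antisymm (Submodule.finrank_lt_finrank_of_lt hWlt)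
      have hle : V ≤ W ⊔ Submodule.span ℝ {zeroOn F zD} := by
        intro v hv
        rw [Submodule.mem_sup]
        refine ⟨v - (φ v / φ (zeroOn F zD)) • zeroOn F zD, ?_,
          (φ v / φ (zeroOn F zD)) • zeroOn F zD,
          Submodule.smul_mem _ _ (Submodule.mem_span_singleton_self _), by simp⟩
        refine Submodule.mem_inf.2 ⟨V.sub_mem hv (V.smul_mem _ hzDV), ?_⟩
        rw [LinearMap.mem_ker, map_sub, map_smul, smul_eq_mul]
        field_simp
        ring
      calc Module.finrank ℝ V
          ≤ Module.finrank ℝ (W ⊔ Submodule.span ℝ {zeroOn F zD} : Submodule ℝ (ι → ℝ)) :=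
            Submodule.finrank_mono hle
        _ ≤ Module.finrank ℝ W + Module.finrank ℝ (Submodule.span ℝ {zeroOn F zD}) :=
            Submodule.finrank_add_le_finrank_add_finrank _ _
        _ ≤ Module.finrank ℝ W + 1 := by
            have := finrank_span_le_card (R := ℝ) ({zeroOn F zD} : Set (ι → ℝ))
            simp at this
            omega
    -- supports
    have hVs : ∀ z ∈ V, sp z ⊆ F' \ F := by
      intro z hz
      obtain ⟨z', hz', rfl⟩ := Submodule.mem_map.1 hz
      rw [sp_zeroOn]
      exact sdiff_subset_sdiff (mem_on.1 hz').2 (Subset.refl _)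
    have hWs : ∀ z ∈ W, sp z ⊆ F' \ F := fun z hz => hVs z hz.1
    have hsim : Sim W := by
      intro z hz hz0
      obtain ⟨z', hz', hzz'⟩ := Submodule.mem_map.1 hz.1
      have hz'on := mem_on.1 hz'
      have hspz : sp z = sp z' \ F := by rw [← hzz', sp_zeroOn]
      have h1 := hflat z' hz'on.1
      rw [← hspz] at h1
      have h0 : 0 < (sp z).card := card_pos.2 (sp_nonempty.2 hz0)
      by_contra hlt
      have h2 : (sp z).card = 2 := by omega
      have hX : IsX U F (sp z) := by
        refine ⟨⟨sp_nonempty.2 hz0, ⟨z', hz'on.1, hspz.symm⟩, fun y hy hyne hys => ?_⟩, ?_⟩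
        · apply eq_of_subset_of_card_le hys
          have h6 : 0 < (sp y \ F).card := card_pos.2 hyne
          have h7 := hflat y hy
          omega
        · intro y hy hys
          by_contra hy0
          have := hS y hy hy0
          have h2 := card_le_card hys
          omega
      have := hcard _ hX ((hWs z hz).trans sdiff_subset)
      omega
    have hb := card_bases hWs hsim
    have hnum : Module.finrank ℝ W + 2 = (F' \ F).card - k + 1 := by omega
    rw [hnum] at hb
    refine hb.trans (card_le_card ?_)
    intro B hB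
    rw [mem_bases] at hB
    obtain ⟨hBs, hBind, hBc⟩ := hB
    have hBk : B.card = k + 1 := by omega
    -- a vector of `V` supported in `B`
    have hex : ∃ z ∈ V, z ≠ 0 ∧ sp z ⊆ B := by
      have h1 := finrank_on_le_add V hBs
      rw [on_eq_self hVs, card_sdiff_of_subset hBs] at h1
      have h2 : on V B ≠ ⊥ := by
        intro h
        rw [h, finrank_bot] at h1
        have := card_le_card hBs
        omega
      obtain ⟨z, hz, hz0⟩ := Submodule.exists_mem_ne_zero_of_ne_bot h2
      exact ⟨z, (mem_on.1 hz).1, hz0, (mem_on.1 hz).2⟩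
    obtain ⟨z, hz, hz0, hzB⟩ := hex
    have hφz : φ z ≠ 0 := by
      intro h
      exact hz0 (hBind z (Submodule.mem_inf.2 ⟨hz, h⟩) hzB)
    obtain ⟨z', hz', hzz'⟩ := Submodule.mem_map.1 hz
    have hz'on := mem_on.1 hz'
    have hspz : sp z = sp z' \ F := by rw [← hzz', sp_zeroOn]
    have hzF' : sp z ⊆ F' := (hVs z hz).trans sdiff_subset
    have hX : IsX U F (sp z) := by
      refine ⟨⟨sp_nonempty.2 hz0, ⟨z', hz'on.1, hspz.symm⟩, fun y hy hyne hys => ?_⟩, ?_⟩
      · have hyF' : sp y ⊆ F' := by
          intro i hi
          by_cases hiF : i ∈ F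
          · exact hFF' hiF
          · exact hzF' (hys (mem_sdiff.2 ⟨hi, hiF⟩))
        have hyV : zeroOn F y ∈ V := Submodule.mem_map_of_mem (mem_on.2 ⟨hy, hyF'⟩)
        have hysB : sp (zeroOn F y) ⊆ B := by rw [sp_zeroOn]; exact hys.trans hzB
        have hw : zeroOn F y - (φ (zeroOn F y) / φ z) • z = 0 := by
          apply hBind
          · refine Submodule.mem_inf.2 ⟨V.sub_mem hyV (V.smul_mem _ hz), ?_⟩
            rw [LinearMap.mem_ker, map_sub, map_smul, smul_eq_mul]
            field_simp
            ring
          · exact sp_sub_smul_subset _ hysB hzB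
        have hy2 : zeroOn F y = (φ (zeroOn F y) / φ z) • z := sub_eq_zero.1 hw
        have hy0 : zeroOn F y ≠ 0 := by rw [← sp_nonempty, sp_zeroOn]; exact hyne
        have hc : φ (zeroOn F y) / φ z ≠ 0 := by
          intro h
          rw [h, zero_smul] at hy2
          exact hy0 hy2
        rw [← sp_zeroOn, hy2, sp_smul hc]
      · intro y hy hys
        have hyd : Disjoint (sp y) F := by
          rw [disjoint_left]
          intro i hi
          exact (mem_sdiff.1 (hVs z hz (hys hi))).2
        have hyFF : y ∈ on U (F' \ F) := mem_on.2 ⟨hy, hys.trans (hVs z hz)⟩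
        have hyV : y ∈ V := by
          rw [← zeroOn_eq_self hyd]
          exact Submodule.mem_map_of_mem (mem_on.2 ⟨hy, hys.trans hzF'⟩)
        exact hBind y (Submodule.mem_inf.2 ⟨hyV, hφ hyFF⟩) (hys.trans hzB)
    have hBz : sp z = B := by
      apply eq_of_subset_of_card_le hzB
      rw [hcard _ hX hzF', hBk]
    rw [mem_filter, mem_crossing, ← hBz]
    exact ⟨hX, hzF'⟩

theorem quad_add {k K N₁ N₂ X₁ X₂ : ℕ} (hk : 1 ≤ k) (h1 : N₁ * N₁ ≤ 2 * k * X₁ + k * N₁)
    (h2 : N₂ * N₂ ≤ 2 * K * X₂ + K * N₂) :
    (N₁ + N₂) * (N₁ + N₂) ≤ 2 * (k + K) * (X₁ + X₂) + (k + K) * (N₁ + N₂) := by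
  rcases Nat.eq_zero_or_pos K with hK | hK
  · subst hK
    have : N₂ = 0 := by
      have h3 : N₂ * N₂ = 0 := by omega
      exact mul_self_eq_zero.1 h3
    subst this
    simp only [add_zero]
    calc N₁ * N₁ ≤ 2 * k * X₁ + k * N₁ := h1
      _ ≤ 2 * k * (X₁ + X₂) + k * N₁ := by
          apply Nat.add_le_add_right
          exact Nat.mul_le_mul_left _ (Nat.le_add_right _ _)
  · zify at h1 h2 hk hK ⊢
    have key : 2 * ((N₁ : ℤ) * N₂) ≤ K * (2 * X₁ + N₁) + k * (2 * X₂ + N₂) := by
      have h3 : (0 : ℤ) < k * K := by positivity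
      have h4 : (k * K : ℤ) * (2 * (N₁ * N₂)) ≤ (k * K) * (K * (2 * X₁ + N₁) + k * (2 * X₂ + N₂)) := by
        have h5 : (K : ℤ) * K * (N₁ * N₁) ≤ K * K * (2 * k * X₁ + k * N₁) :=
          mul_le_mul_of_nonneg_left h1 (by positivity)
        have h6 : (k : ℤ) * k * (N₂ * N₂) ≤ k * k * (2 * K * X₂ + K * N₂) :=
          mul_le_mul_of_nonneg_left h2 (by positivity)
        nlinarith [sq_nonneg ((K : ℤ) * N₁ - k * N₂)]
      exact le_of_mul_le_mul_left h4 h3
    nlinarith

/-- The lower bound for the number of crossing circuits. -/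
theorem cross_bound {U : Submodule ℝ (ι → ℝ)} {A : Finset ι} (hA : ∀ z ∈ U, sp z ⊆ A)
    (hS : Sim U) (hC : ∀ F ⊆ A, F.Nonempty → F ≠ A → ∃ D, IsX U F D) :
    ∀ (m : ℕ) (F : Finset ι), F ⊆ A → F.Nonempty → Flat U F → (A \ F).card = m →
      ∀ K : ℕ, K + Module.finrank ℝ U = (A \ F).card + Module.finrank ℝ (on U F) →
      (A \ F).card * (A \ F).card ≤ 2 * K * (crossing U F).card + K * (A \ F).card := by
  classical
  intro m
  induction m using Nat.strong_induction_on with
  | _ m ih =>
    intro F hFA hFne hflat hm K hK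
    by_cases hFA' : F = A
    · subst hFA'
      simp
    obtain ⟨D₀, hD₀⟩ := hC F hFA hFne hFA'
    obtain ⟨D, hD, hDmin⟩ := exists_min_image (crossing U F) (fun D => (cl U (F ∪ D)).card)
      ⟨D₀, mem_crossing.2 hD₀⟩
    rw [mem_crossing] at hD
    set F' := cl U (F ∪ D) with hF'
    have hFF' : F ⊆ F' := subset_union_left.trans (subset_cl U _)
    have hDF' : D ⊆ F' := subset_union_right.trans (subset_cl U _)
    have hDA : D ⊆ A := by
      obtain ⟨z, hz, hzs⟩ := hD.1.2.1
      rw [← hzs]
      exact sdiff_subset.trans (hA z hz)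
    have hF'A : F' ⊆ A := cl_subset_ground hA (union_subset hFA hDA)
    have hF'flat : Flat U F' := flat_cl U _
    have hclD' : ∀ D', IsX U F D' → D' ⊆ F' → cl U (F ∪ D') = F' := by
      intro D' hD' hD'F'
      exact eq_of_subset_of_card_le (cl_subset_of_flat hF'flat (union_subset hFF' hD'F'))
        (hDmin D' (mem_crossing.2 hD'))
    have hspan : ∀ D', IsX U F D' → D' ⊆ F' → ∀ b ∈ D', ∀ i ∈ F' \ (F ∪ D'.erase b),
        ∃ u ∈ U, u i ≠ 0 ∧ sp u ⊆ insert i (F ∪ D'.erase b) := by
      intro D' hD' hD'F' b hb i hi
      obtain ⟨z, hz, hzs⟩ := hD'.1.2.1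
      have hzb : z b ≠ 0 := by
        have := hb
        rw [← hzs, mem_sdiff, mem_sp] at this
        exact this.1
      have hzsub : sp z ⊆ F ∪ D' := by
        intro j hj
        by_cases hjF : j ∈ F
        · exact mem_union_left _ hjF
        · exact mem_union_right _ (by rw [← hzs]; exact mem_sdiff.2 ⟨hj, hjF⟩)
      rw [mem_sdiff, mem_union, not_or] at hi
      by_cases hib : i = b
      · subst hib
        refine ⟨z, hz, hzb, hzsub.trans ?_⟩
        intro j hj
        rcases mem_union.1 hj with h | h
        · exact mem_insert_of_mem (mem_union_left _ h)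
        · by_cases hji : j = i
          · rw [hji]; exact mem_insert_self i _
          · exact mem_insert_of_mem (mem_union_right _ (mem_erase.2 ⟨hji, h⟩))
      · have hiD' : i ∉ D' := fun h => hi.2.2 (mem_erase.2 ⟨hib, h⟩)
        have hicl : i ∈ cl U (F ∪ D') := by rw [hclD' D' hD' hD'F']; exact hi.1
        rcases mem_cl.1 hicl with h | ⟨u, hu, hui, hus⟩
        · rcases mem_union.1 h with h | h
          · exact absurd h hi.2.1
          · exact absurd h hiD'
        · have hzi : z i = 0 := by
            refine sp_subset_iff.1 hzsub i ?_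
            rw [mem_union, not_or]
            exact ⟨hi.2.1, hiD'⟩
          refine ⟨u - (u b / z b) • z, U.sub_mem hu (U.smul_mem _ hz), by simp [hzi, hui], ?_⟩
          have hsub : F ∪ D' ⊆ insert b (insert i (F ∪ D'.erase b)) := by
            intro j hj
            by_cases hjb : j = b
            · rw [hjb]; exact mem_insert_self b _
            · refine mem_insert_of_mem (mem_insert_of_mem ?_)
              rcases mem_union.1 hj with h | h
              · exact mem_union_left _ h
              · exact mem_union_right _ (mem_erase.2 ⟨hjb, h⟩)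
          refine sp_elim ?_ (hzsub.trans hsub) hzb
          refine hus.trans (insert_subset ?_ hsub)
          exact mem_insert_of_mem (mem_insert_self i _)
    have hcardD' : ∀ D', IsX U F D' → D' ⊆ F' → Module.finrank ℝ (on U F') + D'.card =
        Module.finrank ℝ (on U F) + (F' \ F).card + 1 := by
      intro D' hD' hD'F'
      obtain ⟨b, hb⟩ := hD'.1.1
      have h1 := finrank_on_eq_add (U := U) (union_subset hFF' ((erase_subset b D').trans hD'F'))
        (hspan D' hD' hD'F' b hb)
      have h2 : on U (F ∪ D'.erase b) = on U F := by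
        apply le_antisymm _ (on_mono subset_union_left)
        intro y hy
        rw [mem_on] at hy ⊢
        refine ⟨hy.1, ?_⟩
        by_contra hns
        have hne : (sp y \ F).Nonempty := by
          rw [nonempty_iff_ne_empty, Ne, sdiff_eq_empty_iff_subset]
          exact hns
        have hsub : sp y \ F ⊆ D'.erase b := by
          intro i hi
          rw [mem_sdiff] at hi
          rcases mem_union.1 (hy.2 hi.1) with h | h
          · exact absurd h hi.2
          · exact h
        have h3 := hD'.1.2.2 y hy.1 hne (hsub.trans (erase_subset _ _))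
        rw [h3] at hsub
        exact notMem_erase b D' (hsub hb)
      have h4 : (F' \ (F ∪ D'.erase b)).card + (D'.erase b).card = (F' \ F).card := by
        rw [← card_union_of_disjoint]
        · congr 1
          ext i
          simp only [mem_union, mem_sdiff]
          constructor
          · rintro (h | h)
            · exact ⟨h.1, fun h' => h.2 (Or.inl h')⟩
            · exact ⟨hD'F' (mem_of_mem_erase h), hD'.1.disj (mem_of_mem_erase h)⟩
          · rintro ⟨h, h'⟩
            by_cases hp : i ∈ D'.erase b
            · exact Or.inr hp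
            · exact Or.inl ⟨h, fun h'' => h''.elim h' hp⟩
        · rw [disjoint_left]
          intro i hi hi'
          exact (mem_sdiff.1 hi).2 (mem_union_right _ hi')
      rw [card_erase_of_mem hb] at h4
      have h5 : 0 < D'.card := card_pos.2 hD'.1.1
      rw [h2] at h1
      omega
    have hD2 : 2 ≤ D.card := by
      obtain ⟨z, hz, hzs⟩ := hD.1.2.1
      have h1 := hflat z hz
      rw [hzs] at h1
      have : 0 < D.card := card_pos.2 hD.1.1
      omega
    have hcD := hcardD' D hD hDF'
    obtain ⟨k, hk⟩ : ∃ k, D.card = k + 1 := ⟨D.card - 1, by omega⟩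
    have hk1 : 1 ≤ k := by omega
    have hfk : Module.finrank ℝ (on U F') + k = Module.finrank ℝ (on U F) + (F' \ F).card := by
      omega
    have hinner := inner_count hS hFF' hflat hD hDF' hk1 (fun D' h1 h2 => by
      have := hcardD' D' h1 h2
      omega) hfk
    -- the injection
    have hlift : (crossing U F').card ≤ ((crossing U F).filter (fun D' => ¬ D' ⊆ F')).card := by
      have hex : ∀ D₂ ∈ crossing U F', ∃ D', IsX U F D' ∧ D' \ F' = D₂ := by
        intro D₂ hD₂
        exact lift_cross hFF' hD hDF' (fun b hb => hspan D hD hDF' b hb) (mem_crossing.1 hD₂)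
      choose! f hf1 hf2 using hex
      refine card_le_card_of_injOn f ?_ ?_
      · intro D₂ hD₂
        rw [mem_coe, mem_filter, mem_crossing]
        refine ⟨hf1 D₂ hD₂, fun hsub => ?_⟩
        have h1 := hf2 D₂ hD₂
        rw [sdiff_eq_empty_iff_subset.2 hsub] at h1
        have h2 := (mem_crossing.1 hD₂).1.1
        rw [← h1] at h2
        exact not_nonempty_empty h2
      · intro D₂ hD₂ D₃ hD₃ heq
        rw [← hf2 D₂ hD₂, ← hf2 D₃ hD₃, heq]
    have hsplit : ((crossing U F).filter (fun D' => D' ⊆ F')).card +
        ((crossing U F).filter (fun D' => ¬ D' ⊆ F')).card = (crossing U F).card :=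
      card_filter_add_card_filter_not _
    -- cardinalities
    have hcards : (A \ F).card = (F' \ F).card + (A \ F').card := by
      rw [← card_union_of_disjoint]
      · congr 1
        ext i
        simp only [mem_union, mem_sdiff]
        constructor
        · rintro ⟨h, h'⟩
          by_cases hi : i ∈ F'
          · exact Or.inl ⟨hi, h'⟩
          · exact Or.inr ⟨h, hi⟩
        · rintro (h | h)
          · exact ⟨hF'A h.1, h.2⟩
          · exact ⟨h.1, fun h' => h.2 (hFF' h')⟩
      · rw [disjoint_left]
        intro i hi hi'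
        exact (mem_sdiff.1 hi').2 (mem_sdiff.1 hi).1
    have hDsub : D ⊆ F' \ F := fun i hi => mem_sdiff.2 ⟨hDF' hi, hD.1.disj hi⟩
    have hDc := card_le_card hDsub
    have hKk : k ≤ K := by
      have h1 := finrank_on_le_add U hF'A
      rw [on_eq_self hA] at h1
      omega
    obtain ⟨K', rfl⟩ := Nat.exists_eq_add_of_le hKk
    have hIH := ih (A \ F').card (by omega) F' hF'A (hFne.mono hFF') hF'flat rfl K' (by omega)
    have hquad : (F' \ F).card * (F' \ F).card ≤
        2 * k * ((crossing U F).filter (fun D' => D' ⊆ F')).card + k * (F' \ F).card := by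
      obtain ⟨u, hu⟩ : ∃ u, (F' \ F).card = k + u := ⟨(F' \ F).card - k, by omega⟩
      rw [hu] at hinner ⊢
      rw [Nat.add_sub_cancel_left] at hinner
      have h2 : 2 * (u + 1).choose 2 = (u + 1) * u := by
        have := Nat.choose_two_right (u + 1)
        rw [Nat.add_sub_cancel] at this
        have h3 : 2 ∣ (u + 1) * u := by
          rcases Nat.even_or_odd u with h | h
          · exact Dvd.dvd.mul_left h.two_dvd _
          · exact Dvd.dvd.mul_right (h.add_one).two_dvd _
        omega
      have h4 : (u + 1) * u ≤ 2 * ((crossing U F).filter (fun D' => D' ⊆ F')).card := by omega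
      calc (k + u) * (k + u) = k * k + 2 * (k * u) + 1 * (u * u) := by ring
        _ ≤ k * k + 2 * (k * u) + k * (u * u) := by
            apply Nat.add_le_add_left
            exact Nat.mul_le_mul_right _ hk1
        _ = k * ((u + 1) * u) + k * (k + u) := by ring
        _ ≤ k * (2 * ((crossing U F).filter (fun D' => D' ⊆ F')).card) + k * (k + u) := by
            apply Nat.add_le_add_right
            exact Nat.mul_le_mul_left _ h4
        _ = _ := by ring
    rw [hcards, ← hsplit]
    refine (quad_add hk1 hquad hIH).trans ?_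
    apply Nat.add_le_add_right
    apply Nat.mul_le_mul_left
    exact Nat.add_le_add_left hlift _

end Pool.Agent.Helper141C
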