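import Mathlib

set_option autoImplicit false

/-!
The extremal function: `gq q n` is the sum of `choose a 3` over a balanced partition of `n` into
`q` parts; `Fz r n` is the minimum number of circuits in rank `r`.
-/

namespace Pool.Agent.Helper141C

/-- The sum of `choose (n_i) 3` over the balanced partition of `n` into `q` parts `n_i`. -/
def gq (q n : ℕ) : ℕ := q * (n / q).choose 3 + (n % q) * (n / q).choose 2

/-- The correction in odd rank: `0, 1, 3, 3, 4, 5, ...` for `k = 3, 4, 5, ...`. -/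
def dl (k : ℕ) : ℕ := if k = 5 then 3 else k - 3

/-- The minimum number of circuits of a simple real configuration of rank `r` with `n` elements. -/
def Fz (r n : ℕ) : ℤ :=
  if r % 2 = 0 then (gq (r / 2) n : ℤ)
  else (gq (r / 2) (n - 1) : ℤ) - dl ((n - 1 + r / 2 - 1) / (r / 2))

theorem six_c3 (x : ℕ) : (6 : ℤ) * (x.choose 3 : ℤ) = x * (x - 1) * (x - 2) := by
  induction x with
  | zero => simp
  | succ n ih =>
    have h2 : (2 : ℤ) * (n.choose 2 : ℤ) = n * (n - 1) := by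
      clear ih
      induction n with
      | zero => simp
      | succ m ihm =>
        rw [Nat.choose_succ_succ' m 1, Nat.choose_one_right]
        push_cast
        linarith
    rw [Nat.choose_succ_succ' n 2]
    push_cast
    linarith

theorem two_c2 (x : ℕ) : (2 : ℤ) * (x.choose 2 : ℤ) = x * (x - 1) := by
  induction x with
  | zero => simp
  | succ m ihm =>
    rw [Nat.choose_succ_succ' m 1, Nat.choose_one_right]
    push_cast
    linarith

theorem two_c2_pred {k : ℕ} (hk : 1 ≤ k) : (2 : ℤ) * ((k - 1).choose 2 : ℤ) = (k - 1) * (k - 2) := by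
  rw [two_c2]
  push_cast [Nat.cast_sub hk]
  ring

/-- Consecutive integers have nonnegative product. -/
theorem consec_nonneg (t : ℤ) : 0 ≤ t * (t + 1) := by
  rcases le_or_gt 0 t with h | h
  · positivity
  · have : t + 1 ≤ 0 := by omega
    nlinarith

theorem tangent_line (x : ℕ) {k : ℕ} (hk : 2 ≤ k) :
    (k.choose 3 : ℤ) + ((k - 1).choose 2 : ℤ) * (x - k) ≤ (x.choose 3 : ℤ) := by
  have h1 := six_c3 x
  have h2 := six_c3 k
  have h3 := two_c2_pred (k := k) (by omega)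
  have h4 : (0 : ℤ) ≤ ((x : ℤ) - k) * (x - k + 1) * (x + 2 * k - 4) := by
    apply mul_nonneg (consec_nonneg _)
    have : (2 : ℤ) ≤ k := by exact_mod_cast hk
    have : (0 : ℤ) ≤ x := by positivity
    linarith
  have h5 : (6 : ℤ) * (((k - 1).choose 2 : ℤ) * (x - k)) = 3 * ((k - 1) * (k - 2)) * (x - k) := by
    rw [← h3]; ring
  nlinarith

theorem dl_mono_bound {y k : ℕ} (h : y ≤ k) : dl y ≤ dl k := by
  unfold dl
  split_ifs <;> omega

theorem dl_succ {k : ℕ} (hk : 2 ≤ k) : dl (k + 1) ≤ dl k + (k - 1) := by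
  unfold dl
  split_ifs <;> omega

theorem dl_far {y k : ℕ} (h : k ≤ y) : dl y ≤ dl k + 2 * (y - k) := by
  unfold dl
  split_ifs <;> omega

theorem tangent_plane {y k : ℕ} (hk : 2 ≤ k) :
    (k.choose 3 : ℤ) - dl k + ((k - 1).choose 2 : ℤ) * (y - k) ≤ (y.choose 3 : ℤ) - dl y := by
  rcases le_or_gt y k with hyk | hyk
  · have h1 := tangent_line y hk
    have h2 : (dl y : ℤ) ≤ dl k := by exact_mod_cast dl_mono_bound hyk
    linarith
  · have h1 := six_c3 y
    have h2 := six_c3 k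
    have h3 := two_c2_pred (k := k) (by omega)
    have h5 : (6 : ℤ) * (((k - 1).choose 2 : ℤ) * (y - k)) = 3 * ((k - 1) * (k - 2)) * (y - k) := by
      rw [← h3]; ring
    obtain ⟨t, rfl⟩ : ∃ t, y = k + 1 + t := ⟨y - k - 1, by omega⟩
    rcases Nat.eq_zero_or_pos t with ht | ht
    · subst ht
      have h4 : (dl (k + 1) : ℤ) ≤ dl k + (k - 1) := by
        have := dl_succ hk
        have h6 : ((dl (k + 1) : ℕ) : ℤ) ≤ ((dl k + (k - 1) : ℕ) : ℤ) := by exact_mod_cast this
        push_cast [Nat.cast_sub (by omega : 1 ≤ k)] at h6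
        exact h6
      simp only [add_zero] at *
      push_cast at *
      nlinarith
    · have h4 : (dl (k + 1 + t) : ℤ) ≤ dl k + 2 * (t + 1) := by
        have := dl_far (y := k + 1 + t) (k := k) (by omega)
        have h6 : (k + 1 + t - k) = t + 1 := by omega
        rw [h6] at this
        exact_mod_cast this
      push_cast at *
      have hk' : (2 : ℤ) ≤ k := by exact_mod_cast hk
      have ht' : (1 : ℤ) ≤ t := by exact_mod_cast ht
      have h7 : (12 : ℤ) * (t + 1) ≤ (t + 1) * (t + 2) * (t + 3 * k - 3) := by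
        have h8 : (12 : ℤ) ≤ (t + 2) * (t + 3 * k - 3) := by nlinarith
        nlinarith
      nlinarith

theorem gq_eq (q n : ℕ) : (gq q n : ℤ) =
    q * ((n / q).choose 3 : ℤ) + ((n % q : ℕ) : ℤ) * ((n / q).choose 2 : ℤ) := by
  unfold gq
  push_cast
  ring

theorem div_mod_int (q n : ℕ) : (n : ℤ) = q * ((n / q : ℕ) : ℤ) + ((n % q : ℕ) : ℤ) := by
  have := Nat.div_add_mod n q
  exact_mod_cast this.symm

theorem c3_succ (a : ℕ) : ((a + 1).choose 3 : ℤ) = a.choose 3 + a.choose 2 := by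
  rw [Nat.choose_succ_succ' a 2]
  push_cast
  ring

/-- `gq` lies above its tangents. -/
theorem gq_tangent {q n k : ℕ} (hq : 1 ≤ q) (hk : 2 ≤ k) :
    (q : ℤ) * (k.choose 3 : ℤ) + ((k - 1).choose 2 : ℤ) * (n - q * k) ≤ gq q n := by
  have h1 := tangent_line (n / q) hk
  have h2 := tangent_line (n / q + 1) hk
  rw [c3_succ] at h2
  push_cast at h2
  rw [gq_eq]
  have hd := div_mod_int q n
  have hb : ((n % q : ℕ) : ℤ) ≤ q := by exact_mod_cast (Nat.mod_lt n hq).le
  have hb0 : (0 : ℤ) ≤ ((n % q : ℕ) : ℤ) := by positivity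
  have h3 := mul_le_mul_of_nonneg_left h1 (by linarith : (0 : ℤ) ≤ q - ((n % q : ℕ) : ℤ))
  have h4 := mul_le_mul_of_nonneg_left h2 hb0
  rw [hd]
  push_cast at h3 h4 ⊢
  nlinarith

/-- `gq` equals one of its tangents. -/
theorem gq_exact {q n : ℕ} (_h : 1 ≤ q) : (gq q n : ℤ) =
    q * ((n / q + 1).choose 3 : ℤ) + ((n / q + 1 - 1).choose 2 : ℤ) * (n - q * (n / q + 1 : ℕ)) := by
  rw [gq_eq, c3_succ, Nat.add_sub_cancel]
  have hd := div_mod_int q n
  obtain ⟨a, ha⟩ : ∃ a, n / q = a := ⟨_, rfl⟩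
  rw [ha] at hd ⊢
  have : (n : ℤ) - q * ((a + 1 : ℕ) : ℤ) = ((n % q : ℕ) : ℤ) - q := by
    rw [Nat.cast_add, Nat.cast_one]
    linarith
  rw [this]
  ring

theorem ceil_zero {q N : ℕ} (hq : 1 ≤ q) (h : N % q = 0) : (N + q - 1) / q = N / q := by
  have h1 := Nat.div_add_mod N q
  rw [h, add_zero] at h1
  have : N + q - 1 = q - 1 + q * (N / q) := by omega
  rw [this, Nat.add_mul_div_left _ _ hq, Nat.div_eq_of_lt (by omega), zero_add]

theorem ceil_pos {q N : ℕ} (hq : 1 ≤ q) (h : 1 ≤ N % q) : (N + q - 1) / q = N / q + 1 := by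
  have h1 := Nat.div_add_mod N q
  have h2 := Nat.mod_lt N hq
  have : N + q - 1 = (N % q - 1) + q * (N / q + 1) := by
    rw [mul_add, mul_one]
    omega
  rw [this, Nat.add_mul_div_left _ _ hq, Nat.div_eq_of_lt (by omega), zero_add]

/-- The odd function lies above its tangents. -/
theorem odd_tangent {q N k : ℕ} (hN : 1 ≤ q ∨ N = 0) (hk : 2 ≤ k) :
    (q : ℤ) * (k.choose 3 : ℤ) - dl k + ((k - 1).choose 2 : ℤ) * (N - q * k) ≤
      (gq q N : ℤ) - dl ((N + q - 1) / q) := by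
  rcases Nat.eq_zero_or_pos q with hq0 | hq
  · subst hq0
    have hN0 : N = 0 := by omega
    subst hN0
    have h0 : (0 : ℤ) ≤ dl k := by positivity
    have h1 : dl 0 = 0 := rfl
    simp [gq, h1]
  have hd := div_mod_int q N
  rcases Nat.eq_zero_or_pos (N % q) with hb | hb
  · rw [ceil_zero hq hb, gq_eq, hb]
    rw [hb] at hd
    have h1 := tangent_line (N / q) hk
    have h2 := tangent_plane (y := N / q) hk
    have h3 := mul_le_mul_of_nonneg_left h1
      (by have : (1 : ℤ) ≤ q := by exact_mod_cast hq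
          linarith : (0 : ℤ) ≤ q - 1)
    rw [hd]
    push_cast at h2 h3 ⊢
    nlinarith
  · rw [ceil_pos hq hb, gq_eq]
    have h1 := tangent_line (N / q) hk
    have h2 := tangent_line (N / q + 1) hk
    have h3 := tangent_plane (y := N / q + 1) hk
    rw [c3_succ] at h2 h3
    have hb' : ((N % q : ℕ) : ℤ) ≤ q := by exact_mod_cast (Nat.mod_lt N hq).le
    have hb0 : (1 : ℤ) ≤ ((N % q : ℕ) : ℤ) := by exact_mod_cast hb
    have h4 := mul_le_mul_of_nonneg_left h1 (by linarith : (0 : ℤ) ≤ q - ((N % q : ℕ) : ℤ))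
    have h5 := mul_le_mul_of_nonneg_left h2 (by linarith : (0 : ℤ) ≤ ((N % q : ℕ) : ℤ) - 1)
    rw [hd]
    push_cast at h3 h4 h5 ⊢
    nlinarith

/-- The odd function equals one of its tangents. -/
theorem odd_exact {q N : ℕ} (hq : 1 ≤ q) (hN : 2 * q ≤ N) : ∃ k : ℕ, 2 ≤ k ∧
    (gq q N : ℤ) - dl ((N + q - 1) / q) =
      (q : ℤ) * (k.choose 3 : ℤ) - dl k + ((k - 1).choose 2 : ℤ) * (N - q * k) := by
  have hd := div_mod_int q N
  have ha : 2 ≤ N / q := (Nat.le_div_iff_mul_le hq).2 hN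
  rcases Nat.eq_zero_or_pos (N % q) with hb | hb
  · refine ⟨N / q, ha, ?_⟩
    rw [ceil_zero hq hb, gq_eq, hb]
    rw [hb] at hd
    have : (N : ℤ) - q * ((N / q : ℕ) : ℤ) = 0 := by
      push_cast at hd ⊢
      linarith
    rw [this]
    push_cast
    ring
  · refine ⟨N / q + 1, by omega, ?_⟩
    rw [ceil_pos hq hb, gq_exact hq]
    ring

theorem Fz_even (q n : ℕ) : Fz (2 * q) n = gq q n := by
  unfold Fz
  rw [if_pos (by omega)]
  have : 2 * q / 2 = q := by omega
  rw [this]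

theorem Fz_odd (q n : ℕ) : Fz (2 * q + 1) n = (gq q (n - 1) : ℤ) - dl ((n - 1 + q - 1) / q) := by
  unfold Fz
  rw [if_neg (by omega)]
  have : (2 * q + 1) / 2 = q := by omega
  rw [this]

/-- Superadditivity. -/
theorem Fz_add {r₁ r₂ n₁ n₂ : ℕ} (h1 : 1 ≤ r₁) (h2 : 1 ≤ r₂) (hn1 : r₁ ≤ n₁) (hn2 : r₂ ≤ n₂)
    (h11 : r₁ = 1 → n₁ = 1) (h21 : r₂ = 1 → n₂ = 1) :
    Fz (r₁ + r₂) (n₁ + n₂) ≤ Fz r₁ n₁ + Fz r₂ n₂ := by
  have key : ∀ q₁ q₂ n₁ n₂ : ℕ, 1 ≤ q₁ → 2 * q₁ ≤ n₁ → 2 * q₂ + 1 ≤ n₂ → (q₂ = 0 → n₂ = 1) →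
      Fz (2 * q₁ + (2 * q₂ + 1)) (n₁ + n₂) ≤ Fz (2 * q₁) n₁ + Fz (2 * q₂ + 1) n₂ := by
    intro q₁ q₂ n₁ n₂ hq₁ hn₁ hn₂ h21
    have he : 2 * q₁ + (2 * q₂ + 1) = 2 * (q₁ + q₂) + 1 := by ring
    rw [he, Fz_odd, Fz_even, Fz_odd]
    obtain ⟨k, hk, heq⟩ := odd_exact (q := q₁ + q₂) (N := n₁ + n₂ - 1) (by omega) (by omega)
    rw [heq]
    have h3 := gq_tangent (n := n₁) hq₁ hk
    have h4 := odd_tangent (q := q₂) (N := n₂ - 1) (k := k) (by omega) hk
    have h5 : ((n₁ + n₂ - 1 : ℕ) : ℤ) = n₁ + ((n₂ - 1 : ℕ) : ℤ) := by omega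
    rw [h5]
    push_cast
    nlinarith
  rcases Nat.even_or_odd' r₁ with ⟨q₁, hr₁ | hr₁⟩ <;>
    rcases Nat.even_or_odd' r₂ with ⟨q₂, hr₂ | hr₂⟩
  · subst hr₁ hr₂
    rw [← mul_add, Fz_even, Fz_even, Fz_even, gq_exact (by omega)]
    have hk : 2 ≤ (n₁ + n₂) / (q₁ + q₂) + 1 := by
      have : 2 ≤ (n₁ + n₂) / (q₁ + q₂) := (Nat.le_div_iff_mul_le (by omega)).2 (by
        rw [mul_add]; omega)
      omega
    have h3 := gq_tangent (q := q₁) (n := n₁) (by omega) hk
    have h4 := gq_tangent (q := q₂) (n := n₂) (by omega) hk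
    push_cast at h3 h4 ⊢
    nlinarith
  · subst hr₁ hr₂
    exact key q₁ q₂ n₁ n₂ (by omega) hn1 hn2 (fun h => h21 (by omega))
  · subst hr₁ hr₂
    have := key q₂ q₁ n₂ n₁ (by omega) hn2 hn1 (fun h => h11 (by omega))
    rw [add_comm (2 * q₁ + 1) (2 * q₂), add_comm n₁ n₂, add_comm (Fz (2 * q₁ + 1) n₁)]
    exact this
  · subst hr₁ hr₂
    have he : 2 * q₁ + 1 + (2 * q₂ + 1) = 2 * (q₁ + q₂ + 1) := by ring
    rw [he, Fz_even, Fz_odd, Fz_odd, gq_exact (by omega)]
    have hk : 2 ≤ (n₁ + n₂) / (q₁ + q₂ + 1) := by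
      refine (Nat.le_div_iff_mul_le (by omega)).2 ?_
      have : 2 * (q₁ + q₂ + 1) = 2 * q₁ + 1 + (2 * q₂ + 1) := by ring
      omega
    obtain ⟨k, hk'⟩ : ∃ k, (n₁ + n₂) / (q₁ + q₂ + 1) + 1 = k := ⟨_, rfl⟩
    have hk3 : 3 ≤ k := by omega
    rw [hk']
    have h3 := odd_tangent (q := q₁) (N := n₁ - 1) (k := k) (by omega) (by omega)
    have h4 := odd_tangent (q := q₂) (N := n₂ - 1) (k := k) (by omega) (by omega)
    have h5 : ((n₁ - 1 : ℕ) : ℤ) = n₁ - 1 := by omega
    have h6 : ((n₂ - 1 : ℕ) : ℤ) = n₂ - 1 := by omega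
    have h7 := two_c2_pred (k := k) (by omega)
    have h8 := six_c3 k
    have h9 : (3 : ℤ) * (dl k : ℤ) ≤ (k - 3) * ((k - 1).choose 2 : ℤ) := by
      have h10 : (3 : ℤ) * (2 * (dl k : ℤ)) ≤ (k - 3) * ((k - 1) * (k - 2)) := by
        unfold dl
        split_ifs with h
        · subst h; norm_num
        · have : ((k - 3 : ℕ) : ℤ) = k - 3 := by omega
          rw [this]
          have hk3' : (3 : ℤ) ≤ k := by exact_mod_cast hk3
          rcases Nat.eq_or_lt_of_le hk3 with h3 | h3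
          · rw [← h3]; norm_num
          · have hk4 : (4 : ℤ) ≤ k := by exact_mod_cast h3
            have h11 : (6 : ℤ) ≤ (k - 1) * (k - 2) := by nlinarith
            have h12 := mul_le_mul_of_nonneg_left h11 (by linarith : (0 : ℤ) ≤ k - 3)
            linarith
      rw [← h7] at h10
      linarith
    rw [h5] at h3
    rw [h6] at h4
    push_cast at h3 h4 ⊢
    nlinarith

theorem gq_succ {q N : ℕ} (hq : 1 ≤ q) : (gq q (N + 1) : ℤ) = gq q N + ((N / q).choose 2 : ℤ) := by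
  rw [gq_eq, gq_eq]
  have h2 := Nat.mod_lt N hq
  by_cases h : N % q + 1 = q
  · have h1 := Nat.div_add_mod N q
    have hN : N + 1 = 0 + q * (N / q + 1) := by
      rw [mul_add, mul_one]
      omega
    have hdiv : (N + 1) / q = N / q + 1 := by
      rw [hN, Nat.add_mul_div_left _ _ hq, Nat.zero_div, zero_add]
    have hmod : (N + 1) % q = 0 := by
      rw [hN, Nat.add_mul_mod_self_left, Nat.zero_mod]
    rw [hdiv, hmod, c3_succ]
    have h3 : ((N % q : ℕ) : ℤ) = q - 1 := by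
      have : N % q = q - 1 := by omega
      rw [this]
      omega
    rw [h3]
    push_cast
    ring
  · have h1 := Nat.div_add_mod N q
    have hN : N + 1 = (N % q + 1) + q * (N / q) := by omega
    have hdiv : (N + 1) / q = N / q := by
      rw [hN, Nat.add_mul_div_left _ _ hq, Nat.div_eq_of_lt (by omega), zero_add]
    have hmod : (N + 1) % q = N % q + 1 := by
      conv_lhs => rw [hN, Nat.add_mul_mod_self_left, Nat.mod_eq_of_lt (by omega)]
    rw [hdiv, hmod]
    push_cast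
    ring

/-- The step of the connected case. -/
theorem Fz_step {r n X : ℕ} (hr : 2 ≤ r) (hn : r + 1 ≤ n) (h3 : r = 3 → n ≤ 6)
    (hX : (n - 1) * (n - 1) ≤ 2 * (r - 1) * X + (r - 1) * (n - 1)) :
    Fz r n ≤ Fz r (n - 1) + X := by
  obtain ⟨N, rfl⟩ : ∃ N, n = N + 1 := ⟨n - 1, by omega⟩
  rw [Nat.add_sub_cancel] at *
  rcases Nat.even_or_odd' r with ⟨q, hr' | hr'⟩
  · subst hr'
    rw [Fz_even, Fz_even, gq_succ (by omega)]
    have hkey : ((N / q).choose 2 : ℤ) ≤ X := by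
      by_contra hcon
      push Not at hcon
      have hq : 1 ≤ q := by omega
      have ha : 2 ≤ N / q := (Nat.le_div_iff_mul_le hq).2 (by omega)
      have hqa : q * (N / q) ≤ N := Nat.mul_div_le N q
      obtain ⟨a, haa⟩ : ∃ a, N / q = a := ⟨_, rfl⟩
      rw [haa] at hcon ha hqa
      have h2 := two_c2 a
      have hK : ((2 * q - 1 : ℕ) : ℤ) = 2 * q - 1 := by omega
      zify at hX hqa ha hq
      rw [hK] at hX
      have hX2 : (2 : ℤ) * X ≤ a * (a - 1) - 2 := by
        have : (X : ℤ) + 1 ≤ a.choose 2 := hcon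
        linarith
      have hN2 : (q * a : ℤ) * (q * a - (2 * q - 1)) ≤ N * (N - (2 * q - 1)) := by
        have h4 : (0 : ℤ) ≤ N - q * a := by linarith
        have h5 : (0 : ℤ) ≤ N + q * a - (2 * q - 1) := by nlinarith
        nlinarith [mul_nonneg h4 h5]
      have h6 : (N : ℤ) * (N - (2 * q - 1)) ≤ (2 * q - 1) * (2 * X) := by nlinarith
      have h7 : (2 * q - 1 : ℤ) * (2 * X) ≤ (2 * q - 1) * (a * (a - 1) - 2) :=
        mul_le_mul_of_nonneg_left hX2 (by linarith)
      have h8 : (q * a : ℤ) * (q * a - (2 * q - 1)) - (2 * q - 1) * (a * (a - 1)) =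
          a * ((q - 1) * (a * (q - 1) - (2 * q - 1))) := by ring
      have h9 : (-2 : ℤ) * (2 * q - 1) < a * ((q - 1) * (a * (q - 1) - (2 * q - 1))) := by
        rcases eq_or_lt_of_le ha with h | h
        · rw [← h]
          nlinarith
        · have h3a : (3 : ℤ) ≤ a := h
          rcases eq_or_lt_of_le hq with h' | h'
          · rw [← h']; norm_num
          · have h10 : (0 : ℤ) ≤ a * (q - 1) - (2 * q - 1) := by nlinarith
            have h11 : (0 : ℤ) ≤ a * ((q - 1) * (a * (q - 1) - (2 * q - 1))) := by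
              apply mul_nonneg (by linarith) (mul_nonneg (by linarith) h10)
            linarith
      linarith
    linarith
  · subst hr'
    rw [Fz_odd, Fz_odd]
    have hq : 1 ≤ q := by omega
    by_cases hq1 : q = 1
    · subst hq1
      have hN6 : N ≤ 5 := by
        have := h3 rfl
        omega
      have hN3 : 3 ≤ N := by omega
      interval_cases N <;> simp [gq, dl, Nat.choose] at hX ⊢ <;> omega
    · have hq2 : 2 ≤ q := by omega
      obtain ⟨M, rfl⟩ : ∃ M, N = M + 1 := ⟨N - 1, by omega⟩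
      rw [Nat.add_sub_cancel, Nat.add_sub_cancel, gq_succ hq]
      have hmono : (dl ((M + q - 1) / q) : ℤ) ≤ dl ((M + 1 + q - 1) / q) := by
        exact_mod_cast dl_mono_bound (Nat.div_le_div_right (by omega))
      have hkey : ((M / q).choose 2 : ℤ) ≤ X := by
        by_contra hcon
        push Not at hcon
        have ha : 2 ≤ M / q := (Nat.le_div_iff_mul_le hq).2 (by omega)
        have hqa : q * (M / q) ≤ M := Nat.mul_div_le M q
        obtain ⟨a, haa⟩ : ∃ a, M / q = a := ⟨_, rfl⟩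
        rw [haa] at hcon ha hqa
        have h2 := two_c2 a
        have hK : 2 * q + 1 - 1 = 2 * q := by omega
        rw [hK] at hX
        zify at hX hqa ha hq hq2
        have hX2 : (2 : ℤ) * X ≤ a * (a - 1) - 2 := by
          have : (X : ℤ) + 1 ≤ a.choose 2 := hcon
          linarith
        have hN2 : (q * a + 1 : ℤ) * (q * a + 1 - 2 * q) ≤ (M + 1) * (M + 1 - 2 * q) := by
          have h4 : (0 : ℤ) ≤ M - q * a := by linarith
          have h5 : (0 : ℤ) ≤ M + q * a + 2 - 2 * q := by nlinarith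
          nlinarith [mul_nonneg h4 h5]
        have h6 : ((M : ℤ) + 1) * (M + 1 - 2 * q) ≤ (2 * q) * (2 * X) := by nlinarith
        have h7 : (2 * q : ℤ) * (2 * X) ≤ (2 * q) * (a * (a - 1) - 2) :=
          mul_le_mul_of_nonneg_left hX2 (by linarith)
        have h8 : (q * a + 1 : ℤ) * (q * a + 1 - 2 * q) - (2 * q) * (a * (a - 1)) =
            (a * (a - 2)) * (q * (q - 2)) - 2 * q + 1 := by ring
        have h9 : (0 : ℤ) ≤ (a * (a - 2)) * (q * (q - 2)) :=
          mul_nonneg (mul_nonneg (by linarith) (by linarith)) (mul_nonneg (by linarith) (by linarith))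
        linarith
      linarith

/-- Monotonicity in the rank. -/
theorem Fz_rank {r n : ℕ} (hr : 2 ≤ r) (hn : r + 1 ≤ n) : Fz (r + 1) n ≤ Fz r n := by
  rcases Nat.even_or_odd' r with ⟨q, hr' | hr'⟩
  · subst hr'
    rw [Fz_odd, Fz_even]
    have h1 := gq_succ (q := q) (N := n - 1) (by omega)
    rw [Nat.sub_add_cancel (by omega)] at h1
    have h2 : (0 : ℤ) ≤ (((n - 1) / q).choose 2 : ℤ) := by positivity
    have h3 : (0 : ℤ) ≤ (dl ((n - 1 + q - 1) / q) : ℤ) := by positivity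
    linarith
  · subst hr'
    have he : 2 * q + 1 + 1 = 2 * (q + 1) := by ring
    rw [he, Fz_even, Fz_odd, gq_exact (by omega)]
    have hk : 2 ≤ n / (q + 1) := (Nat.le_div_iff_mul_le (by omega)).2 (by omega)
    obtain ⟨k, hk'⟩ : ∃ k, n / (q + 1) + 1 = k := ⟨_, rfl⟩
    rw [hk']
    have h3 := odd_tangent (q := q) (N := n - 1) (k := k) (by omega) (by omega)
    have h5 : ((n - 1 : ℕ) : ℤ) = n - 1 := by omega
    have h7 := two_c2_pred (k := k) (by omega)
    have h8 := six_c3 k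
    have hk3 : 3 ≤ k := by omega
    have h9 : (6 : ℤ) * (dl k : ℤ) ≤ (k - 1) * (k - 2) * (2 * k - 3) := by
      unfold dl
      split_ifs with h
      · subst h; norm_num
      · have : ((k - 3 : ℕ) : ℤ) = k - 3 := by omega
        rw [this]
        have hk3' : (3 : ℤ) ≤ k := by exact_mod_cast hk3
        nlinarith [mul_nonneg (by linarith : (0 : ℤ) ≤ k - 3) (by linarith : (0 : ℤ) ≤ k - 3)]
    rw [h5] at h3
    push_cast at h3 ⊢
    nlinarith

theorem Fz_rank_le {r r' n : ℕ} (hr : 2 ≤ r) (hrr' : r ≤ r') (hn : r' ≤ n) :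
    Fz r' n ≤ Fz r n := by
  induction r', hrr' using Nat.le_induction with
  | base => exact le_refl _
  | succ m hm ih => exact (Fz_rank (by omega) hn).trans (ih (by omega))

end Pool.Agent.Helper141C
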