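import Mathlib
import Pool.Agent.Helper141_circuits.Bases

set_option autoImplicit false
set_option linter.unusedSectionVars false

/-!
Rank three: at least `choose (n - 1) 3 - (n - 4)` circuits for `n ≥ 7` elements.
-/

namespace Pool.Agent.Helper141C

open Finset

variable {ι : Type*} [Fintype ι] [DecidableEq ι]

theorem circ3 {U : Submodule ℝ (ι → ℝ)} (hS : Sim U) {T : Finset ι} (hT : T.card = 3)
    (h : ¬ Ind U T) : T ∈ circs U := by
  rw [Ind] at h
  push Not at h
  obtain ⟨z, hz, hzT, hz0⟩ := h
  rw [mem_circs]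
  refine ⟨⟨z, hz, hz0, eq_of_subset_of_card_le hzT ?_⟩, fun y hy hy0 hyT =>
    eq_of_subset_of_card_le hyT ?_⟩
  · rw [hT]; exact hS z hz hz0
  · rw [hT]; exact hS y hy hy0

theorem circ4 {U : Submodule ℝ (ι → ℝ)} {B : Finset ι} (hdep : ¬ Ind U B)
    (h : ∀ i ∈ B, Ind U (B.erase i)) : B ∈ circs U := by
  rw [Ind] at hdep
  push Not at hdep
  obtain ⟨z, hz, hzB, hz0⟩ := hdep
  have key : ∀ y ∈ U, y ≠ 0 → sp y ⊆ B → sp y = B := by
    intro y hy hy0 hyB
    apply subset_antisymm hyB
    intro i hi
    by_contra hiy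
    refine hy0 (h i hi y hy ?_)
    intro j hj
    exact mem_erase.2 ⟨fun hji => hiy (hji ▸ hj), hyB hj⟩
  rw [mem_circs]
  exact ⟨⟨z, hz, hz0, key z hz hz0 hzB⟩, key⟩

/-- Large sets are dependent. -/
theorem dep_of_card {U : Submodule ℝ (ι → ℝ)} {A B : Finset ι} (hA : ∀ z ∈ U, sp z ⊆ A)
    {r : ℕ} (hr : A.card = r + Module.finrank ℝ U) (hB : B ⊆ A) (hBr : r < B.card) :
    ¬ Ind U B := by
  intro h
  have h1 := finrank_on_le_add U hB
  rw [on_eq_self hA, on_eq_bot h, finrank_bot, card_sdiff_of_subset hB] at h1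
  have := card_le_card hB
  omega

/-- Sum over the fibres of `C ↦ C \ L`. -/
theorem fiber_sum (𝒞 : Finset (Finset ι)) {A L : Finset ι} (h𝒞 : ∀ C ∈ 𝒞, C ⊆ A) {j c : ℕ}
    (h : ∀ P ∈ powersetCard j (A \ L), c ≤ (𝒞.filter (fun C => C \ L = P)).card) :
    c * (A \ L).card.choose j ≤ (𝒞.filter (fun C => (C \ L).card = j)).card := by
  classical
  have hmaps : ∀ C ∈ 𝒞.filter (fun C => (C \ L).card = j), C \ L ∈ powersetCard j (A \ L) := by
    intro C hC
    rw [mem_filter] at hC
    rw [mem_powersetCard]
    exact ⟨sdiff_subset_sdiff (h𝒞 C hC.1) (Subset.refl _), hC.2⟩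
  rw [card_eq_sum_card_fiberwise hmaps]
  calc c * (A \ L).card.choose j = ∑ T ∈ powersetCard j (A \ L), c := by
        rw [sum_const, card_powersetCard, smul_eq_mul, mul_comm]
    _ ≤ _ := by
        apply sum_le_sum
        intro T hT
        refine (h T hT).trans (card_le_card ?_)
        intro B hB
        rw [mem_filter] at hB
        rw [mem_filter, mem_filter]
        exact ⟨⟨hB.1, by rw [hB.2]; exact (mem_powersetCard.1 hT).2⟩, hB.2⟩

/-- A rank two flat with its basic properties. -/
structure IsLine (U : Submodule ℝ (ι → ℝ)) (A L : Finset ι) : Prop where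
  sub : L ⊆ A
  flat : Flat U L
  rank : Module.finrank ℝ (on U L) + 2 = L.card

theorem isLine_cl {U : Submodule ℝ (ι → ℝ)} {A : Finset ι} (hA : ∀ z ∈ U, sp z ⊆ A)
    (hS : Sim U) {a b : ι} (ha : a ∈ A) (hb : b ∈ A) (hab : a ≠ b) :
    IsLine U A (cl U {a, b}) := by
  have hX : ({a, b} : Finset ι) ⊆ A := by
    intro i hi
    rw [mem_insert, mem_singleton] at hi
    rcases hi with rfl | rfl <;> assumption
  refine ⟨cl_subset_ground hA hX, flat_cl U _, ?_⟩
  have h1 := finrank_on_eq_add (U := U) (subset_cl U {a, b}) (by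
    intro i hi
    rw [mem_sdiff] at hi
    rcases mem_cl.1 hi.1 with h | h
    · exact absurd h hi.2
    · exact h)
  have hind : Ind U {a, b} := by
    intro z hz hzs
    by_contra hz0
    have h2 := hS z hz hz0
    have h3 := card_le_card hzs
    rw [card_pair hab] at h3
    omega
  rw [on_eq_bot hind, finrank_bot, zero_add, card_sdiff_of_subset (subset_cl U _),
    card_pair hab] at h1
  have h4 := card_le_card (subset_cl U {a, b})
  rw [card_pair hab] at h4
  omega

theorem IsLine.dep {U : Submodule ℝ (ι → ℝ)} {A L : Finset ι} (h : IsLine U A L) {T : Finset ι}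
    (hT : T ⊆ L) (hTc : T.card = 3) : ¬ Ind U T := by
  intro hind
  have h1 := finrank_on_le_add U hT
  rw [on_eq_bot hind, finrank_bot, card_sdiff_of_subset hT] at h1
  have h2 := h.rank
  have h3 := card_le_card hT
  omega

/-- One point off the line and two on it are independent. -/
theorem IsLine.ind_off {U : Submodule ℝ (ι → ℝ)} {A L : Finset ι} (h : IsLine U A L)
    (hS : Sim U) {p x y : ι} (hp : p ∉ L) (hx : x ∈ L) (hy : y ∈ L) : Ind U {p, x, y} := by
  intro z hz hzs
  by_contra hz0
  have hcard := hS z hz hz0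
  apply h.flat z hz
  have hzp : z p ≠ 0 := by
    intro h0
    have hsub : sp z ⊆ {x, y} := by
      intro i hi
      have := hzs hi
      rw [mem_insert] at this
      rcases this with h1 | h1
      · subst h1; exact absurd h0 (mem_sp.1 hi)
      · exact h1
    have h1 := card_le_card hsub
    have h2 : ({x, y} : Finset ι).card ≤ 2 := card_le_two
    omega
  rw [card_eq_one]
  refine ⟨p, ?_⟩
  ext i
  rw [mem_sdiff, mem_singleton]
  constructor
  · rintro ⟨h1, h2⟩
    have := hzs h1
    rw [mem_insert, mem_insert, mem_singleton] at this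
    rcases this with h3 | h3 | h3
    · exact h3
    · subst h3; exact absurd hx h2
    · subst h3; exact absurd hy h2
  · rintro rfl
    exact ⟨mem_sp.2 hzp, hp⟩

/-- At most one point of the line is collinear with two given points off it. -/
theorem IsLine.unique {U : Submodule ℝ (ι → ℝ)} {A L : Finset ι} (h : IsLine U A L)
    (hS : Sim U) {p q x x' : ι} (hp : p ∉ L) (hx : x ∈ L) (hx' : x' ∈ L)
    (h1 : ¬ Ind U {p, q, x}) (h2 : ¬ Ind U {p, q, x'}) : x = x' := by
  by_contra hne
  rw [Ind] at h1 h2
  push Not at h1 h2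
  obtain ⟨u, hu, hus, hu0⟩ := h1
  obtain ⟨v, hv, hvs, hv0⟩ := h2
  have hfull : ∀ (w : ι → ℝ) (y : ι), w ∈ U → sp w ⊆ {p, q, y} → w ≠ 0 → w q ≠ 0 ∧ w y ≠ 0 := by
    intro w y hw hws hw0
    have h3 := hS w hw hw0
    have h4 : sp w = {p, q, y} := eq_of_subset_of_card_le hws (card_le_three.trans h3)
    constructor
    · rw [← mem_sp, h4]; simp
    · rw [← mem_sp, h4]; simp
  have hu2 := hfull u x hu hus hu0
  have hv2 := hfull v x' hv hvs hv0
  have hsub1 : ({p, q, x} : Finset ι) ⊆ insert q {p, x, x'} := by
    intro i hi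
    simp only [mem_insert, mem_singleton] at hi ⊢
    tauto
  have hsub2 : ({p, q, x'} : Finset ι) ⊆ insert q {p, x, x'} := by
    intro i hi
    simp only [mem_insert, mem_singleton] at hi ⊢
    tauto
  have hw := h.ind_off hS hp hx hx' _ (U.sub_mem hu (U.smul_mem (u q / v q) hv))
    (sp_elim (hus.trans hsub1) (hvs.trans hsub2) hv2.1)
  have h5 := congrFun hw x
  simp only [Pi.sub_apply, Pi.smul_apply, smul_eq_mul, Pi.zero_apply] at h5
  have h6 : v x = 0 := by
    by_contra h7
    have h8 := hvs (mem_sp.2 h7)
    have h9 := hS v hv hv0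
    have h10 : sp v = {p, q, x'} := eq_of_subset_of_card_le hvs (card_le_three.trans h9)
    have h11 := card_le_three (a := p) (b := q) (c := x')
    simp only [mem_insert, mem_singleton] at h8
    rcases h8 with h8 | h8 | h8
    · exact hp (h8 ▸ hx)
    · -- x = q
      have h12 := hS u hu hu0
      have h13 := card_le_card hus
      rw [h8] at h13
      have h14 : ({p, q, q} : Finset ι).card ≤ 2 := by
        have : ({p, q, q} : Finset ι) = {p, q} := by simp
        rw [this]
        exact card_le_two
      omega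
    · exact hne h8
  rw [h6, mul_zero, sub_zero] at h5
  exact hu2.2 h5

/-- The count with a long line. -/
theorem planar_long {U : Submodule ℝ (ι → ℝ)} {A L : Finset ι} (hA : ∀ z ∈ U, sp z ⊆ A)
    (hS : Sim U) (hr : A.card = 3 + Module.finrank ℝ U) (hL : IsLine U A L) (hm : 4 ≤ L.card) :
    L.card.choose 3 + (1 + (L.card - 1).choose 2) * (A \ L).card.choose 2 +
      (A \ L).card.choose 3 ≤ (circs U).card := by
  classical
  have hcA : ∀ C ∈ circs U, C ⊆ A := by
    intro C hC
    rw [mem_circs] at hC
    obtain ⟨⟨z, hz, -, hzC⟩, -⟩ := hC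
    rw [← hzC]
    exact hA z hz
  have h0 : L.card.choose 3 ≤ ((circs U).filter (fun C => (C \ L).card = 0)).card := by
    rw [← card_powersetCard]
    apply card_le_card
    intro T hT
    rw [mem_powersetCard] at hT
    rw [mem_filter]
    refine ⟨circ3 hS hT.2 (hL.dep hT.1 hT.2), ?_⟩
    rw [card_eq_zero, sdiff_eq_empty_iff_subset]
    exact hT.1
  -- the special point of a pair
  have hspecial : ∀ p q : ι, p ∉ L → q ∉ L → ∃ x₀ ∈ L, ∀ x ∈ L, x ≠ x₀ → Ind U {p, q, x} := by
    intro p q hp hq
    by_cases hex : ∃ x ∈ L, ¬ Ind U {p, q, x}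
    · obtain ⟨x₀, hx₀, hbad⟩ := hex
      refine ⟨x₀, hx₀, fun x hx hne => ?_⟩
      by_contra hcon
      exact hne (hL.unique hS hp hx hx₀ hcon hbad)
    · push Not at hex
      obtain ⟨x₀, hx₀⟩ : L.Nonempty := card_pos.1 (by omega)
      exact ⟨x₀, hx₀, fun x hx _ => hex x hx⟩
  have h4set : ∀ p q x y : ι, p ≠ q → p ∈ A \ L → q ∈ A \ L → x ∈ L → y ∈ L → x ≠ y →
      Ind U {p, q, x} → Ind U {p, q, y} → ({p, q, x, y} : Finset ι) ∈ circs U := by
    intro p q x y hpq hp hq hx hy hxy h1 h2
    rw [mem_sdiff] at hp hq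
    have hpx : p ≠ x := fun h => hp.2 (h ▸ hx)
    have hpy : p ≠ y := fun h => hp.2 (h ▸ hy)
    have hqx : q ≠ x := fun h => hq.2 (h ▸ hx)
    have hqy : q ≠ y := fun h => hq.2 (h ▸ hy)
    have hc4 : ({p, q, x, y} : Finset ι).card = 4 := by
      rw [card_insert_of_notMem, card_insert_of_notMem, card_pair hxy]
      · simp [hqx, hqy]
      · simp [hpq, hpx, hpy]
    have hsubA : ({p, q, x, y} : Finset ι) ⊆ A := by
      intro i hi
      simp only [mem_insert, mem_singleton] at hi
      rcases hi with rfl | rfl | rfl | rfl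
      · exact hp.1
      · exact hq.1
      · exact hL.sub hx
      · exact hL.sub hy
    refine circ4 (dep_of_card hA hr hsubA (by omega)) ?_
    intro i hi
    simp only [mem_insert, mem_singleton] at hi
    rcases hi with rfl | rfl | rfl | rfl
    · refine fun z hz hzs => hL.ind_off hS hq.2 hx hy z hz (hzs.trans ?_)
      intro j hj
      simp only [mem_erase, mem_insert, mem_singleton] at hj ⊢
      tauto
    · refine fun z hz hzs => hL.ind_off hS hp.2 hx hy z hz (hzs.trans ?_)
      intro j hj
      simp only [mem_erase, mem_insert, mem_singleton] at hj ⊢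
      tauto
    · refine fun z hz hzs => h2 z hz (hzs.trans ?_)
      intro j hj
      simp only [mem_erase, mem_insert, mem_singleton] at hj ⊢
      tauto
    · refine fun z hz hzs => h1 z hz (hzs.trans ?_)
      intro j hj
      simp only [mem_erase, mem_insert, mem_singleton] at hj ⊢
      tauto
  have hfib2 : ∀ P ∈ powersetCard 2 (A \ L),
      1 + (L.card - 1).choose 2 ≤ ((circs U).filter (fun C => C \ L = P)).card := by
    intro P hP
    rw [mem_powersetCard] at hP
    obtain ⟨p, q, hpq, rfl⟩ := card_eq_two.1 hP.2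
    have hp : p ∈ A \ L := hP.1 (by simp)
    have hq : q ∈ A \ L := hP.1 (by simp)
    have hpL := (mem_sdiff.1 hp).2
    have hqL := (mem_sdiff.1 hq).2
    obtain ⟨x₀, hx₀, hgood⟩ := hspecial p q hpL hqL
    -- the circuit through `x₀`
    have hC₀ : ∃ C₀ ∈ circs U, C₀ \ L = {p, q} ∧ x₀ ∈ C₀ := by
      by_cases hind : Ind U {p, q, x₀}
      · have hne : (L.erase x₀).Nonempty := by
          rw [← card_pos, card_erase_of_mem hx₀]; omega
        obtain ⟨y, hy⟩ := hne
        rw [mem_erase] at hy
        refine ⟨_, h4set p q x₀ y hpq hp hq hx₀ hy.2 (Ne.symm hy.1) hind (hgood y hy.2 hy.1),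
          ?_, by simp⟩
        ext j
        simp only [mem_sdiff, mem_insert, mem_singleton]
        constructor
        · rintro ⟨h | h | h | h, h'⟩
          · exact Or.inl h
          · exact Or.inr h
          · exact absurd (h ▸ hx₀) h'
          · exact absurd (h ▸ hy.2) h'
        · rintro (h | h)
          · exact ⟨Or.inl h, h ▸ hpL⟩
          · exact ⟨Or.inr (Or.inl h), h ▸ hqL⟩
      · have hc3 : ({p, q, x₀} : Finset ι).card = 3 := by
          have hpx : p ≠ x₀ := fun h => hpL (h ▸ hx₀)
          have hqx : q ≠ x₀ := fun h => hqL (h ▸ hx₀)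
          rw [card_insert_of_notMem, card_pair hqx]
          simp [hpq, hpx]
        refine ⟨_, circ3 hS hc3 hind, ?_, by simp⟩
        ext j
        simp only [mem_sdiff, mem_insert, mem_singleton]
        constructor
        · rintro ⟨h | h | h, h'⟩
          · exact Or.inl h
          · exact Or.inr h
          · exact absurd (h ▸ hx₀) h'
        · rintro (h | h)
          · exact ⟨Or.inl h, h ▸ hpL⟩
          · exact ⟨Or.inr (Or.inl h), h ▸ hqL⟩
    obtain ⟨C₀, hC₀, hC₀L, hxC₀⟩ := hC₀
    have hPL : ∀ Y, Y ⊆ L → Disjoint ({p, q} : Finset ι) Y := by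
      intro Y hY
      rw [disjoint_left]
      intro j hj hjY
      simp only [mem_insert, mem_singleton] at hj
      rcases hj with h | h
      · exact hpL (h ▸ hY hjY)
      · exact hqL (h ▸ hY hjY)
    have hinj : Set.InjOn (fun Y : Finset ι => {p, q} ∪ Y)
        (powersetCard 2 (L.erase x₀) : Finset (Finset ι)) := by
      intro Y hY Y' hY' heq
      rw [mem_coe, mem_powersetCard] at hY hY'
      have h1 := hPL Y (hY.1.trans (erase_subset _ _))
      have h2 := hPL Y' (hY'.1.trans (erase_subset _ _))
      have h3 : ({p, q} ∪ Y) \ {p, q} = ({p, q} ∪ Y') \ {p, q} := by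
        simp only at heq
        rw [heq]
      rwa [union_sdiff_cancel_left h1, union_sdiff_cancel_left h2] at h3
    have hnot : C₀ ∉ (powersetCard 2 (L.erase x₀)).image (fun Y : Finset ι => {p, q} ∪ Y) := by
      rw [mem_image]
      rintro ⟨Y, hY, rfl⟩
      rw [mem_powersetCard] at hY
      rcases mem_union.1 hxC₀ with h | h
      · simp only [mem_insert, mem_singleton] at h
        rcases h with h | h
        · exact hpL (h ▸ hx₀)
        · exact hqL (h ▸ hx₀)
      · exact notMem_erase x₀ L (hY.1 h)
    have hcard : (insert C₀ ((powersetCard 2 (L.erase x₀)).image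
        (fun Y : Finset ι => {p, q} ∪ Y))).card = 1 + (L.card - 1).choose 2 := by
      rw [card_insert_of_notMem hnot, card_image_of_injOn hinj, card_powersetCard,
        card_erase_of_mem hx₀, add_comm]
    rw [← hcard]
    apply card_le_card
    intro C hC
    rw [mem_filter]
    rcases mem_insert.1 hC with rfl | hC
    · exact ⟨hC₀, hC₀L⟩
    · obtain ⟨Y, hY, rfl⟩ := mem_image.1 hC
      rw [mem_powersetCard] at hY
      obtain ⟨x, y, hxy, rfl⟩ := card_eq_two.1 hY.2
      have hx : x ∈ L.erase x₀ := hY.1 (by simp)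
      have hy : y ∈ L.erase x₀ := hY.1 (by simp)
      rw [mem_erase] at hx hy
      constructor
      · have := h4set p q x y hpq hp hq hx.2 hy.2 hxy (hgood x hx.2 hx.1) (hgood y hy.2 hy.1)
        have heq : ({p, q} : Finset ι) ∪ {x, y} = {p, q, x, y} := by
          ext j
          simp only [mem_union, mem_insert, mem_singleton]
          tauto
        rw [heq]
        exact this
      · have hYL : ({x, y} : Finset ι) ⊆ L := hY.1.trans (erase_subset _ _)
        ext j
        simp only [mem_sdiff, mem_union]
        constructor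
        · rintro ⟨h | h, h'⟩
          · exact h
          · exact absurd (hYL h) h'
        · intro h
          refine ⟨Or.inl h, ?_⟩
          simp only [mem_insert, mem_singleton] at h
          rcases h with h | h
          · exact h ▸ hpL
          · exact h ▸ hqL
  have hfib3 : ∀ Q ∈ powersetCard 3 (A \ L),
      1 ≤ ((circs U).filter (fun C => C \ L = Q)).card := by
    intro Q hQ
    rw [mem_powersetCard] at hQ
    have hQL : Q \ L = Q := by
      rw [Finset.sdiff_eq_self_iff_disjoint, disjoint_left]
      intro j hj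
      exact (mem_sdiff.1 (hQ.1 hj)).2
    by_cases hind : Ind U Q
    · obtain ⟨a, b, c, hab, hac, hbc, rfl⟩ := card_eq_three.1 hQ.2
      have ha : a ∈ A \ L := hQ.1 (by simp)
      have hb : b ∈ A \ L := hQ.1 (by simp)
      have hc : c ∈ A \ L := hQ.1 (by simp)
      rw [mem_sdiff] at ha hb hc
      obtain ⟨x₁, -, h1⟩ := hspecial a b ha.2 hb.2
      obtain ⟨x₂, -, h2⟩ := hspecial b c hb.2 hc.2
      obtain ⟨x₃, -, h3⟩ := hspecial a c ha.2 hc.2
      obtain ⟨x, hx, hxn⟩ := exists_mem_notMem_of_card_lt_card
        (lt_of_le_of_lt (card_le_three (a := x₁) (b := x₂) (c := x₃)) (by omega : 3 < L.card))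
      simp only [mem_insert, mem_singleton, not_or] at hxn
      have hi1 := h1 x hx hxn.1
      have hi2 := h2 x hx hxn.2.1
      have hi3 := h3 x hx hxn.2.2
      have hxQ : x ∉ ({a, b, c} : Finset ι) := by
        simp only [mem_insert, mem_singleton, not_or]
        exact ⟨fun h => ha.2 (h ▸ hx), fun h => hb.2 (h ▸ hx), fun h => hc.2 (h ▸ hx)⟩
      refine card_pos.2 ⟨insert x {a, b, c}, ?_⟩
      rw [mem_filter]
      constructor
      · have hsubA : insert x ({a, b, c} : Finset ι) ⊆ A :=
          insert_subset (hL.sub hx) (hQ.1.trans sdiff_subset)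
        refine circ4 (dep_of_card hA hr hsubA (by
          rw [card_insert_of_notMem hxQ, hQ.2]; omega)) ?_
        intro i hi
        simp only [mem_insert, mem_singleton] at hi
        rcases hi with rfl | rfl | rfl | rfl
        · refine fun z hz hzs => hind z hz (hzs.trans ?_)
          intro j hj
          simp only [mem_erase, mem_insert, mem_singleton] at hj ⊢
          tauto
        · refine fun z hz hzs => hi2 z hz (hzs.trans ?_)
          intro j hj
          simp only [mem_erase, mem_insert, mem_singleton] at hj ⊢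
          tauto
        · refine fun z hz hzs => hi3 z hz (hzs.trans ?_)
          intro j hj
          simp only [mem_erase, mem_insert, mem_singleton] at hj ⊢
          tauto
        · refine fun z hz hzs => hi1 z hz (hzs.trans ?_)
          intro j hj
          simp only [mem_erase, mem_insert, mem_singleton] at hj ⊢
          tauto
      · rw [insert_sdiff_of_mem _ hx, hQL]
    · exact card_pos.2 ⟨Q, mem_filter.2 ⟨circ3 hS hQ.2 hind, hQL⟩⟩
  have h2 := fiber_sum (circs U) hcA hfib2
  have h3 := fiber_sum (circs U) hcA hfib3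
  have hdisj : ((circs U).filter (fun C => (C \ L).card = 0)).card +
      ((circs U).filter (fun C => (C \ L).card = 2)).card +
      ((circs U).filter (fun C => (C \ L).card = 3)).card ≤ (circs U).card := by
    rw [← card_union_of_disjoint, ← card_union_of_disjoint]
    · apply card_le_card
      intro B hB
      simp only [mem_union, mem_filter] at hB
      rcases hB with (h | h) | h <;> exact h.1
    · rw [disjoint_left]
      intro B hB hB'
      simp only [mem_union, mem_filter] at hB hB'
      omega
    · rw [disjoint_left]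
      intro B hB hB'
      simp only [mem_filter] at hB hB'
      omega
  omega

end Pool.Agent.Helper141C
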