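import Mathlib
import Pool.Agent.Helper141_circuits.Planar
import Pool.Agent.Helper141_circuits.Numeric

set_option autoImplicit false
set_option linter.unusedSectionVars false

/-!
Rank three, all lines with at most three points; the Fano configuration is not real.
-/

namespace Pool.Agent.Helper141C

open Finset

variable {ι : Type*} [Fintype ι] [DecidableEq ι]

/-- Coordinates with respect to an independent triple. -/
theorem exists_coord {U : Submodule ℝ (ι → ℝ)} {A : Finset ι} (hA : ∀ z ∈ U, sp z ⊆ A)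
    (hr : A.card = 3 + Module.finrank ℝ U) {a b c i : ι} (ha : a ∈ A) (hb : b ∈ A) (hc : c ∈ A)
    (hi : i ∈ A) (hcard : ({a, b, c} : Finset ι).card = 3) (hind : Ind U {a, b, c})
    (hi' : i ∉ ({a, b, c} : Finset ι)) : ∃ u ∈ U, u i = 1 ∧ sp u ⊆ insert i {a, b, c} := by
  have hsub : insert i ({a, b, c} : Finset ι) ⊆ A := by
    intro j hj
    simp only [mem_insert, mem_singleton] at hj
    rcases hj with rfl | rfl | rfl | rfl <;> assumption
  have hdep := dep_of_card hA hr hsub (by rw [card_insert_of_notMem hi', hcard]; omega)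
  rw [Ind] at hdep
  push Not at hdep
  obtain ⟨z, hz, hzs, hz0⟩ := hdep
  have hzi : z i ≠ 0 := by
    intro h0
    refine hz0 (hind z hz ?_)
    intro j hj
    rcases mem_insert.1 (hzs hj) with h | h
    · subst h; exact absurd h0 (mem_sp.1 hj)
    · exact h
  refine ⟨(z i)⁻¹ • z, U.smul_mem _ hz, by simp [hzi], ?_⟩
  rw [sp_smul (inv_ne_zero hzi)]
  exact hzs

/-- The Fano configuration is not realisable over the reals. -/
theorem no_fano {U : Submodule ℝ (ι → ℝ)} {A : Finset ι} (hA : ∀ z ∈ U, sp z ⊆ A)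
    (hS : Sim U) (hr : A.card = 3 + Module.finrank ℝ U) {a b c d e f g : ι}
    (ha : a ∈ A) (hb : b ∈ A) (hc : c ∈ A) (hd : d ∈ A) (he : e ∈ A) (hf : f ∈ A) (hg : g ∈ A)
    (hnd : [a, b, c, d, e, f, g].Nodup) (hind : Ind U {a, b, c})
    (h1 : ¬ Ind U {a, b, d}) (h2 : ¬ Ind U {b, c, e}) (h3 : ¬ Ind U {a, c, f})
    (h4 : ¬ Ind U {a, e, g}) (h5 : ¬ Ind U {b, f, g}) (h6 : ¬ Ind U {c, d, g})
    (h7 : ¬ Ind U {d, e, f}) : False := by
  simp only [List.nodup_cons, List.mem_cons, List.not_mem_nil, or_false, not_or,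
    not_false_eq_true, List.nodup_nil, and_true] at hnd
  obtain ⟨⟨ab, ac, ad, ae, af, ag⟩, ⟨bc, bd, be, bf, bg⟩, ⟨cd, ce, cf, cg⟩, ⟨de, df, dg⟩,
    ⟨ef, eg⟩, fg⟩ := hnd
  have hcard : ({a, b, c} : Finset ι).card = 3 := by
    rw [card_insert_of_notMem, card_pair bc]
    simp [ab, ac]
  obtain ⟨ud, hud, hud1, huds⟩ := exists_coord hA hr ha hb hc hd hcard hind
    (by simp [Ne.symm ad, Ne.symm bd, Ne.symm cd])
  obtain ⟨ue, hue, hue1, hues⟩ := exists_coord hA hr ha hb hc he hcard hind
    (by simp [Ne.symm ae, Ne.symm be, Ne.symm ce])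
  obtain ⟨uf, huf, huf1, hufs⟩ := exists_coord hA hr ha hb hc hf hcard hind
    (by simp [Ne.symm af, Ne.symm bf, Ne.symm cf])
  obtain ⟨ug, hug, hug1, hugs⟩ := exists_coord hA hr ha hb hc hg hcard hind
    (by simp [Ne.symm ag, Ne.symm bg, Ne.symm cg])
  rw [sp_subset_iff] at huds hues hufs hugs
  simp only [mem_insert, mem_singleton, not_or] at huds hues hufs hugs
  -- the expansion of a vector of `U` supported on the seven points
  have hexp : ∀ w ∈ U, (∀ i, i ≠ a → i ≠ b → i ≠ c → i ≠ d → i ≠ e → i ≠ f → i ≠ g → w i = 0) →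
      w = w d • ud + w e • ue + w f • uf + w g • ug := by
    intro w hw hws
    rw [← sub_eq_zero]
    apply hind
    · exact U.sub_mem hw (U.add_mem (U.add_mem (U.add_mem (U.smul_mem _ hud) (U.smul_mem _ hue))
        (U.smul_mem _ huf)) (U.smul_mem _ hug))
    · rw [sp_subset_iff]
      intro i hi
      simp only [mem_insert, mem_singleton, not_or] at hi
      simp only [Pi.sub_apply, Pi.add_apply, Pi.smul_apply, smul_eq_mul]
      by_cases hid : i = d
      · subst hid
        rw [hud1, hues i ⟨de, hi.1, hi.2.1, hi.2.2⟩, hufs i ⟨df, hi.1, hi.2.1, hi.2.2⟩,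
          hugs i ⟨dg, hi.1, hi.2.1, hi.2.2⟩]
        ring
      by_cases hie : i = e
      · subst hie
        rw [hue1, huds i ⟨Ne.symm de, hi.1, hi.2.1, hi.2.2⟩, hufs i ⟨ef, hi.1, hi.2.1, hi.2.2⟩,
          hugs i ⟨eg, hi.1, hi.2.1, hi.2.2⟩]
        ring
      by_cases hif : i = f
      · subst hif
        rw [huf1, huds i ⟨Ne.symm df, hi.1, hi.2.1, hi.2.2⟩,
          hues i ⟨Ne.symm ef, hi.1, hi.2.1, hi.2.2⟩, hugs i ⟨fg, hi.1, hi.2.1, hi.2.2⟩]
        ring
      by_cases hig : i = g
      · subst hig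
        rw [hug1, huds i ⟨Ne.symm dg, hi.1, hi.2.1, hi.2.2⟩,
          hues i ⟨Ne.symm eg, hi.1, hi.2.1, hi.2.2⟩, hufs i ⟨Ne.symm fg, hi.1, hi.2.1, hi.2.2⟩]
        ring
      rw [hws i hi.1 hi.2.1 hi.2.2 hid hie hif hig, huds i ⟨hid, hi.1, hi.2.1, hi.2.2⟩,
        hues i ⟨hie, hi.1, hi.2.1, hi.2.2⟩, hufs i ⟨hif, hi.1, hi.2.1, hi.2.2⟩,
        hugs i ⟨hig, hi.1, hi.2.1, hi.2.2⟩]
      ring
  -- vectors on dependent triples
  have htri : ∀ x y z : ι, ¬ Ind U {x, y, z} →
      ∃ w ∈ U, w x ≠ 0 ∧ w y ≠ 0 ∧ w z ≠ 0 ∧ ∀ i, i ≠ x → i ≠ y → i ≠ z → w i = 0 := by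
    intro x y z h
    rw [Ind] at h
    push Not at h
    obtain ⟨w, hw, hws, hw0⟩ := h
    have hspw : sp w = {x, y, z} :=
      eq_of_subset_of_card_le hws (card_le_three.trans (hS w hw hw0))
    refine ⟨w, hw, ?_, ?_, ?_, ?_⟩
    · rw [← mem_sp, hspw]; simp
    · rw [← mem_sp, hspw]; simp
    · rw [← mem_sp, hspw]; simp
    · intro i hx hy hz
      rw [← notMem_sp, hspw]
      simp [hx, hy, hz]
  obtain ⟨w1, hw1, w1a, w1b, w1d, w1s⟩ := htri _ _ _ h1
  obtain ⟨w2, hw2, w2b, w2c, w2e, w2s⟩ := htri _ _ _ h2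
  obtain ⟨w3, hw3, w3a, w3c, w3f, w3s⟩ := htri _ _ _ h3
  obtain ⟨w4, hw4, w4a, w4e, w4g, w4s⟩ := htri _ _ _ h4
  obtain ⟨w5, hw5, w5b, w5f, w5g, w5s⟩ := htri _ _ _ h5
  obtain ⟨w6, hw6, w6c, w6d, w6g, w6s⟩ := htri _ _ _ h6
  obtain ⟨w7, hw7, w7d, w7e, w7f, w7s⟩ := htri _ _ _ h7
  have e1 := hexp w1 hw1 (fun i h1 h2 _ h4 _ _ _ => w1s i h1 h2 h4)
  have e2 := hexp w2 hw2 (fun i _ h2 h3 _ h5 _ _ => w2s i h2 h3 h5)
  have e3 := hexp w3 hw3 (fun i h1 _ h3 _ _ h6 _ => w3s i h1 h3 h6)
  have e4 := hexp w4 hw4 (fun i h1 _ _ _ h5 _ h7 => w4s i h1 h5 h7)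
  have e5 := hexp w5 hw5 (fun i _ h2 _ _ _ h6 h7 => w5s i h2 h6 h7)
  have e6 := hexp w6 hw6 (fun i _ _ h3 h4 _ _ h7 => w6s i h3 h4 h7)
  have e7 := hexp w7 hw7 (fun i _ _ _ h4 h5 h6 _ => w7s i h4 h5 h6)
  rw [w1s e (Ne.symm ae) (Ne.symm be) (Ne.symm de), w1s f (Ne.symm af) (Ne.symm bf) (Ne.symm df),
    w1s g (Ne.symm ag) (Ne.symm bg) (Ne.symm dg)] at e1
  rw [w2s d (Ne.symm bd) (Ne.symm cd) de, w2s f (Ne.symm bf) (Ne.symm cf) (Ne.symm ef),
    w2s g (Ne.symm bg) (Ne.symm cg) (Ne.symm eg)] at e2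
  rw [w3s d (Ne.symm ad) (Ne.symm cd) df, w3s e (Ne.symm ae) (Ne.symm ce) ef,
    w3s g (Ne.symm ag) (Ne.symm cg) (Ne.symm fg)] at e3
  rw [w4s d (Ne.symm ad) de dg, w4s f (Ne.symm af) (Ne.symm ef) fg] at e4
  rw [w5s d (Ne.symm bd) df dg, w5s e (Ne.symm be) ef eg] at e5
  rw [w6s e (Ne.symm ce) (Ne.symm de) eg, w6s f (Ne.symm cf) (Ne.symm df) fg] at e6
  rw [w7s g (Ne.symm dg) (Ne.symm eg) (Ne.symm fg)] at e7
  -- coordinates
  have d_c : ud c = 0 := by
    have := congrFun e1 c
    simp only [Pi.add_apply, Pi.smul_apply, smul_eq_mul, zero_mul, add_zero] at this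
    rw [w1s c (Ne.symm ac) (Ne.symm bc) cd] at this
    exact (mul_eq_zero.1 this.symm).resolve_left w1d
  have d_a : ud a ≠ 0 := by
    intro h
    have := congrFun e1 a
    simp only [Pi.add_apply, Pi.smul_apply, smul_eq_mul, zero_mul, add_zero, h, mul_zero] at this
    exact w1a this
  have d_b : ud b ≠ 0 := by
    intro h
    have := congrFun e1 b
    simp only [Pi.add_apply, Pi.smul_apply, smul_eq_mul, zero_mul, add_zero, h, mul_zero] at this
    exact w1b this
  have e_a : ue a = 0 := by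
    have := congrFun e2 a
    simp only [Pi.add_apply, Pi.smul_apply, smul_eq_mul, zero_mul, add_zero, zero_add] at this
    rw [w2s a ab ac ae] at this
    exact (mul_eq_zero.1 this.symm).resolve_left w2e
  have e_b : ue b ≠ 0 := by
    intro h
    have := congrFun e2 b
    simp only [Pi.add_apply, Pi.smul_apply, smul_eq_mul, zero_mul, add_zero, h, mul_zero] at this
    exact w2b this
  have e_c : ue c ≠ 0 := by
    intro h
    have := congrFun e2 c
    simp only [Pi.add_apply, Pi.smul_apply, smul_eq_mul, zero_mul, add_zero, h, mul_zero] at this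
    exact w2c this
  have f_b : uf b = 0 := by
    have := congrFun e3 b
    simp only [Pi.add_apply, Pi.smul_apply, smul_eq_mul, zero_mul, add_zero, zero_add] at this
    rw [w3s b (Ne.symm ab) bc bf] at this
    exact (mul_eq_zero.1 this.symm).resolve_left w3f
  have f_a : uf a ≠ 0 := by
    intro h
    have := congrFun e3 a
    simp only [Pi.add_apply, Pi.smul_apply, smul_eq_mul, zero_mul, add_zero, h, mul_zero] at this
    exact w3a this
  have f_c : uf c ≠ 0 := by
    intro h
    have := congrFun e3 c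
    simp only [Pi.add_apply, Pi.smul_apply, smul_eq_mul, zero_mul, add_zero, h, mul_zero] at this
    exact w3c this
  -- the relations with `g`
  have r4b : w4 e * ue b + w4 g * ug b = 0 := by
    have := congrFun e4 b
    simp only [Pi.add_apply, Pi.smul_apply, smul_eq_mul, zero_mul, add_zero, zero_add] at this
    rw [w4s b (Ne.symm ab) be bg] at this
    exact this.symm
  have r4c : w4 e * ue c + w4 g * ug c = 0 := by
    have := congrFun e4 c
    simp only [Pi.add_apply, Pi.smul_apply, smul_eq_mul, zero_mul, add_zero, zero_add] at this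
    rw [w4s c (Ne.symm ac) ce cg] at this
    exact this.symm
  have r5a : w5 f * uf a + w5 g * ug a = 0 := by
    have := congrFun e5 a
    simp only [Pi.add_apply, Pi.smul_apply, smul_eq_mul, zero_mul, add_zero, zero_add] at this
    rw [w5s a ab af ag] at this
    exact this.symm
  have r5c : w5 f * uf c + w5 g * ug c = 0 := by
    have := congrFun e5 c
    simp only [Pi.add_apply, Pi.smul_apply, smul_eq_mul, zero_mul, add_zero, zero_add] at this
    rw [w5s c (Ne.symm bc) cf cg] at this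
    exact this.symm
  have r6a : w6 d * ud a + w6 g * ug a = 0 := by
    have := congrFun e6 a
    simp only [Pi.add_apply, Pi.smul_apply, smul_eq_mul, zero_mul, add_zero, zero_add] at this
    rw [w6s a ac ad ag] at this
    exact this.symm
  have r6b : w6 d * ud b + w6 g * ug b = 0 := by
    have := congrFun e6 b
    simp only [Pi.add_apply, Pi.smul_apply, smul_eq_mul, zero_mul, add_zero, zero_add] at this
    rw [w6s b bc bd bg] at this
    exact this.symm
  have r7a : w7 d * ud a + w7 f * uf a = 0 := by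
    have := congrFun e7 a
    simp only [Pi.add_apply, Pi.smul_apply, smul_eq_mul, zero_mul, add_zero, e_a, mul_zero] at this
    rw [w7s a ad ae af] at this
    exact this.symm
  have r7b : w7 d * ud b + w7 e * ue b = 0 := by
    have := congrFun e7 b
    simp only [Pi.add_apply, Pi.smul_apply, smul_eq_mul, zero_mul, add_zero, f_b, mul_zero] at this
    rw [w7s b bd be bf] at this
    exact this.symm
  have r7c : w7 e * ue c + w7 f * uf c = 0 := by
    have := congrFun e7 c
    simp only [Pi.add_apply, Pi.smul_apply, smul_eq_mul, zero_mul, add_zero, d_c, mul_zero,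
      zero_add] at this
    rw [w7s c cd ce cf] at this
    exact this.symm
  have g_b : ug b ≠ 0 := by
    intro h
    rw [h, mul_zero, add_zero] at r4b
    exact (mul_ne_zero w4e e_b) r4b
  have g_c : ug c ≠ 0 := by
    intro h
    rw [h, mul_zero, add_zero] at r4c
    exact (mul_ne_zero w4e e_c) r4c
  have g_a : ug a ≠ 0 := by
    intro h
    rw [h, mul_zero, add_zero] at r5a
    exact (mul_ne_zero w5f f_a) r5a
  have p1 : ug b * ue c = ug c * ue b := by
    have : w4 e * (ug b * ue c - ug c * ue b) = 0 := by linear_combination ug b * r4c - ug c * r4b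
    have := (mul_eq_zero.1 this).resolve_left w4e
    linarith
  have p2 : ug a * uf c = ug c * uf a := by
    have : w5 f * (ug a * uf c - ug c * uf a) = 0 := by linear_combination ug a * r5c - ug c * r5a
    have := (mul_eq_zero.1 this).resolve_left w5f
    linarith
  have p3 : ug a * ud b = ug b * ud a := by
    have : w6 d * (ug a * ud b - ug b * ud a) = 0 := by linear_combination ug a * r6b - ug b * r6a
    have := (mul_eq_zero.1 this).resolve_left w6d
    linarith
  have q1 : ud b * ue c * uf a = ue b * uf c * ud a := by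
    have h8 : (ug a * ug b * ug c) * (ud b * ue c * uf a) =
        (ug a * ug b * ug c) * (ue b * uf c * ud a) := by
      calc (ug a * ug b * ug c) * (ud b * ue c * uf a) =
          (ug a * ud b) * (ug b * ue c) * (ug c * uf a) := by ring
        _ = (ug b * ud a) * (ug c * ue b) * (ug a * uf c) := by rw [p1, ← p2, p3]
        _ = _ := by ring
    exact mul_left_cancel₀ (mul_ne_zero (mul_ne_zero g_a g_b) g_c) h8
  have q2 : ud b * ue c * uf a = -(ue b * uf c * ud a) := by
    have h8 : (w7 d * w7 e * w7 f) * (ud b * ue c * uf a) =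
        (w7 d * w7 e * w7 f) * (-(ue b * uf c * ud a)) := by
      have h9 : w7 d * ud b = -(w7 e * ue b) := by linarith
      have h10 : w7 e * ue c = -(w7 f * uf c) := by linarith
      have h11 : w7 f * uf a = -(w7 d * ud a) := by linarith
      calc (w7 d * w7 e * w7 f) * (ud b * ue c * uf a) =
          (w7 d * ud b) * (w7 e * ue c) * (w7 f * uf a) := by ring
        _ = (-(w7 e * ue b)) * (-(w7 f * uf c)) * (-(w7 d * ud a)) := by rw [h9, h10, h11]
        _ = _ := by ring
    exact mul_left_cancel₀ (mul_ne_zero (mul_ne_zero w7d w7e) w7f) h8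
  have : ud b * ue c * uf a = 0 := by linarith
  exact (mul_ne_zero (mul_ne_zero d_b e_c) f_a) this

end Pool.Agent.Helper141C
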