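import Mathlib
import Pool.Agent.Helper141_circuits.Planar2

set_option autoImplicit false
set_option linter.unusedSectionVars false

/-!
Rank three: the lower bound for `n ≥ 7`.
-/

namespace Pool.Agent.Helper141C

open Finset

variable {ι : Type*} [Fintype ι] [DecidableEq ι]

/-- The dependent triples. -/
noncomputable def dep3 (U : Submodule ℝ (ι → ℝ)) (A : Finset ι) : Finset (Finset ι) := by
  classical exact (powersetCard 3 A).filter (fun T => ¬ Ind U T)

theorem mem_dep3 {U : Submodule ℝ (ι → ℝ)} {A T : Finset ι} :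
    T ∈ dep3 U A ↔ T ⊆ A ∧ T.card = 3 ∧ ¬ Ind U T := by
  simp [dep3, mem_powersetCard, and_assoc]

theorem dep3_subset_cl {U : Submodule ℝ (ι → ℝ)} (hS : Sim U) {T : Finset ι}
    (hT : T.card = 3) (hd : ¬ Ind U T) {a b : ι} (ha : a ∈ T) (hb : b ∈ T) (hab : a ≠ b) :
    T ⊆ cl U {a, b} := by
  rw [Ind] at hd
  push Not at hd
  obtain ⟨z, hz, hzT, hz0⟩ := hd
  have hsp : sp z = T := eq_of_subset_of_card_le hzT (by rw [hT]; exact hS z hz hz0)
  intro x hx
  by_cases hxa : x = a
  · exact subset_cl U _ (by simp [hxa])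
  by_cases hxb : x = b
  · exact subset_cl U _ (by simp [hxb])
  refine mem_cl.2 (Or.inr ⟨z, hz, ?_, ?_⟩)
  · rw [← mem_sp, hsp]; exact hx
  · rw [hsp]
    have hsub : ({x, a, b} : Finset ι) ⊆ T := by
      intro j hj
      simp only [mem_insert, mem_singleton] at hj
      rcases hj with rfl | rfl | rfl <;> assumption
    have hc : ({x, a, b} : Finset ι).card = 3 := by
      rw [card_insert_of_notMem, card_pair hab]
      simp [hxa, hxb]
    exact (eq_of_subset_of_card_le hsub (by omega)).symm.subset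

theorem dep3_eq_cl {U : Submodule ℝ (ι → ℝ)} {A : Finset ι} (hS : Sim U)
    (hshort : ∀ a ∈ A, ∀ b ∈ A, a ≠ b → (cl U {a, b}).card ≤ 3) {T : Finset ι}
    (hT : T ∈ dep3 U A) {a b : ι} (ha : a ∈ T) (hb : b ∈ T) (hab : a ≠ b) :
    T = cl U {a, b} := by
  rw [mem_dep3] at hT
  refine eq_of_subset_of_card_le (dep3_subset_cl hS hT.2.1 hT.2.2 ha hb hab) ?_
  rw [hT.2.1]
  exact hshort a (hT.1 ha) b (hT.1 hb) hab

theorem dep3_pairwise {U : Submodule ℝ (ι → ℝ)} {A : Finset ι} (hS : Sim U)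
    (hshort : ∀ a ∈ A, ∀ b ∈ A, a ≠ b → (cl U {a, b}).card ≤ 3) :
    ((dep3 U A : Finset (Finset ι)) : Set (Finset ι)).PairwiseDisjoint
      (fun T => powersetCard 2 T) := by
  intro T hT T' hT' hne
  rw [Function.onFun, disjoint_left]
  intro P hP hP'
  rw [mem_powersetCard] at hP hP'
  obtain ⟨a, b, hab, rfl⟩ := card_eq_two.1 hP.2
  apply hne
  rw [dep3_eq_cl hS hshort hT (hP.1 (by simp : a ∈ ({a, b} : Finset ι))) (hP.1 (by simp)) hab,
    dep3_eq_cl hS hshort hT' (hP'.1 (by simp : a ∈ ({a, b} : Finset ι))) (hP'.1 (by simp)) hab]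

theorem dep3_biUnion_card {U : Submodule ℝ (ι → ℝ)} {A : Finset ι} (hS : Sim U)
    (hshort : ∀ a ∈ A, ∀ b ∈ A, a ≠ b → (cl U {a, b}).card ≤ 3) :
    ((dep3 U A).biUnion (fun T => powersetCard 2 T)).card = 3 * (dep3 U A).card := by
  rw [card_biUnion (dep3_pairwise hS hshort)]
  rw [sum_congr rfl (fun T hT => by
    rw [card_powersetCard, (mem_dep3.1 hT).2.1] : ∀ T ∈ dep3 U A,
      (powersetCard 2 T).card = Nat.choose 3 2)]
  rw [sum_const, smul_eq_mul, mul_comm]
  rfl

theorem dep3_biUnion_subset {U : Submodule ℝ (ι → ℝ)} {A : Finset ι} :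
    (dep3 U A).biUnion (fun T => powersetCard 2 T) ⊆ powersetCard 2 A := by
  intro P hP
  obtain ⟨T, hT, hPT⟩ := mem_biUnion.1 hP
  rw [mem_powersetCard] at hPT ⊢
  exact ⟨hPT.1.trans (mem_dep3.1 hT).1, hPT.2⟩

theorem dep3_card_le {U : Submodule ℝ (ι → ℝ)} {A : Finset ι} (hS : Sim U)
    (hshort : ∀ a ∈ A, ∀ b ∈ A, a ≠ b → (cl U {a, b}).card ≤ 3) :
    3 * (dep3 U A).card ≤ A.card.choose 2 := by
  rw [← dep3_biUnion_card hS hshort, ← card_powersetCard]
  exact card_le_card dep3_biUnion_subset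

/-- The count of circuits in terms of the dependent triples. -/
theorem planar_short_count {U : Submodule ℝ (ι → ℝ)} {A : Finset ι} (hA : ∀ z ∈ U, sp z ⊆ A)
    (hS : Sim U) (hr : A.card = 3 + Module.finrank ℝ U) :
    (dep3 U A).card + A.card.choose 4 ≤ (circs U).card + (dep3 U A).card * (A.card - 3) := by
  classical
  have hbad : ((powersetCard 4 A).filter (fun B => ∃ T ∈ dep3 U A, T ⊆ B)).card ≤
      (dep3 U A).card * (A.card - 3) := by
    calc ((powersetCard 4 A).filter (fun B => ∃ T ∈ dep3 U A, T ⊆ B)).card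
        ≤ ((dep3 U A).biUnion (fun T => (A \ T).image (fun x => insert x T))).card := by
          apply card_le_card
          intro B hB
          rw [mem_filter, mem_powersetCard] at hB
          obtain ⟨⟨hBA, hBc⟩, T, hT, hTB⟩ := hB
          have hT3 := (mem_dep3.1 hT).2.1
          have h1 : (B \ T).card = 1 := by rw [card_sdiff_of_subset hTB]; omega
          obtain ⟨x, hx⟩ := card_eq_one.1 h1
          have hxB : x ∈ B \ T := by rw [hx]; exact mem_singleton_self x
          rw [mem_sdiff] at hxB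
          refine mem_biUnion.2 ⟨T, hT, mem_image.2 ⟨x, mem_sdiff.2 ⟨hBA hxB.1, hxB.2⟩, ?_⟩⟩
          rw [← union_sdiff_of_subset hTB, hx, union_comm, ← insert_eq]
      _ ≤ ∑ T ∈ dep3 U A, ((A \ T).image (fun x => insert x T)).card := card_biUnion_le
      _ ≤ ∑ T ∈ dep3 U A, (A.card - 3) := by
          apply sum_le_sum
          intro T hT
          have := mem_dep3.1 hT
          calc _ ≤ (A \ T).card := card_image_le
            _ = A.card - 3 := by rw [card_sdiff_of_subset this.1, this.2.1]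
      _ = _ := by rw [sum_const, smul_eq_mul]
  have hgood : (dep3 U A) ∪ ((powersetCard 4 A).filter (fun B => ¬ ∃ T ∈ dep3 U A, T ⊆ B)) ⊆
      circs U := by
    intro B hB
    rcases mem_union.1 hB with hB | hB
    · have := mem_dep3.1 hB
      exact circ3 hS this.2.1 this.2.2
    · rw [mem_filter, mem_powersetCard] at hB
      obtain ⟨⟨hBA, hBc⟩, hno⟩ := hB
      refine circ4 (dep_of_card hA hr hBA (by omega)) (fun i hi => ?_)
      by_contra hcon
      exact hno ⟨B.erase i, mem_dep3.2 ⟨(erase_subset _ _).trans hBA, by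
        rw [card_erase_of_mem hi]; omega, hcon⟩, erase_subset _ _⟩
  have hdisj : Disjoint (dep3 U A)
      ((powersetCard 4 A).filter (fun B => ¬ ∃ T ∈ dep3 U A, T ⊆ B)) := by
    rw [disjoint_left]
    intro B hB hB'
    rw [mem_filter, mem_powersetCard] at hB'
    have := (mem_dep3.1 hB).2.1
    omega
  have h1 := card_le_card hgood
  rw [card_union_of_disjoint hdisj] at h1
  have h2 := card_filter_add_card_filter_not (s := powersetCard 4 A)
    (fun B => ∃ T ∈ dep3 U A, T ⊆ B)
  rw [card_powersetCard] at h2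
  omega

/-- Seven points with only short lines span at most six of them. -/
theorem fano_bound {U : Submodule ℝ (ι → ℝ)} {A : Finset ι} (hA : ∀ z ∈ U, sp z ⊆ A)
    (hS : Sim U) (hr : A.card = 3 + Module.finrank ℝ U) (h7 : A.card = 7)
    (hshort : ∀ a ∈ A, ∀ b ∈ A, a ≠ b → (cl U {a, b}).card ≤ 3) : (dep3 U A).card ≤ 6 := by
  classical
  by_contra hcon
  push Not at hcon
  have h1 := dep3_card_le hS hshort
  rw [h7] at h1
  have h21 : Nat.choose 7 2 = 21 := rfl
  rw [h21] at h1
  have h77 : (dep3 U A).card = 7 := by omega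
  have hall : (dep3 U A).biUnion (fun T => powersetCard 2 T) = powersetCard 2 A := by
    apply eq_of_subset_of_card_le dep3_biUnion_subset
    rw [dep3_biUnion_card hS hshort, card_powersetCard, h7, h77, h21]
  have hpair : ∀ a ∈ A, ∀ b ∈ A, a ≠ b → cl U {a, b} ∈ dep3 U A := by
    intro a ha b hb hab
    have hP : ({a, b} : Finset ι) ∈ powersetCard 2 A := by
      rw [mem_powersetCard]
      refine ⟨?_, card_pair hab⟩
      intro j hj
      simp only [mem_insert, mem_singleton] at hj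
      rcases hj with rfl | rfl <;> assumption
    rw [← hall] at hP
    obtain ⟨T, hT, hPT⟩ := mem_biUnion.1 hP
    rw [mem_powersetCard] at hPT
    rw [← dep3_eq_cl hS hshort hT (hPT.1 (by simp : a ∈ ({a, b} : Finset ι)))
      (hPT.1 (by simp)) hab]
    exact hT
  -- the third point of a pair
  have hthird : ∀ a ∈ A, ∀ b ∈ A, a ≠ b → ∃ x ∈ A, x ≠ a ∧ x ≠ b ∧ ({a, b, x} : Finset ι) ∈
      dep3 U A := by
    intro a ha b hb hab
    have hT := hpair a ha b hb hab
    have h3 := (mem_dep3.1 hT).2.1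
    have hsub := subset_cl U ({a, b} : Finset ι)
    have hc : (cl U {a, b} \ {a, b}).card = 1 := by
      rw [card_sdiff_of_subset hsub, h3, card_pair hab]
    obtain ⟨x, hx⟩ := card_eq_one.1 hc
    have hx' : x ∈ cl U {a, b} \ {a, b} := by rw [hx]; exact mem_singleton_self x
    rw [mem_sdiff, mem_insert, mem_singleton, not_or] at hx'
    refine ⟨x, (mem_dep3.1 hT).1 hx'.1, hx'.2.1, hx'.2.2, ?_⟩
    have heq : ({a, b, x} : Finset ι) = cl U {a, b} := by
      rw [← union_sdiff_of_subset hsub, hx]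
      ext j
      simp only [mem_union, mem_insert, mem_singleton]
      tauto
    rw [heq]
    exact hT
  -- two lines with two common points coincide
  have huniq : ∀ T ∈ dep3 U A, ∀ T' ∈ dep3 U A, ∀ p q : ι, p ≠ q → p ∈ T → q ∈ T → p ∈ T' →
      q ∈ T' → T = T' := by
    intro T hT T' hT' p q hpq h1 h2 h3 h4
    rw [dep3_eq_cl hS hshort hT h1 h2 hpq, dep3_eq_cl hS hshort hT' h3 h4 hpq]
  -- a triangle
  obtain ⟨a, b, hab, haA, hbA⟩ : ∃ a b, a ≠ b ∧ a ∈ A ∧ b ∈ A := by
    obtain ⟨a, ha, b, hb, hab⟩ := one_lt_card.1 (by omega : 1 < A.card)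
    exact ⟨a, b, hab, ha, hb⟩
  obtain ⟨d, hdA, hda, hdb, hT1⟩ := hthird a haA b hbA hab
  obtain ⟨c, hcA, hcn⟩ := exists_mem_notMem_of_card_lt_card
    (lt_of_le_of_lt (card_le_three (a := a) (b := b) (c := d)) (by omega : 3 < A.card))
  simp only [mem_insert, mem_singleton, not_or] at hcn
  obtain ⟨hca, hcb, hcd⟩ := hcn
  obtain ⟨e, heA, heb, hec, hT2⟩ := hthird b hbA c hcA (Ne.symm hcb)
  obtain ⟨f, hfA, hfa, hfc, hT3⟩ := hthird a haA c hcA (Ne.symm hca)
  have hea : e ≠ a := by
    rintro rfl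
    have := huniq _ hT1 _ hT2 e b hab (by simp) (by simp) (by simp) (by simp)
    have h5 : c ∈ ({e, b, d} : Finset ι) := by rw [this]; simp
    simp [hca, hcb, hcd] at h5
  have hed : e ≠ d := by
    rintro rfl
    have := huniq _ hT1 _ hT2 b e (Ne.symm heb) (by simp) (by simp) (by simp) (by simp)
    have h5 : c ∈ ({a, b, e} : Finset ι) := by rw [this]; simp
    simp [hca, hcb, hcd] at h5
  have hfb : f ≠ b := by
    rintro rfl
    have := huniq _ hT1 _ hT3 a f hab (by simp) (by simp) (by simp) (by simp)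
    have h5 : c ∈ ({a, f, d} : Finset ι) := by rw [this]; simp
    simp [hca, hcb, hcd] at h5
  have hfd : f ≠ d := by
    rintro rfl
    have := huniq _ hT1 _ hT3 a f (Ne.symm hfa) (by simp) (by simp) (by simp) (by simp)
    have h5 : c ∈ ({a, b, f} : Finset ι) := by rw [this]; simp
    simp [hca, hcb, hcd] at h5
  have hfe : f ≠ e := by
    rintro rfl
    have := huniq _ hT2 _ hT3 c f (Ne.symm hec) (by simp) (by simp) (by simp) (by simp)
    have h5 : a ∈ ({b, c, f} : Finset ι) := by rw [this]; simp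
    simp [hab, Ne.symm hca, Ne.symm hfa] at h5
  have hc6 : ({a, b, c, d, e, f} : Finset ι).card = 6 := by
    rw [card_insert_of_notMem, card_insert_of_notMem, card_insert_of_notMem,
      card_insert_of_notMem, card_pair (Ne.symm hfe)]
    · simp [Ne.symm hed, Ne.symm hfd]
    · simp [hcd, Ne.symm hec, Ne.symm hfc]
    · simp [Ne.symm hcb, Ne.symm hdb, Ne.symm heb, Ne.symm hfb]
    · simp [hab, Ne.symm hca, Ne.symm hda, Ne.symm hea, Ne.symm hfa]
  obtain ⟨g, hgA, hgn⟩ := exists_mem_notMem_of_card_lt_card (by omega :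
    ({a, b, c, d, e, f} : Finset ι).card < A.card)
  have hgn' := hgn
  simp only [mem_insert, mem_singleton, not_or] at hgn
  obtain ⟨hga, hgb, hgc, hgd, hge, hgf⟩ := hgn
  have hAeq : insert g ({a, b, c, d, e, f} : Finset ι) = A := by
    apply eq_of_subset_of_card_le
    · intro j hj
      simp only [mem_insert, mem_singleton] at hj
      rcases hj with rfl | rfl | rfl | rfl | rfl | rfl | rfl <;> assumption
    · rw [card_insert_of_notMem hgn', hc6, h7]
  have hmem : ∀ x ∈ A, x = g ∨ x = a ∨ x = b ∨ x = c ∨ x = d ∨ x = e ∨ x = f := by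
    intro x hx
    rw [← hAeq] at hx
    simpa only [mem_insert, mem_singleton] using hx
  have hT4 : ({a, e, g} : Finset ι) ∈ dep3 U A := by
    obtain ⟨x, hxA, hxa, hxe, hT⟩ := hthird a haA e heA (Ne.symm hea)
    rcases hmem x hxA with rfl | rfl | rfl | rfl | rfl | rfl | rfl
    · exact hT
    · exact absurd rfl hxa
    · have := huniq _ hT _ hT2 e x (Ne.symm hxe) (by simp) (by simp) (by simp) (by simp)
      have h5 : a ∈ ({x, c, e} : Finset ι) := by rw [← this]; simp
      simp [hab, Ne.symm hca, Ne.symm hea] at h5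
    · have := huniq _ hT _ hT2 e x (Ne.symm hxe) (by simp) (by simp) (by simp) (by simp)
      have h5 : a ∈ ({b, x, e} : Finset ι) := by rw [← this]; simp
      simp [hab, Ne.symm hca, Ne.symm hea] at h5
    · have := huniq _ hT _ hT1 a x (Ne.symm hxa) (by simp) (by simp) (by simp) (by simp)
      have h5 : e ∈ ({a, b, x} : Finset ι) := by rw [← this]; simp
      simp [hea, heb, hed] at h5
    · exact absurd rfl hxe
    · have := huniq _ hT _ hT3 a x (Ne.symm hxa) (by simp) (by simp) (by simp) (by simp)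
      have h5 : e ∈ ({a, c, x} : Finset ι) := by rw [← this]; simp
      simp [hea, hec, Ne.symm hfe] at h5
  have hT5 : ({b, f, g} : Finset ι) ∈ dep3 U A := by
    obtain ⟨x, hxA, hxb, hxf, hT⟩ := hthird b hbA f hfA (Ne.symm hfb)
    rcases hmem x hxA with rfl | rfl | rfl | rfl | rfl | rfl | rfl
    · exact hT
    · have := huniq _ hT _ hT3 f x (Ne.symm hxf) (by simp) (by simp) (by simp) (by simp)
      have h5 : b ∈ ({x, c, f} : Finset ι) := by rw [← this]; simp
      simp [Ne.symm hab, Ne.symm hcb, Ne.symm hfb] at h5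
    · exact absurd rfl hxb
    · have := huniq _ hT _ hT3 f x (Ne.symm hxf) (by simp) (by simp) (by simp) (by simp)
      have h5 : b ∈ ({a, x, f} : Finset ι) := by rw [← this]; simp
      simp [Ne.symm hab, Ne.symm hcb, Ne.symm hfb] at h5
    · have := huniq _ hT _ hT1 b x (Ne.symm hxb) (by simp) (by simp) (by simp) (by simp)
      have h5 : f ∈ ({a, b, x} : Finset ι) := by rw [← this]; simp
      simp [hfa, hfb, hfd] at h5
    · have := huniq _ hT _ hT2 b x (Ne.symm hxb) (by simp) (by simp) (by simp) (by simp)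
      have h5 : f ∈ ({b, c, x} : Finset ι) := by rw [← this]; simp
      simp [hfb, hfc, hfe] at h5
    · exact absurd rfl hxf
  have hT6 : ({c, d, g} : Finset ι) ∈ dep3 U A := by
    obtain ⟨x, hxA, hxc, hxd, hT⟩ := hthird c hcA d hdA hcd
    rcases hmem x hxA with rfl | rfl | rfl | rfl | rfl | rfl | rfl
    · exact hT
    · have := huniq _ hT _ hT1 d x (Ne.symm hxd) (by simp) (by simp) (by simp) (by simp)
      have h5 : c ∈ ({x, b, d} : Finset ι) := by rw [← this]; simp
      simp [hca, hcb, hcd] at h5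
    · have := huniq _ hT _ hT1 d x (Ne.symm hxd) (by simp) (by simp) (by simp) (by simp)
      have h5 : c ∈ ({a, x, d} : Finset ι) := by rw [← this]; simp
      simp [hca, hcb, hcd] at h5
    · exact absurd rfl hxc
    · exact absurd rfl hxd
    · have := huniq _ hT _ hT2 c x (Ne.symm hxc) (by simp) (by simp) (by simp) (by simp)
      have h5 : d ∈ ({b, c, x} : Finset ι) := by rw [← this]; simp
      simp [hdb, Ne.symm hcd, Ne.symm hed] at h5
    · have := huniq _ hT _ hT3 c x (Ne.symm hxc) (by simp) (by simp) (by simp) (by simp)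
      have h5 : d ∈ ({a, c, x} : Finset ι) := by rw [← this]; simp
      simp [hda, Ne.symm hcd, Ne.symm hfd] at h5
  have hT7 : ({d, e, f} : Finset ι) ∈ dep3 U A := by
    obtain ⟨x, hxA, hxd, hxe, hT⟩ := hthird d hdA e heA (Ne.symm hed)
    rcases hmem x hxA with rfl | rfl | rfl | rfl | rfl | rfl | rfl
    · have := huniq _ hT _ hT6 d x (Ne.symm hxd) (by simp) (by simp) (by simp) (by simp)
      have h5 : e ∈ ({c, d, x} : Finset ι) := by rw [← this]; simp
      simp [hec, hed, Ne.symm hge] at h5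
    · have := huniq _ hT _ hT1 d x (Ne.symm hxd) (by simp) (by simp) (by simp) (by simp)
      have h5 : e ∈ ({x, b, d} : Finset ι) := by rw [← this]; simp
      simp [hea, heb, hed] at h5
    · have := huniq _ hT _ hT1 d x (Ne.symm hxd) (by simp) (by simp) (by simp) (by simp)
      have h5 : e ∈ ({a, x, d} : Finset ι) := by rw [← this]; simp
      simp [hea, heb, hed] at h5
    · have := huniq _ hT _ hT2 e x (Ne.symm hxe) (by simp) (by simp) (by simp) (by simp)
      have h5 : d ∈ ({b, x, e} : Finset ι) := by rw [← this]; simp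
      simp [hdb, Ne.symm hcd, Ne.symm hed] at h5
    · exact absurd rfl hxd
    · exact absurd rfl hxe
    · exact hT
  have hindabc : Ind U {a, b, c} := by
    by_contra hcon
    have hc3 : ({a, b, c} : Finset ι).card = 3 := by
      rw [card_insert_of_notMem, card_pair (Ne.symm hcb)]
      simp [hab, Ne.symm hca]
    have hT0 : ({a, b, c} : Finset ι) ∈ dep3 U A := by
      refine mem_dep3.2 ⟨?_, hc3, hcon⟩
      intro j hj
      simp only [mem_insert, mem_singleton] at hj
      rcases hj with rfl | rfl | rfl <;> assumption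
    have := huniq _ hT0 _ hT1 a b hab (by simp) (by simp) (by simp) (by simp)
    have h5 : c ∈ ({a, b, d} : Finset ι) := by rw [← this]; simp
    simp [hca, hcb, hcd] at h5
  refine no_fano hA hS hr haA hbA hcA hdA heA hfA hgA ?_ hindabc (mem_dep3.1 hT1).2.2
    (mem_dep3.1 hT2).2.2 (mem_dep3.1 hT3).2.2 (mem_dep3.1 hT4).2.2 (mem_dep3.1 hT5).2.2
    (mem_dep3.1 hT6).2.2 (mem_dep3.1 hT7).2.2
  simp only [List.nodup_cons, List.mem_cons, List.not_mem_nil, or_false, not_or,
    not_false_eq_true, List.nodup_nil, and_true]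
  exact ⟨⟨hab, Ne.symm hca, Ne.symm hda, Ne.symm hea, Ne.symm hfa, Ne.symm hga⟩,
    ⟨Ne.symm hcb, Ne.symm hdb, Ne.symm heb, Ne.symm hfb, Ne.symm hgb⟩,
    ⟨hcd, Ne.symm hec, Ne.symm hfc, Ne.symm hgc⟩, ⟨Ne.symm hed, Ne.symm hfd, Ne.symm hgd⟩,
    ⟨Ne.symm hfe, Ne.symm hge⟩, Ne.symm hgf⟩

theorem c4_eq (x : ℕ) : (24 : ℤ) * (x.choose 4 : ℤ) = x * (x - 1) * (x - 2) * (x - 3) := by
  induction x with
  | zero => simp
  | succ n ih =>
    have h3 := six_c3 n
    rw [Nat.choose_succ_succ' n 3]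
    push_cast
    linarith

theorem arith_long {m t : ℕ} (hm : 4 ≤ m) (ht : 1 ≤ t) :
    ((m + t - 1).choose 3 : ℤ) - (m + t - 4) ≤ (m.choose 3 : ℤ) +
      (1 + ((m - 1).choose 2 : ℤ)) * (t.choose 2 : ℤ) + (t.choose 3 : ℤ) := by
  have e1 := six_c3 m
  have e2 := two_c2 t
  have e3 := six_c3 t
  have e4 := two_c2_pred (k := m) (by omega)
  have hc3 := six_c3 (m + t - 1)
  have hcast : ((m + t - 1 : ℕ) : ℤ) = m + t - 1 := by omega
  rw [hcast] at hc3
  have hprod : (4 : ℤ) * ((1 + ((m - 1).choose 2 : ℤ)) * (t.choose 2 : ℤ)) =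
      (2 + (m - 1) * (m - 2)) * (t * (t - 1)) := by
    rw [← e4, ← e2]; ring
  have hpoly : (0 : ℤ) ≤ (m - 2) * ((m - 1) * ((t - 1) * (t - 2)) - 2 * (t * (t - 1)) + 4) +
      4 * (t - 2) := by
    obtain ⟨m', hm''⟩ : ∃ m' : ℕ, m = m' + 4 := ⟨m - 4, by omega⟩
    obtain ⟨t', ht''⟩ : ∃ t' : ℕ, t = t' + 1 := ⟨t - 1, by omega⟩
    subst hm'' ht''
    push_cast
    have hexp : ((m' : ℤ) + 4 - 2) * ((m' + 4 - 1) * ((t' + 1 - 1) * (t' + 1 - 2)) -
        2 * ((t' + 1) * (t' + 1 - 1)) + 4) + 4 * (t' + 1 - 2) =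
        2 * ((t' - 1) * (t' - 2)) + m' * (3 * t' * t' - 7 * t' + 4) +
          m' * (m' * (t' * (t' - 1))) := by ring
    rw [hexp]
    have ha : (0 : ℤ) ≤ (t' - 1) * (t' - 2) := by
      have := consec_nonneg ((t' : ℤ) - 2)
      nlinarith
    have hb : (0 : ℤ) ≤ 3 * t' * t' - 7 * t' + 4 := by
      rcases Nat.lt_or_ge t' 2 with h | h
      · interval_cases t' <;> norm_num
      · have h' : (2 : ℤ) ≤ t' := by exact_mod_cast h
        nlinarith
    have hc : (0 : ℤ) ≤ (t' : ℤ) * (t' - 1) := by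
      have := consec_nonneg ((t' : ℤ) - 1)
      nlinarith
    have hm0 : (0 : ℤ) ≤ m' := by positivity
    have h1 := mul_nonneg hm0 hb
    have h2 := mul_nonneg hm0 (mul_nonneg hm0 hc)
    linarith
  linarith

theorem arith_short {n τ c : ℕ} (hn : 8 ≤ n)
    (h1 : (τ : ℤ) + (n.choose 4 : ℤ) ≤ c + τ * (n - 3)) (h2 : (3 : ℤ) * τ ≤ (n.choose 2 : ℤ)) :
    ((n - 1).choose 3 : ℤ) - (n - 4) ≤ c := by
  have e2 := two_c2 n
  have e4 := c4_eq n
  have hc3 := six_c3 (n - 1)
  have hcast : ((n - 1 : ℕ) : ℤ) = n - 1 := by omega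
  rw [hcast] at hc3
  obtain ⟨s, hs⟩ : ∃ s : ℕ, n = s + 8 := ⟨n - 8, by omega⟩
  have hs' : (n : ℤ) = s + 8 := by exact_mod_cast hs
  rw [hs'] at h1 e2 e4 hc3 ⊢
  have hs0 : (0 : ℤ) ≤ s := by positivity
  have hτ2 : (6 : ℤ) * (τ * (s + 4)) ≤ ((s + 8) * (s + 7)) * (s + 4) := by
    have h3 : (6 : ℤ) * τ ≤ (s + 8) * (s + 7) := by linarith
    have := mul_le_mul_of_nonneg_right h3 (by linarith : (0 : ℤ) ≤ s + 4)
    linarith
  have hp2 : (0 : ℤ) ≤ s * s := mul_nonneg hs0 hs0
  have hp3 : (0 : ℤ) ≤ s * s * s := mul_nonneg hp2 hs0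
  have hp4 : (0 : ℤ) ≤ s * s * s * s := mul_nonneg hp3 hs0
  have h24 : (24 : ℤ) * (((n - 1).choose 3 : ℤ) - (s + 8 - 4)) ≤ 24 * c := by
    nlinarith
  linarith

/-- The planar bound. -/
theorem planar_bound {U : Submodule ℝ (ι → ℝ)} {A : Finset ι} (hA : ∀ z ∈ U, sp z ⊆ A)
    (hS : Sim U) (hr : A.card = 3 + Module.finrank ℝ U) (hn : 7 ≤ A.card) :
    Fz 3 A.card ≤ ((circs U).card : ℤ) := by
  classical
  have hF : Fz 3 A.card = ((A.card - 1).choose 3 : ℤ) - (A.card - 4) := by
    have h1 : (3 : ℕ) = 2 * 1 + 1 := rfl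
    rw [h1, Fz_odd, gq_eq]
    have h2 : (A.card - 1) / 1 = A.card - 1 := Nat.div_one _
    have h3 : (A.card - 1) % 1 = 0 := Nat.mod_one _
    have h4 : (A.card - 1 + 1 - 1) / 1 = A.card - 1 := by rw [Nat.div_one]; omega
    rw [h2, h3, h4]
    have h5 : (dl (A.card - 1) : ℤ) = A.card - 4 := by
      unfold dl
      rw [if_neg (by omega)]
      omega
    rw [h5]
    push_cast
    ring
  rw [hF]
  by_cases hlong : ∃ a ∈ A, ∃ b ∈ A, a ≠ b ∧ 4 ≤ (cl U {a, b}).card
  · obtain ⟨a, ha, b, hb, hab, hm⟩ := hlong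
    have hL := isLine_cl hA hS ha hb hab
    have h1 := planar_long hA hS hr hL hm
    have hcards := card_sdiff_add_card_eq_card hL.sub
    have ht1 : 1 ≤ (A \ cl U {a, b}).card := by
      by_contra h0
      have h2 : (A \ cl U {a, b}).card = 0 := by omega
      rw [card_eq_zero, sdiff_eq_empty_iff_subset] at h2
      have h4 : on U (cl U {a, b}) = U :=
        le_antisymm on_le (fun z hz => mem_on.2 ⟨hz, (hA z hz).trans h2⟩)
      have h5 := hL.rank
      rw [h4] at h5
      have h7 := card_le_card h2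
      omega
    have h3 := arith_long hm ht1
    have hn' : A.card = (cl U {a, b}).card + (A \ cl U {a, b}).card := by omega
    have h1' : ((cl U {a, b}).card.choose 3 : ℤ) + (1 + (((cl U {a, b}).card - 1).choose 2 : ℤ)) *
        ((A \ cl U {a, b}).card.choose 2 : ℤ) + ((A \ cl U {a, b}).card.choose 3 : ℤ) ≤
        (circs U).card := by exact_mod_cast h1
    rw [hn']
    push_cast
    linarith
  · push Not at hlong
    have hshort : ∀ a ∈ A, ∀ b ∈ A, a ≠ b → (cl U {a, b}).card ≤ 3 := by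
      intro a ha b hb hab
      have := hlong a ha b hb hab
      omega
    have h1 := planar_short_count hA hS hr
    have h2 := dep3_card_le hS hshort
    have h1' : ((dep3 U A).card : ℤ) + (A.card.choose 4 : ℤ) ≤
        (circs U).card + (dep3 U A).card * (A.card - 3) := by
      have : ((A.card - 3 : ℕ) : ℤ) = A.card - 3 := by omega
      rw [← this]
      exact_mod_cast h1
    have h2' : (3 : ℤ) * (dep3 U A).card ≤ (A.card.choose 2 : ℤ) := by exact_mod_cast h2
    rcases Nat.eq_or_lt_of_le hn with h7 | h8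
    · have h6 := fano_bound hA hS hr h7.symm hshort
      rw [← h7] at h1 ⊢
      have h35 : Nat.choose 7 4 = 35 := by rfl
      have h20 : Nat.choose (7 - 1) 3 = 20 := by rfl
      rw [h35] at h1
      rw [h20]
      push_cast
      omega
    · exact arith_short h8 h1' h2'

end Pool.Agent.Helper141C
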