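import Mathlib
import Pool.Agent.Helper141_circuits.Planar3
import Pool.Agent.Helper141_circuits.CrossBound

set_option autoImplicit false
set_option linter.unusedSectionVars false

/-!
The lower bound: a simple real configuration of rank `r` with `n` elements has at least `Fz r n`
circuits.
-/

namespace Pool.Agent.Helper141C

open Finset

variable {ι : Type*} [Fintype ι] [DecidableEq ι]

theorem gq_double (q : ℕ) : gq q (2 * q) = 0 := by
  rcases Nat.eq_zero_or_pos q with h | h
  · subst h; rfl
  · unfold gq
    rw [Nat.mul_div_cancel _ h, Nat.mul_mod_left]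
    simp [Nat.choose]

theorem Fz_self_le (n : ℕ) : Fz n n ≤ 0 := by
  rcases Nat.even_or_odd' n with ⟨q, h | h⟩
  · subst h
    rw [Fz_even, gq_double]
    simp
  · subst h
    rw [Fz_odd, Nat.add_sub_cancel, gq_double]
    have : (0 : ℤ) ≤ (dl ((2 * q + q - 1) / q) : ℤ) := by positivity
    push_cast
    linarith

theorem ind_of_card_le_two {U : Submodule ℝ (ι → ℝ)} (hS : Sim U) {B : Finset ι}
    (hB : B.card ≤ 2) : Ind U B := by
  intro z hz hzs
  by_contra hz0
  have := hS z hz hz0
  have := card_le_card hzs
  omega

theorem rank_pos {U : Submodule ℝ (ι → ℝ)} (hS : Sim U) {F : Finset ι} (hF : F.Nonempty) :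
    Module.finrank ℝ (on U F) + 1 ≤ F.card ∧
      (2 ≤ F.card → Module.finrank ℝ (on U F) + 2 ≤ F.card) := by
  constructor
  · obtain ⟨i, hi⟩ := hF
    have h1 := finrank_on_le_add U (singleton_subset_iff.2 hi)
    have hbot : on U {i} = ⊥ := on_eq_bot (ind_of_card_le_two hS (by simp))
    rw [hbot, finrank_bot, card_sdiff_of_subset (singleton_subset_iff.2 hi),
      card_singleton] at h1
    have : 0 < F.card := card_pos.2 ⟨i, hi⟩
    omega
  · intro h2
    obtain ⟨P, hPF, hP⟩ := exists_subset_card_eq h2
    have h1 := finrank_on_le_add U hPF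
    have hbot : on U P = ⊥ := on_eq_bot (ind_of_card_le_two hS (by omega))
    rw [hbot, finrank_bot, card_sdiff_of_subset hPF, hP] at h1
    omega

theorem flat_singleton {U : Submodule ℝ (ι → ℝ)} (hS : Sim U) (e : ι) : Flat U {e} := by
  intro z hz hc
  have h1 : (sp z).card ≤ (sp z \ {e}).card + ({e} : Finset ι).card := by
    calc (sp z).card ≤ (sp z \ {e} ∪ {e}).card := card_le_card (by
          intro i hi
          by_cases h : i ∈ ({e} : Finset ι)
          · exact mem_union_right _ h
          · exact mem_union_left _ (mem_sdiff.2 ⟨hi, h⟩))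
      _ ≤ _ := card_union_le _ _
  rw [card_singleton] at h1
  by_cases hz0 : z = 0
  · subst hz0
    have : sp (0 : ι → ℝ) = ∅ := sp_eq_empty.2 rfl
    rw [this] at hc
    simp at hc
  · have := hS z hz hz0
    omega

/-- Crossing circuits of a point are the circuits through it. -/
theorem insert_mem_circs {U : Submodule ℝ (ι → ℝ)} (hS : Sim U) {e : ι} {D : Finset ι}
    (hD : IsX U {e} D) : insert e D ∈ circs U ∧ e ∉ D := by
  have heD : e ∉ D := fun h => hD.1.disj h (mem_singleton_self e)
  have key : ∀ y ∈ U, y ≠ 0 → sp y ⊆ insert e D → sp y = insert e D := by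
    intro y hy hy0 hys
    have h1 : sp y \ {e} ⊆ D := by
      intro i hi
      rw [mem_sdiff, mem_singleton] at hi
      rcases mem_insert.1 (hys hi.1) with h | h
      · exact absurd h hi.2
      · exact h
    have h2 : (sp y \ {e}).Nonempty := by
      rw [nonempty_iff_ne_empty, Ne, sdiff_eq_empty_iff_subset]
      intro h
      have := card_le_card h
      rw [card_singleton] at this
      have := hS y hy hy0
      omega
    have h3 := hD.1.2.2 y hy h2 h1
    have h4 : e ∈ sp y := by
      by_contra he
      apply hy0
      apply hD.2 y hy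
      rw [← h3]
      intro i hi
      rw [mem_sdiff, mem_singleton]
      exact ⟨hi, fun h => he (h ▸ hi)⟩
    apply subset_antisymm hys
    apply insert_subset h4
    rw [← h3]
    exact sdiff_subset
  refine ⟨?_, heD⟩
  rw [mem_circs]
  obtain ⟨z, hz, hzs⟩ := hD.1.2.1
  have hz0 : z ≠ 0 := by
    rintro rfl
    have : sp (0 : ι → ℝ) = ∅ := sp_eq_empty.2 rfl
    rw [this, empty_sdiff] at hzs
    exact hD.1.1.ne_empty hzs.symm
  refine ⟨⟨z, hz, hz0, key z hz hz0 ?_⟩, key⟩
  intro i hi
  by_cases hie : i = e
  · rw [hie]; exact mem_insert_self e D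
  · refine mem_insert_of_mem ?_
    rw [← hzs, mem_sdiff, mem_singleton]
    exact ⟨hi, hie⟩

theorem lower_bound : ∀ (n : ℕ) (A : Finset ι) (U : Submodule ℝ (ι → ℝ)), A.card = n →
    (∀ z ∈ U, sp z ⊆ A) → Sim U → ∀ r : ℕ, n = r + Module.finrank ℝ U →
    Fz r n ≤ ((circs U).card : ℤ) := by
  classical
  intro n
  induction n using Nat.strong_induction_on with
  | _ n ih =>
    intro A U hn hA hS r hr
    by_cases h0 : Module.finrank ℝ U = 0
    · have : n = r := by omega
      rw [this]
      exact (Fz_self_le r).trans (Int.natCast_nonneg _)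
    have hne : U ≠ ⊥ := by
      rintro rfl
      exact h0 (finrank_bot ℝ _)
    obtain ⟨z₀, hz₀, hz₀0⟩ := Submodule.exists_mem_ne_zero_of_ne_bot hne
    have hn3 : 3 ≤ n := by
      rw [← hn]
      exact (hS z₀ hz₀ hz₀0).trans (card_le_card (hA z₀ hz₀))
    have hAne : A.Nonempty := card_pos.1 (by omega)
    have hr2 : 2 ≤ r := by
      have := (rank_pos hS hAne).2 (by omega)
      rw [on_eq_self hA] at this
      omega
    by_cases hC : ∀ F ⊆ A, F.Nonempty → F ≠ A → ∃ D, IsX U F D
    · by_cases hplanar : r = 3 ∧ 7 ≤ n
      · obtain ⟨rfl, h7⟩ := hplanar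
        have := planar_bound hA hS (by omega) (by omega)
        rw [hn] at this
        exact this
      · obtain ⟨e, he⟩ := hAne
        have hAe : (A \ {e}).card = n - 1 := by
          rw [card_sdiff_of_subset (singleton_subset_iff.2 he), card_singleton, hn]
        have hone : on U {e} = ⊥ := on_eq_bot (ind_of_card_le_two hS (by simp))
        have hnee : ({e} : Finset ι) ≠ A := by
          intro h
          rw [← h, card_singleton] at hn
          omega
        have hcb := cross_bound hA hS hC (A \ {e}).card {e} (singleton_subset_iff.2 he)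
          (singleton_nonempty e) (flat_singleton hS e) rfl (r - 1) (by
            rw [hone, finrank_bot, hAe]; omega)
        rw [hAe] at hcb
        obtain ⟨D, hD⟩ := hC {e} (singleton_subset_iff.2 he) (singleton_nonempty e) hnee
        have hcirc := insert_mem_circs hS hD
        rw [mem_circs] at hcirc
        obtain ⟨⟨⟨z, hz, -, hzs⟩, -⟩, -⟩ := hcirc
        have hze : z e ≠ 0 := by rw [← mem_sp, hzs]; exact mem_insert_self e D
        have hfr := finrank_on_insert (U := U) (Y := A.erase e) (notMem_erase e A) hz
          (by rw [insert_erase he]; exact hA z hz) hze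
        rw [insert_erase he, on_eq_self hA] at hfr
        have hIH := ih (n - 1) (by omega) (A.erase e) (on U (A.erase e))
          (by rw [card_erase_of_mem he, hn]) (fun z hz => (mem_on.1 hz).2) (hS.on _) r (by omega)
        have hstep := Fz_step (r := r) (n := n) (X := (crossing U {e}).card) hr2 (by omega)
          (fun h3 => by
            by_contra hcon
            exact hplanar ⟨h3, by omega⟩) hcb
        have hunion : circs (on U (A.erase e)) ∪ (crossing U {e}).image (fun D => insert e D) ⊆
            circs U := by
          intro C hC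
          rcases mem_union.1 hC with h | h
          · exact circs_on_subset U _ h
          · obtain ⟨D, hD, rfl⟩ := mem_image.1 h
            exact (insert_mem_circs hS (mem_crossing.1 hD)).1
        have hdisj : Disjoint (circs (on U (A.erase e)))
            ((crossing U {e}).image (fun D => insert e D)) := by
          rw [disjoint_left]
          intro C hC hC'
          obtain ⟨D, hD, rfl⟩ := mem_image.1 hC'
          exact notMem_erase e A ((circs_on_ground hC).1 (mem_insert_self e D))
        have hinj : Set.InjOn (fun D : Finset ι => insert e D) (crossing U {e} : Finset _) := by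
          intro D hD D' hD' heq
          have h1 := (insert_mem_circs hS (mem_crossing.1 hD)).2
          have h2 := (insert_mem_circs hS (mem_crossing.1 hD')).2
          have h3 : (insert e D).erase e = (insert e D').erase e := by
            simp only at heq
            rw [heq]
          rwa [erase_insert h1, erase_insert h2] at h3
        have hcard := card_le_card hunion
        rw [card_union_of_disjoint hdisj, card_image_of_injOn hinj] at hcard
        have hcard' : ((circs (on U (A.erase e))).card : ℤ) + (crossing U {e}).card ≤
            (circs U).card := by exact_mod_cast hcard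
        linarith
    · push Not at hC
      obtain ⟨F, hFA, hFne, hFA', hno⟩ := hC
      set G := A \ F with hG
      have hGA : G ⊆ A := sdiff_subset
      have hGne : G.Nonempty := by
        rw [nonempty_iff_ne_empty, Ne, hG, sdiff_eq_empty_iff_subset]
        intro h
        exact hFA' (subset_antisymm hFA h)
      have hcards : G.card + F.card = n := by
        rw [← hn]; exact card_sdiff_add_card_eq_card hFA
      have hsup : U ≤ on U F ⊔ on U G := by
        intro z hz
        obtain ⟨a, ha, haF, haz⟩ := sep_of_no_cross hno _ z hz rfl
        rw [Submodule.mem_sup]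
        refine ⟨a, mem_on.2 ⟨ha, haF⟩, z - a, mem_on.2 ⟨U.sub_mem hz ha, ?_⟩, by simp⟩
        rw [sp_subset_iff]
        intro i hi
        rw [Pi.sub_apply]
        by_cases hiF : i ∈ F
        · rw [haz i hiF, sub_self]
        · have hiA : i ∉ A := fun h => hi (mem_sdiff.2 ⟨h, hiF⟩)
          rw [sp_subset_iff.1 (hA z hz) i hiA, sp_subset_iff.1 haF i hiF, sub_self]
      have hfr : Module.finrank ℝ U ≤ Module.finrank ℝ (on U F) + Module.finrank ℝ (on U G) :=
        (Submodule.finrank_mono hsup).trans (Submodule.finrank_add_le_finrank_add_finrank _ _)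
      have hF1 := rank_pos hS hFne
      have hG1 := rank_pos hS hGne
      have hFc : 0 < F.card := card_pos.2 hFne
      have hGc : 0 < G.card := card_pos.2 hGne
      obtain ⟨r₁, hr₁⟩ : ∃ r₁, F.card = r₁ + Module.finrank ℝ (on U F) :=
        ⟨F.card - Module.finrank ℝ (on U F), by omega⟩
      obtain ⟨r₂, hr₂⟩ : ∃ r₂, G.card = r₂ + Module.finrank ℝ (on U G) :=
        ⟨G.card - Module.finrank ℝ (on U G), by omega⟩
      have hIH1 := ih F.card (by omega) F (on U F) rfl (fun z hz => (mem_on.1 hz).2) (hS.on _)
        r₁ hr₁
      have hIH2 := ih G.card (by omega) G (on U G) rfl (fun z hz => (mem_on.1 hz).2) (hS.on _)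
        r₂ hr₂
      have hadd := Fz_add (r₁ := r₁) (r₂ := r₂) (n₁ := F.card) (n₂ := G.card) (by omega)
        (by omega) (by omega) (by omega)
        (fun h => by by_contra h'; have := hF1.2 (by omega); omega)
        (fun h => by by_contra h'; have := hG1.2 (by omega); omega)
      have hmono := Fz_rank_le (r := r₁ + r₂) (r' := r) (n := n) (by omega) (by omega) (by omega)
      have hunion : circs (on U F) ∪ circs (on U G) ⊆ circs U :=
        union_subset (circs_on_subset U F) (circs_on_subset U G)
      have hdisj : Disjoint (circs (on U F)) (circs (on U G)) := by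
        rw [disjoint_left]
        intro C hC hC'
        obtain ⟨h1, i, hi⟩ := circs_on_ground hC
        exact (mem_sdiff.1 ((circs_on_ground hC').1 hi)).2 (h1 hi)
      have hcard := card_le_card hunion
      rw [card_union_of_disjoint hdisj] at hcard
      have hcard' : ((circs (on U F)).card : ℤ) + (circs (on U G)).card ≤
          (circs U).card := by exact_mod_cast hcard
      have hnn : n = F.card + G.card := by omega
      rw [← hnn] at hadd
      linarith

end Pool.Agent.Helper141C
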