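import Mathlib
import Pool.Agent.Helper141_circuits.Core

set_option autoImplicit false
set_option linter.unusedSectionVars false

/-!
Primitive Radon partitions of a point set correspond to the circuits of its affine dependences.
-/

namespace Pool.Agent.Helper141C

open Finset

section defs

variable {E : Type*} [AddCommGroup E] [Module ℝ E]

/-- The unordered pair `p = {A, B}` is a Radon partition in `S`: `A` and `B` are disjoint subsets of
`S` whose convex hulls meet. -/
def IsRadonIn (S : Finset E) (p : Sym2 (Finset E)) : Prop :=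
  ∃ A B : Finset E, p = s(A, B) ∧ Disjoint A B ∧ A ⊆ S ∧ B ⊆ S ∧
    (convexHull ℝ (A : Set E) ∩ convexHull ℝ (B : Set E)).Nonempty

/-- The unordered pair `p = {A, B}` extends `q = {A', B'}`: for a suitable labelling `A'` is
contained in `A` and `B'` in `B`. -/
def Extends (p q : Sym2 (Finset E)) : Prop :=
  ∃ A B A' B' : Finset E, p = s(A, B) ∧ q = s(A', B') ∧ A' ⊆ A ∧ B' ⊆ B

/-- A Radon partition in `S` is primitive if it extends no Radon partition in `S` but itself. -/
def IsPrimitive (S : Finset E) (p : Sym2 (Finset E)) : Prop :=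
  IsRadonIn S p ∧ ∀ q, IsRadonIn S q → Extends p q → q = p

/-- The number of primitive Radon partitions in `S`. -/
noncomputable def numPrimitive (S : Finset E) : ℕ := {p | IsPrimitive S p}.ncard

end defs

variable {ι : Type*} [Fintype ι] [DecidableEq ι] {E : Type*} [AddCommGroup E] [Module ℝ E]

/-- The affine dependences of a family of points. -/
def adep (f : ι → E) : Submodule ℝ (ι → ℝ) where
  carrier := {z | ∑ i, z i = 0 ∧ ∑ i, z i • f i = 0}
  add_mem' := by
    rintro a b ⟨h1, h2⟩ ⟨h3, h4⟩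
    constructor
    · simp only [Pi.add_apply, sum_add_distrib, h1, h3, add_zero]
    · simp only [Pi.add_apply, add_smul, sum_add_distrib, h2, h4, add_zero]
  zero_mem' := by simp
  smul_mem' := by
    rintro c a ⟨h1, h2⟩
    constructor
    · simp only [Pi.smul_apply, smul_eq_mul, ← mul_sum, h1, mul_zero]
    · simp only [Pi.smul_apply, smul_eq_mul, mul_smul, ← smul_sum, h2, smul_zero]

theorem mem_adep {f : ι → E} {z : ι → ℝ} :
    z ∈ adep f ↔ ∑ i, z i = 0 ∧ ∑ i, z i • f i = 0 := Iff.rfl

/-- The positive part of the support. -/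
noncomputable def pos (z : ι → ℝ) : Finset ι := by
  classical exact univ.filter (fun i => 0 < z i)

/-- The negative part of the support. -/
noncomputable def neg (z : ι → ℝ) : Finset ι := by
  classical exact univ.filter (fun i => z i < 0)

theorem mem_pos {z : ι → ℝ} {i : ι} : i ∈ pos z ↔ 0 < z i := by simp [pos]

theorem mem_neg {z : ι → ℝ} {i : ι} : i ∈ neg z ↔ z i < 0 := by simp [neg]

theorem mem_sp_iff {z : ι → ℝ} {i : ι} : i ∈ sp z ↔ i ∈ pos z ∨ i ∈ neg z := by
  rw [mem_sp, mem_pos, mem_neg]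
  constructor
  · intro h
    rcases lt_or_gt_of_ne h with h | h
    · exact Or.inr h
    · exact Or.inl h
  · rintro (h | h)
    · exact h.ne'
    · exact h.ne

theorem disjoint_pos_neg (z : ι → ℝ) : Disjoint (pos z) (neg z) := by
  rw [disjoint_left]
  intro i h1 h2
  rw [mem_pos] at h1
  rw [mem_neg] at h2
  linarith

/-- Splitting a sum into the positive and the negative part of the support. -/
theorem sum_split {M : Type*} [AddCommGroup M] (z : ι → ℝ) (g : ι → M)
    (hg : ∀ i, z i = 0 → g i = 0) : ∑ i, g i = ∑ i ∈ pos z, g i + ∑ i ∈ neg z, g i := by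
  rw [← sum_union (disjoint_pos_neg z)]
  symm
  apply sum_subset (subset_univ _)
  intro i _ hi
  apply hg
  rw [mem_union] at hi
  by_contra hne
  exact hi (mem_sp_iff.1 (mem_sp.2 hne))

/-- A nonzero affine dependence gives a Radon partition. -/
theorem hull_meet {f : ι ↪ E} {z : ι → ℝ} (hz : z ∈ adep (f : ι → E)) (hz0 : z ≠ 0) :
    (convexHull ℝ (((pos z).map f : Finset E) : Set E) ∩
      convexHull ℝ (((neg z).map f : Finset E) : Set E)).Nonempty := by
  obtain ⟨h1, h2⟩ := mem_adep.1 hz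
  have h3 := sum_split z z (fun i h => h)
  rw [h1] at h3
  have h4 := sum_split z (fun i => z i • f i) (fun i h => by simp [h])
  rw [h2] at h4
  have ht : 0 < ∑ i ∈ pos z, z i := by
    have hnn : 0 ≤ ∑ i ∈ pos z, z i := sum_nonneg (fun i hi => (mem_pos.1 hi).le)
    rcases hnn.lt_or_eq with h | h
    · exact h
    · exfalso
      have h5 : ∀ i ∈ pos z, z i = 0 :=
        (sum_eq_zero_iff_of_nonneg (fun i hi => (mem_pos.1 hi).le)).1 h.symm
      have h6 : ∑ i ∈ neg z, z i = 0 := by linarith
      have h7 : ∀ i ∈ neg z, z i = 0 := by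
        have := (sum_eq_zero_iff_of_nonpos (fun i hi => (mem_neg.1 hi).le)).1 h6
        exact this
      obtain ⟨i, hi⟩ := sp_nonempty.2 hz0
      rcases mem_sp_iff.1 hi with h8 | h8
      · exact (mem_pos.1 h8).ne' (h5 i h8)
      · exact (mem_neg.1 h8).ne (h7 i h8)
  set t := ∑ i ∈ pos z, z i with htdef
  refine ⟨∑ i ∈ pos z, (z i / t) • f i, ?_, ?_⟩
  · refine (convex_convexHull ℝ _).sum_mem (fun i hi => ?_) ?_ (fun i hi => ?_)
    · exact div_nonneg (mem_pos.1 hi).le ht.le
    · rw [← sum_div, ← htdef, div_self ht.ne']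
    · apply subset_convexHull
      rw [mem_coe, mem_map]
      exact ⟨i, hi, rfl⟩
  · have heq : ∑ i ∈ pos z, (z i / t) • f i = ∑ i ∈ neg z, (-z i / t) • f i := by
      have e1 : ∑ i ∈ pos z, (z i / t) • f i = t⁻¹ • ∑ i ∈ pos z, z i • f i := by
        rw [smul_sum]
        exact sum_congr rfl (fun i _ => by rw [smul_smul]; congr 1; field_simp)
      have e2 : ∑ i ∈ neg z, (-z i / t) • f i = t⁻¹ • (-∑ i ∈ neg z, z i • f i) := by
        rw [← sum_neg_distrib, smul_sum]
        exact sum_congr rfl (fun i _ => by rw [← neg_smul, smul_smul]; congr 1; field_simp)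
      rw [e1, e2]
      congr 1
      exact eq_neg_of_add_eq_zero_left h4.symm
    rw [heq]
    refine (convex_convexHull ℝ _).sum_mem (fun i hi => ?_) ?_ (fun i hi => ?_)
    · exact div_nonneg (by have := mem_neg.1 hi; linarith) ht.le
    · rw [← sum_div, sum_neg_distrib]
      have : -∑ i ∈ neg z, z i = t := by linarith
      rw [this, div_self ht.ne']
    · apply subset_convexHull
      rw [mem_coe, mem_map]
      exact ⟨i, hi, rfl⟩

/-- Meeting hulls give a nonzero affine dependence. -/
theorem exists_dep {f : ι ↪ E} {A B : Finset ι} (hd : Disjoint A B)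
    (h : (convexHull ℝ ((A.map f : Finset E) : Set E) ∩
      convexHull ℝ ((B.map f : Finset E) : Set E)).Nonempty) :
    ∃ z ∈ adep (f : ι → E), z ≠ 0 ∧ pos z ⊆ A ∧ neg z ⊆ B := by
  classical
  obtain ⟨p, hpA, hpB⟩ := h
  rw [Finset.mem_convexHull'] at hpA hpB
  obtain ⟨w, hw0, hw1, hwp⟩ := hpA
  obtain ⟨v, hv0, hv1, hvp⟩ := hpB
  rw [sum_map] at hw1 hwp hv1 hvp
  have hsum1 : ∑ i, (if i ∈ A then w (f i) else 0) = 1 := by
    rw [← hw1, ← sum_filter]
    congr 1
    ext i; simp
  have hsum2 : ∑ i, (if i ∈ B then v (f i) else 0) = 1 := by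
    rw [← hv1, ← sum_filter]
    congr 1
    ext i; simp
  have hsum3 : ∑ i, (if i ∈ A then w (f i) else 0) • f i = p := by
    rw [← hwp, ← sum_filter_add_sum_filter_not univ (fun i => i ∈ A)]
    have : ∑ i ∈ univ.filter (fun i => i ∉ A), (if i ∈ A then w (f i) else 0) • f i = 0 := by
      apply sum_eq_zero
      intro i hi
      rw [if_neg (mem_filter.1 hi).2, zero_smul]
    rw [this, add_zero]
    have hfil : univ.filter (fun i => i ∈ A) = A := by ext i; simp
    rw [hfil]
    exact sum_congr rfl (fun i hi => by rw [if_pos hi])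
  have hsum4 : ∑ i, (if i ∈ B then v (f i) else 0) • f i = p := by
    rw [← hvp, ← sum_filter_add_sum_filter_not univ (fun i => i ∈ B)]
    have : ∑ i ∈ univ.filter (fun i => i ∉ B), (if i ∈ B then v (f i) else 0) • f i = 0 := by
      apply sum_eq_zero
      intro i hi
      rw [if_neg (mem_filter.1 hi).2, zero_smul]
    rw [this, add_zero]
    have hfil : univ.filter (fun i => i ∈ B) = B := by ext i; simp
    rw [hfil]
    exact sum_congr rfl (fun i hi => by rw [if_pos hi])
  refine ⟨fun i => (if i ∈ A then w (f i) else 0) - (if i ∈ B then v (f i) else 0), ?_, ?_, ?_,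
    ?_⟩
  · rw [mem_adep]
    constructor
    · rw [sum_sub_distrib, hsum1, hsum2, sub_self]
    · simp only [sub_smul]
      rw [sum_sub_distrib, hsum3, hsum4, sub_self]
  · intro h0
    have hex : ∃ i ∈ A, w (f i) ≠ 0 := by
      by_contra hcon
      push Not at hcon
      rw [sum_eq_zero hcon] at hw1
      exact zero_ne_one hw1
    obtain ⟨i, hi, hwi⟩ := hex
    have := congrFun h0 i
    simp only [Pi.zero_apply] at this
    rw [if_pos hi, if_neg (disjoint_left.1 hd hi), sub_zero] at this
    exact hwi this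
  · intro i hi
    rw [mem_pos] at hi
    by_contra hA
    rw [if_neg hA] at hi
    split_ifs at hi with hB
    · have := hv0 (f i) (mem_map.2 ⟨i, hB, rfl⟩)
      linarith
    · linarith
  · intro i hi
    rw [mem_neg] at hi
    by_contra hB
    rw [if_neg hB] at hi
    split_ifs at hi with hA
    · have := hw0 (f i) (mem_map.2 ⟨i, hA, rfl⟩)
      linarith
    · linarith

/-- Conformal reduction. -/
theorem exists_conformal {U : Submodule ℝ (ι → ℝ)} {z y : ι → ℝ} (hz : z ∈ U) (hy : y ∈ U)
    (hy0 : y ≠ 0) (hyz : sp y ⊆ sp z) (hne : sp y ≠ sp z) :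
    ∃ w ∈ U, w ≠ 0 ∧ pos w ⊆ pos z ∧ neg w ⊆ neg z ∧ sp w ≠ sp z := by
  obtain ⟨i, hi, hmin⟩ := exists_min_image (sp y) (fun i => |z i / y i|) (sp_nonempty.2 hy0)
  have hyi := mem_sp.1 hi
  have hw : ∀ j, (z - (z i / y i) • y) j = z j - z i / y i * y j := fun j => rfl
  have hbound : ∀ j ∈ sp y, |z i / y i * y j| ≤ |z j| := by
    intro j hj
    have hyj := mem_sp.1 hj
    have h1 := hmin j hj
    rw [abs_mul]
    calc |z i / y i| * |y j| ≤ |z j / y j| * |y j| := mul_le_mul_of_nonneg_right h1 (abs_nonneg _)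
      _ = |z j| := by rw [abs_div]; field_simp
  have hoff : ∀ j, j ∉ sp y → (z - (z i / y i) • y) j = z j := by
    intro j hj
    rw [hw, notMem_sp.1 hj, mul_zero, sub_zero]
  have hwi : (z - (z i / y i) • y) i = 0 := by
    rw [hw]; field_simp; ring
  refine ⟨z - (z i / y i) • y, U.sub_mem hz (U.smul_mem _ hy), ?_, ?_, ?_, ?_⟩
  · intro h0
    have hex : ∃ j ∈ sp z, j ∉ sp y := by
      by_contra hcon
      push Not at hcon
      exact hne (subset_antisymm hyz hcon)
    obtain ⟨j, hj, hjy⟩ := hex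
    have := congrFun h0 j
    rw [hoff j hjy] at this
    exact mem_sp.1 hj this
  · intro j hj
    rw [mem_pos] at hj ⊢
    by_cases hjy : j ∈ sp y
    · have h1 := hbound j hjy
      rw [hw] at hj
      by_contra hcon
      push Not at hcon
      rw [abs_of_nonpos hcon] at h1
      have := neg_abs_le (z i / y i * y j)
      linarith
    · rwa [hoff j hjy] at hj
  · intro j hj
    rw [mem_neg] at hj ⊢
    by_cases hjy : j ∈ sp y
    · have h1 := hbound j hjy
      rw [hw] at hj
      by_contra hcon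
      push Not at hcon
      rw [abs_of_nonneg hcon] at h1
      have := le_abs_self (z i / y i * y j)
      linarith
    · rwa [hoff j hjy] at hj
  · intro heq
    have : i ∈ sp (z - (z i / y i) • y) := by rw [heq]; exact hyz hi
    exact mem_sp.1 this hwi

/-- The pair of a vector. -/
noncomputable def pairOf (f : ι ↪ E) (z : ι → ℝ) : Sym2 (Finset E) :=
  s((pos z).map f, (neg z).map f)

theorem pairOf_radon {f : ι ↪ E} {z : ι → ℝ} (hz : z ∈ adep (f : ι → E)) (hz0 : z ≠ 0) :
    IsRadonIn ((univ : Finset ι).map f) (pairOf f z) := by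
  refine ⟨_, _, rfl, ?_, map_subset_map.2 (subset_univ _), map_subset_map.2 (subset_univ _),
    hull_meet hz hz0⟩
  rw [disjoint_map]
  exact disjoint_pos_neg z

theorem pairOf_eq_sp {f : ι ↪ E} {z w : ι → ℝ} (h : pairOf f z = pairOf f w) : sp z = sp w := by
  unfold pairOf at h
  rw [Sym2.eq_iff] at h
  ext i
  rw [mem_sp_iff, mem_sp_iff]
  rcases h with ⟨h1, h2⟩ | ⟨h1, h2⟩
  · rw [map_injective f h1, map_injective f h2]
  · rw [map_injective f h1, map_injective f h2]
    tauto

theorem pairOf_smul {f : ι ↪ E} {z : ι → ℝ} {c : ℝ} (hc : c ≠ 0) :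
    pairOf f (c • z) = pairOf f z := by
  unfold pairOf
  rcases lt_or_gt_of_ne hc with h | h
  · have h1 : pos (c • z) = neg z := by
      ext i
      rw [mem_pos, mem_neg, Pi.smul_apply, smul_eq_mul]
      constructor
      · intro h2; by_contra h3; push Not at h3; nlinarith
      · intro h2; exact mul_pos_of_neg_of_neg h h2
    have h2 : neg (c • z) = pos z := by
      ext i
      rw [mem_pos, mem_neg, Pi.smul_apply, smul_eq_mul]
      constructor
      · intro h2; by_contra h3; push Not at h3; nlinarith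
      · intro h2; exact mul_neg_of_neg_of_pos h h2
    rw [h1, h2]
    exact Sym2.eq_swap
  · have h1 : pos (c • z) = pos z := by
      ext i
      rw [mem_pos, mem_pos, Pi.smul_apply, smul_eq_mul]
      exact mul_pos_iff_of_pos_left h
    have h2 : neg (c • z) = neg z := by
      ext i
      rw [mem_neg, mem_neg, Pi.smul_apply, smul_eq_mul]
      constructor
      · intro h2; by_contra h3; push Not at h3; nlinarith
      · intro h2; exact mul_neg_of_pos_of_neg h h2
    rw [h1, h2]

/-- The primitive Radon partitions are those of the circuits. -/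
theorem isPrimitive_iff {f : ι ↪ E} {p : Sym2 (Finset E)} :
    IsPrimitive ((univ : Finset ι).map f) p ↔
      ∃ z ∈ adep (f : ι → E), z ≠ 0 ∧ sp z ∈ circs (adep (f : ι → E)) ∧ p = pairOf f z := by
  classical
  -- subsets of the point set
  have hpre : ∀ A : Finset E, A ⊆ (univ : Finset ι).map f → ∃ A' : Finset ι, A'.map f = A := by
    intro A hA
    refine ⟨univ.filter (fun i => f i ∈ A), ?_⟩
    ext a
    rw [mem_map]
    constructor
    · rintro ⟨i, hi, rfl⟩
      exact (mem_filter.1 hi).2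
    · intro ha
      obtain ⟨i, -, rfl⟩ := mem_map.1 (hA ha)
      exact ⟨i, mem_filter.2 ⟨mem_univ i, ha⟩, rfl⟩
  constructor
  · rintro ⟨⟨A, B, rfl, hd, hA, hB, hne⟩, hmin⟩
    obtain ⟨A', rfl⟩ := hpre A hA
    obtain ⟨B', rfl⟩ := hpre B hB
    rw [disjoint_map] at hd
    obtain ⟨z, hz, hz0, hzA, hzB⟩ := exists_dep hd hne
    have h1 := hmin (pairOf f z) (pairOf_radon hz hz0)
      ⟨_, _, _, _, rfl, rfl, map_subset_map.2 hzA, map_subset_map.2 hzB⟩
    refine ⟨z, hz, hz0, ?_, h1.symm⟩
    rw [mem_circs]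
    refine ⟨⟨z, hz, hz0, rfl⟩, fun y hy hy0 hys => ?_⟩
    by_contra hne2
    obtain ⟨w, hw, hw0, hwp, hwn, hws⟩ := exists_conformal hz hy hy0 hys hne2
    have h2 := hmin (pairOf f w) (pairOf_radon hw hw0)
      ⟨_, _, _, _, rfl, rfl, map_subset_map.2 (hwp.trans hzA), map_subset_map.2 (hwn.trans hzB)⟩
    exact hws (pairOf_eq_sp (h2.trans h1.symm))
  · rintro ⟨z, hz, hz0, hC, rfl⟩
    refine ⟨pairOf_radon hz hz0, ?_⟩
    rintro q ⟨A, B, rfl, hd, hA, hB, hne⟩ ⟨A₁, B₁, A₂, B₂, hp, hq, hA', hB'⟩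
    obtain ⟨A', rfl⟩ := hpre A hA
    obtain ⟨B', rfl⟩ := hpre B hB
    rw [disjoint_map] at hd
    obtain ⟨y, hy, hy0, hyA, hyB⟩ := exists_dep hd hne
    -- the total support
    have hsub : ∀ i, i ∈ A' ∨ i ∈ B' → i ∈ sp z := by
      intro i hi
      have hi2 : f i ∈ A₂ ∨ f i ∈ B₂ := by
        rw [Sym2.eq_iff] at hq
        rcases hq with ⟨h1, h2⟩ | ⟨h1, h2⟩
        · rw [← h1, ← h2]
          rcases hi with h | h
          · exact Or.inl (mem_map_of_mem f h)
          · exact Or.inr (mem_map_of_mem f h)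
        · rw [← h1, ← h2]
          rcases hi with h | h
          · exact Or.inr (mem_map_of_mem f h)
          · exact Or.inl (mem_map_of_mem f h)
      have hi3 : f i ∈ A₁ ∨ f i ∈ B₁ := hi2.imp (fun h => hA' h) (fun h => hB' h)
      unfold pairOf at hp
      rw [Sym2.eq_iff] at hp
      rw [mem_sp_iff]
      rcases hp with ⟨h1, h2⟩ | ⟨h1, h2⟩
      · rw [← h1, ← h2, mem_map', mem_map'] at hi3
        exact hi3
      · rw [← h1, ← h2, mem_map', mem_map'] at hi3
        exact hi3.symm
    have hysub : sp y ⊆ sp z := by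
      intro i hi
      rcases mem_sp_iff.1 hi with h | h
      · exact hsub i (Or.inl (hyA h))
      · exact hsub i (Or.inr (hyB h))
    rw [mem_circs] at hC
    have hspy := hC.2 y hy hy0 hysub
    -- now `A₂ ∪ B₂` is everything
    have hfull : ∀ i, i ∈ sp z → i ∈ A' ∨ i ∈ B' := by
      intro i hi
      rw [← hspy] at hi
      exact (mem_sp_iff.1 hi).imp (fun h => hyA h) (fun h => hyB h)
    have hfull2 : ∀ i, i ∈ sp z → f i ∈ A₂ ∨ f i ∈ B₂ := by
      intro i hi
      rw [Sym2.eq_iff] at hq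
      rcases hq with ⟨h1, h2⟩ | ⟨h1, h2⟩
      · rw [← h1, ← h2, mem_map', mem_map']
        exact hfull i hi
      · rw [← h1, ← h2, mem_map', mem_map']
        exact (hfull i hi).symm
    have hdis1 : Disjoint A₁ B₁ ∧ ∀ a, a ∈ A₁ ∨ a ∈ B₁ → ∃ i ∈ sp z, f i = a := by
      unfold pairOf at hp
      rw [Sym2.eq_iff] at hp
      have hdd := disjoint_pos_neg z
      rcases hp with ⟨h1, h2⟩ | ⟨h1, h2⟩
      · rw [← h1, ← h2]
        refine ⟨by rw [disjoint_map]; exact hdd, ?_⟩
        rintro a (ha | ha)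
        · obtain ⟨i, hi, rfl⟩ := mem_map.1 ha
          exact ⟨i, mem_sp_iff.2 (Or.inl hi), rfl⟩
        · obtain ⟨i, hi, rfl⟩ := mem_map.1 ha
          exact ⟨i, mem_sp_iff.2 (Or.inr hi), rfl⟩
      · rw [← h1, ← h2]
        refine ⟨by rw [disjoint_map]; exact hdd.symm, ?_⟩
        rintro a (ha | ha)
        · obtain ⟨i, hi, rfl⟩ := mem_map.1 ha
          exact ⟨i, mem_sp_iff.2 (Or.inr hi), rfl⟩
        · obtain ⟨i, hi, rfl⟩ := mem_map.1 ha
          exact ⟨i, mem_sp_iff.2 (Or.inl hi), rfl⟩
    have hAA : A₂ = A₁ := by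
      apply subset_antisymm hA'
      intro a ha
      obtain ⟨i, hi, rfl⟩ := hdis1.2 a (Or.inl ha)
      rcases hfull2 i hi with h | h
      · exact h
      · exact absurd (hB' h) (disjoint_left.1 hdis1.1 ha)
    have hBB : B₂ = B₁ := by
      apply subset_antisymm hB'
      intro a ha
      obtain ⟨i, hi, rfl⟩ := hdis1.2 a (Or.inr ha)
      rcases hfull2 i hi with h | h
      · exact absurd ha (disjoint_left.1 hdis1.1 (hA' h))
      · exact h
    rw [hq, hp, hAA, hBB]

/-- Two vectors with the same circuit as support are proportional. -/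
theorem circ_proportional {U : Submodule ℝ (ι → ℝ)} {z w : ι → ℝ} (hz : z ∈ U) (hw : w ∈ U)
    (hw0 : w ≠ 0) (hC : sp z ∈ circs U) (h : sp w = sp z) : ∃ c : ℝ, c ≠ 0 ∧ w = c • z := by
  obtain ⟨i, hi⟩ := sp_nonempty.2 hw0
  have hwi := mem_sp.1 hi
  have hzi : z i ≠ 0 := by rw [← mem_sp, ← h]; exact hi
  refine ⟨w i / z i, div_ne_zero hwi hzi, ?_⟩
  rw [← sub_eq_zero]
  by_contra hne
  rw [mem_circs] at hC
  have h1 := hC.2 _ (U.sub_mem hw (U.smul_mem (w i / z i) hz)) hne
    (sp_sub_smul_subset _ h.subset (subset_refl _))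
  have h2 : i ∈ sp (w - (w i / z i) • z) := by rw [h1, ← h]; exact hi
  rw [mem_sp] at h2
  apply h2
  simp [hzi]

/-- The number of primitive Radon partitions is the number of circuits. -/
theorem numPrimitive_eq (f : ι ↪ E) :
    numPrimitive ((univ : Finset ι).map f) = (circs (adep (f : ι → E))).card := by
  classical
  have hch : ∀ C ∈ circs (adep (f : ι → E)), ∃ z ∈ adep (f : ι → E), z ≠ 0 ∧ sp z = C := by
    intro C hC
    exact (mem_circs.1 hC).1
  choose! g hg1 hg2 hg3 using hch
  have himage : {p | IsPrimitive ((univ : Finset ι).map f) p} =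
      (fun C => pairOf f (g C)) '' (circs (adep (f : ι → E)) : Set (Finset ι)) := by
    ext p
    rw [Set.mem_ofPred_eq, isPrimitive_iff, Set.mem_image]
    constructor
    · rintro ⟨z, hz, hz0, hC, rfl⟩
      refine ⟨sp z, hC, ?_⟩
      obtain ⟨c, hc, heq⟩ := circ_proportional hz (hg1 _ hC) (hg2 _ hC) hC (hg3 _ hC)
      rw [heq, pairOf_smul hc]
    · rintro ⟨C, hC, rfl⟩
      exact ⟨g C, hg1 C hC, hg2 C hC, by rw [hg3 C hC]; exact hC, rfl⟩
  unfold numPrimitive
  rw [himage, Set.InjOn.ncard_image, Set.ncard_coe_finset]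
  intro C hC C' hC' heq
  rw [← hg3 C hC, ← hg3 C' hC']
  exact pairOf_eq_sp heq

end Pool.Agent.Helper141C
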