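import Mathlib
import Pool.Agent.Helper141_circuits.Bases
import Pool.Agent.Helper141_circuits.Numeric

set_option autoImplicit false
set_option linter.unusedSectionVars false

/-!
Configurations with few circuits: direct sums of lines and small planar pieces.
-/

namespace Pool.Agent.Helper141C

open Finset

/-- There is a simple affine configuration of rank at most `r` with `n` elements and at most `c`
circuits. -/
def Realized (r n c : ℕ) : Prop :=
  ∃ (ι : Type) (_ : Fintype ι) (_ : DecidableEq ι) (U : Submodule ℝ (ι → ℝ)),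
    Fintype.card ι = n ∧ n ≤ r + Module.finrank ℝ U ∧ (∀ z ∈ U, ∑ i, z i = 0) ∧ Sim U ∧
      (circs U).card ≤ c

section depv

variable {ι : Type} [Fintype ι] [DecidableEq ι]

/-- The linear dependences of a family of vectors. -/
def depv {k : ℕ} (v : ι → Fin k → ℝ) : Submodule ℝ (ι → ℝ) :=
  LinearMap.ker (Fintype.linearCombination ℝ v)

theorem mem_depv {k : ℕ} {v : ι → Fin k → ℝ} {z : ι → ℝ} :
    z ∈ depv v ↔ ∀ j, ∑ i, z i * v i j = 0 := by
  unfold depv
  rw [LinearMap.mem_ker, Fintype.linearCombination_apply, funext_iff]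
  simp only [Finset.sum_apply, Pi.smul_apply, smul_eq_mul, Pi.zero_apply]

theorem finrank_depv {k : ℕ} (v : ι → Fin k → ℝ) :
    Fintype.card ι ≤ k + Module.finrank ℝ (depv v) := by
  have h := LinearMap.finrank_range_add_finrank_ker (Fintype.linearCombination ℝ v)
  rw [Module.finrank_pi] at h
  have h2 := Submodule.finrank_le (LinearMap.range (Fintype.linearCombination ℝ v))
  rw [Module.finrank_pi, Fintype.card_fin] at h2
  unfold depv
  omega

/-- Circuits are small. -/
theorem circ_card_le {U : Submodule ℝ (ι → ℝ)} {r : ℕ}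
    (hr : Fintype.card ι ≤ r + Module.finrank ℝ U) {C : Finset ι} (hC : C ∈ circs U) :
    C.card ≤ r + 1 := by
  by_contra hcon
  push Not at hcon
  obtain ⟨T, hTC, hT⟩ := exists_subset_card_eq (s := C) (n := r + 1) (by omega)
  rw [mem_circs] at hC
  have h1 := finrank_on_le_add U (subset_univ T)
  rw [on_eq_self (fun z _ => subset_univ _), card_sdiff_of_subset (subset_univ T), hT,
    card_univ] at h1
  have h2 := card_le_card (subset_univ T)
  rw [card_univ, hT] at h2
  have h3 : on U T ≠ ⊥ := by
    intro h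
    rw [h, finrank_bot] at h1
    omega
  obtain ⟨z, hz, hz0⟩ := Submodule.exists_mem_ne_zero_of_ne_bot h3
  have hz' := mem_on.1 hz
  have h4 := hC.2 z hz'.1 hz0 (hz'.2.trans hTC)
  have h5 := card_le_card hz'.2
  rw [h4] at h5
  omega

end depv

theorem realized_zero : Realized 0 0 0 := by
  refine ⟨Empty, inferInstance, inferInstance, ⊥, rfl, Nat.zero_le _, ?_, ?_, ?_⟩
  · intro z _
    simp
  · intro z _ hz0
    exact absurd (funext fun i => i.elim) hz0
  · have : circs (⊥ : Submodule ℝ (Empty → ℝ)) = ∅ := by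
      rw [eq_empty_iff_forall_notMem]
      intro C hC
      rw [mem_circs] at hC
      obtain ⟨⟨z, -, hz0, -⟩, -⟩ := hC
      exact hz0 (funext fun i => i.elim)
    rw [this]
    simp

/-- Lines. -/
theorem realized_line (a : ℕ) : Realized 2 a (a.choose 3) := by
  classical
  set v : Fin a → Fin 2 → ℝ := fun i => ![1, (i : ℝ)] with hv
  have hmem : ∀ z ∈ depv v, ∑ i, z i = 0 ∧ ∑ i, z i * (i : ℝ) = 0 := by
    intro z hz
    rw [mem_depv] at hz
    constructor
    · simpa [hv] using hz 0
    · simpa [hv] using hz 1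
  have hsim : Sim (depv v) := by
    intro z hz hz0
    by_contra hcon
    push Not at hcon
    obtain ⟨h1, h2⟩ := hmem z hz
    obtain ⟨i, hi⟩ := sp_nonempty.2 hz0
    have hi' := mem_sp.1 hi
    -- multiply by `x - j` for the other point `j`
    have key : ∀ t : ℝ, ∑ x, z x * ((x : ℝ) - t) = 0 := by
      intro t
      have : ∑ x, z x * ((x : ℝ) - t) = ∑ x, z x * (x : ℝ) - t * ∑ x, z x := by
        rw [mul_sum, ← sum_sub_distrib]
        exact sum_congr rfl (fun x _ => by ring)
      rw [this, h1, h2]
      ring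
    by_cases hj : ∃ j ∈ sp z, j ≠ i
    · obtain ⟨j, hj, hji⟩ := hj
      have hsub : sp z = {i, j} := by
        symm
        apply eq_of_subset_of_card_le
        · intro x hx
          simp only [mem_insert, mem_singleton] at hx
          rcases hx with rfl | rfl <;> assumption
        · rw [card_pair (Ne.symm hji)]
          omega
      have h3 := key (j : ℝ)
      have h4 : ∑ x, z x * ((x : ℝ) - (j : ℝ)) = z i * ((i : ℝ) - (j : ℝ)) := by
        apply sum_eq_single i
        · intro x _ hxi
          by_cases hxj : x = j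
          · rw [hxj]; ring
          · have : z x = 0 := by
              rw [← notMem_sp, hsub]
              simp [hxi, hxj]
            rw [this]; ring
        · intro h; exact absurd (mem_univ i) h
      rw [h3] at h4
      rcases mul_eq_zero.1 h4.symm with h5 | h5
      · exact hi' h5
      · have : (i : ℝ) = (j : ℝ) := by linarith
        have h6 : (i : ℕ) = (j : ℕ) := by exact_mod_cast this
        exact hji (Fin.ext h6).symm
    · push Not at hj
      have h4 : ∑ x, z x = z i := by
        apply sum_eq_single i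
        · intro x _ hxi
          by_contra hne
          exact hxi (hj x (mem_sp.2 hne))
        · intro h; exact absurd (mem_univ i) h
      rw [h1] at h4
      exact hi' h4.symm
  have hfr := finrank_depv v
  rw [Fintype.card_fin] at hfr
  refine ⟨Fin a, inferInstance, inferInstance, depv v, Fintype.card_fin a, hfr,
    fun z hz => (hmem z hz).1, hsim, ?_⟩
  have hpc : a.choose 3 = (powersetCard 3 (univ : Finset (Fin a))).card := by
    rw [card_powersetCard, card_univ, Fintype.card_fin]
  rw [hpc]
  apply card_le_card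
  intro C hC
  rw [mem_powersetCard]
  refine ⟨subset_univ C, ?_⟩
  have h1 := circ_card_le (r := 2) (by rw [Fintype.card_fin]; exact hfr) hC
  rw [mem_circs] at hC
  obtain ⟨⟨z, hz, hz0, hzC⟩, -⟩ := hC
  have := hsim z hz hz0
  rw [hzC] at this
  omega

/-- Direct sums. -/
theorem Realized.add {r₁ n₁ c₁ r₂ n₂ c₂ : ℕ} (h₁ : Realized r₁ n₁ c₁) (h₂ : Realized r₂ n₂ c₂) :
    Realized (r₁ + r₂) (n₁ + n₂) (c₁ + c₂) := by
  classical
  obtain ⟨ι₁, _, _, U₁, hc₁, hr₁, hs₁, hS₁, hb₁⟩ := h₁
  obtain ⟨ι₂, _, _, U₂, hc₂, hr₂, hs₂, hS₂, hb₂⟩ := h₂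
  set e := LinearEquiv.sumArrowLequivProdArrow ι₁ ι₂ ℝ ℝ with he
  set U : Submodule ℝ (ι₁ ⊕ ι₂ → ℝ) := (U₁.prod U₂).comap e.toLinearMap with hU
  have hmem : ∀ z, z ∈ U ↔ (fun i => z (Sum.inl i)) ∈ U₁ ∧ (fun i => z (Sum.inr i)) ∈ U₂ := by
    intro z
    rfl
  have hfr : Module.finrank ℝ U₁ + Module.finrank ℝ U₂ ≤ Module.finrank ℝ U := by
    rw [← Module.finrank_prod]
    let f : U₁ × U₂ →ₗ[ℝ] U :=
      LinearMap.codRestrict U (e.symm.toLinearMap ∘ₗ (U₁.subtype.prodMap U₂.subtype)) (by
        intro c
        rw [hmem]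
        exact ⟨c.1.2, c.2.2⟩)
    apply LinearMap.finrank_le_finrank_of_injective (f := f)
    intro x y hxy
    have h1 : e.symm (U₁.subtype.prodMap U₂.subtype x) =
        e.symm (U₁.subtype.prodMap U₂.subtype y) := congrArg Subtype.val hxy
    have h2 := e.symm.injective h1
    rw [LinearMap.prodMap_apply, LinearMap.prodMap_apply, Prod.mk.injEq] at h2
    exact Prod.ext (Subtype.ext h2.1) (Subtype.ext h2.2)
  -- the two halves of a vector
  have hleft : ∀ z ∈ U, Sum.elim (fun i => z (Sum.inl i)) (fun _ => 0) ∈ U := by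
    intro z hz
    rw [hmem] at hz ⊢
    exact ⟨hz.1, U₂.zero_mem⟩
  have hright : ∀ z ∈ U, Sum.elim (fun _ => 0) (fun i => z (Sum.inr i)) ∈ U := by
    intro z hz
    rw [hmem] at hz ⊢
    exact ⟨U₁.zero_mem, hz.2⟩
  have hspl : ∀ w : ι₁ → ℝ, sp (Sum.elim w (fun _ : ι₂ => (0 : ℝ))) =
      (sp w).map Function.Embedding.inl := by
    intro w
    ext i
    rw [mem_sp, mem_map]
    rcases i with i | i
    · simp [mem_sp]
    · simp
  have hspr : ∀ w : ι₂ → ℝ, sp (Sum.elim (fun _ : ι₁ => (0 : ℝ)) w) =
      (sp w).map Function.Embedding.inr := by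
    intro w
    ext i
    rw [mem_sp, mem_map]
    rcases i with i | i
    · simp
    · simp [mem_sp]
  refine ⟨ι₁ ⊕ ι₂, inferInstance, inferInstance, U, by rw [Fintype.card_sum, hc₁, hc₂],
    by omega, ?_, ?_, ?_⟩
  · intro z hz
    rw [hmem] at hz
    rw [Fintype.sum_sum_type, hs₁ _ hz.1, hs₂ _ hz.2, add_zero]
  · intro z hz hz0
    rw [hmem] at hz
    by_cases h1 : (fun i => z (Sum.inl i)) = 0
    · have h2 : (fun i => z (Sum.inr i)) ≠ 0 := by
        intro h2
        apply hz0
        funext i
        rcases i with i | i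
        · exact congrFun h1 i
        · exact congrFun h2 i
      refine (hS₂ _ hz.2 h2).trans ?_
      rw [← card_map (Function.Embedding.inr : ι₂ ↪ ι₁ ⊕ ι₂)]
      apply card_le_card
      intro i hi
      obtain ⟨j, hj, rfl⟩ := mem_map.1 hi
      exact mem_sp.2 (by have h9 := mem_sp.1 hj; exact h9)
    · refine (hS₁ _ hz.1 h1).trans ?_
      rw [← card_map (Function.Embedding.inl : ι₁ ↪ ι₁ ⊕ ι₂)]
      apply card_le_card
      intro i hi
      obtain ⟨j, hj, rfl⟩ := mem_map.1 hi
      exact mem_sp.2 (by have h9 := mem_sp.1 hj; exact h9)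
  · have hsub : circs U ⊆ (circs U₁).image (fun C => C.map Function.Embedding.inl) ∪
        (circs U₂).image (fun C => C.map Function.Embedding.inr) := by
      intro C hC
      rw [mem_circs] at hC
      obtain ⟨⟨z, hz, hz0, hzC⟩, hmin⟩ := hC
      have hz' := (hmem z).1 hz
      by_cases h1 : (fun i => z (Sum.inl i)) = 0
      · have h2 : (fun i => z (Sum.inr i)) ≠ 0 := by
          intro h2
          apply hz0
          funext i
          rcases i with i | i
          · exact congrFun h1 i
          · exact congrFun h2 i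
        have hzeq : z = Sum.elim (fun _ => 0) (fun i => z (Sum.inr i)) := by
          funext i
          rcases i with i | i
          · exact congrFun h1 i
          · rfl
        have hCeq : (sp (fun i => z (Sum.inr i))).map Function.Embedding.inr = C := by
          rw [← hspr, ← hzeq, hzC]
        refine mem_union_right _ (mem_image.2 ⟨sp (fun i => z (Sum.inr i)), ?_, hCeq⟩)
        rw [mem_circs]
        refine ⟨⟨_, hz'.2, h2, rfl⟩, fun y hy hy0 hys => ?_⟩
        have h3 : Sum.elim (fun _ => 0) y ∈ U := by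
          rw [hmem]; exact ⟨U₁.zero_mem, hy⟩
        have h4 : (Sum.elim (fun _ => 0) y : ι₁ ⊕ ι₂ → ℝ) ≠ 0 := by
          intro h
          apply hy0
          funext i
          exact congrFun h (Sum.inr i)
        have h5 := hmin _ h3 h4 (by rw [hspr, ← hCeq]; exact map_subset_map.2 hys)
        rw [hspr, ← hCeq] at h5
        exact map_injective _ h5
      · have h3 := hmin _ (hleft z hz) (by
          intro h
          apply h1
          funext i
          exact congrFun h (Sum.inl i)) (by
          rw [hspl, ← hzC]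
          intro i hi
          obtain ⟨j, hj, rfl⟩ := mem_map.1 hi
          exact mem_sp.2 (by have h9 := mem_sp.1 hj; exact h9))
        rw [hspl] at h3
        refine mem_union_left _ (mem_image.2 ⟨sp (fun i => z (Sum.inl i)), ?_, h3⟩)
        rw [mem_circs]
        refine ⟨⟨_, hz'.1, h1, rfl⟩, fun y hy hy0 hys => ?_⟩
        have h4 : Sum.elim y (fun _ => 0) ∈ U := by
          rw [hmem]; exact ⟨hy, U₂.zero_mem⟩
        have h5 : (Sum.elim y (fun _ => 0) : ι₁ ⊕ ι₂ → ℝ) ≠ 0 := by
          intro h
          apply hy0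
          funext i
          exact congrFun h (Sum.inl i)
        have h6 := hmin _ h4 h5 (by rw [hspl, ← h3]; exact map_subset_map.2 hys)
        rw [hspl, ← h3] at h6
        exact map_injective _ h6
    calc (circs U).card ≤ _ := card_le_card hsub
      _ ≤ _ := card_union_le _ _
      _ ≤ (circs U₁).card + (circs U₂).card := Nat.add_le_add card_image_le card_image_le
      _ ≤ c₁ + c₂ := Nat.add_le_add hb₁ hb₂

theorem Realized.mul {r n c : ℕ} (h : Realized r n c) (j : ℕ) :
    Realized (j * r) (j * n) (j * c) := by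
  induction j with
  | zero => simpa using realized_zero
  | succ j ih =>
    rw [Nat.succ_mul, Nat.succ_mul, Nat.succ_mul]
    exact ih.add h

end Pool.Agent.Helper141C
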