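import Mathlib
import Pool.Agent.Helper141_circuits.Upper

set_option autoImplicit false
set_option linter.unusedSectionVars false

/-!
Planar pieces with few circuits.
-/

namespace Pool.Agent.Helper141C

open Finset

/-- The points `0, 1, ..., a - 1` of a line. -/
def lineV (a : ℕ) : Fin a → Fin 2 → ℝ := fun i => ![1, (i : ℝ)]

theorem mem_lineV {a : ℕ} {z : Fin a → ℝ} :
    z ∈ depv (lineV a) ↔ ∑ i, z i = 0 ∧ ∑ i, z i * (i : ℝ) = 0 := by
  rw [mem_depv]
  constructor
  · intro h
    exact ⟨by simpa [lineV] using h 0, by simpa [lineV] using h 1⟩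
  · rintro ⟨h1, h2⟩ j
    fin_cases j
    · simpa [lineV] using h1
    · simpa [lineV] using h2

theorem line_sim (a : ℕ) : Sim (depv (lineV a)) := by
  classical
  intro z hz hz0
  by_contra hcon
  push Not at hcon
  obtain ⟨h1, h2⟩ := mem_lineV.1 hz
  obtain ⟨i, hi⟩ := sp_nonempty.2 hz0
  have hi' := mem_sp.1 hi
  have key : ∀ t : ℝ, ∑ x, z x * ((x : ℝ) - t) = 0 := by
    intro t
    have : ∑ x, z x * ((x : ℝ) - t) = ∑ x, z x * (x : ℝ) - t * ∑ x, z x := by
      rw [mul_sum, ← sum_sub_distrib]
      exact sum_congr rfl (fun x _ => by ring)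
    rw [this, h1, h2]
    ring
  by_cases hj : ∃ j ∈ sp z, j ≠ i
  · obtain ⟨j, hj, hji⟩ := hj
    have hsub : sp z = {i, j} := by
      symm
      apply eq_of_subset_of_card_le
      · intro x hx
        simp only [mem_insert, mem_singleton] at hx
        rcases hx with rfl | rfl <;> assumption
      · rw [card_pair (Ne.symm hji)]
        omega
    have h3 := key (j : ℝ)
    have h4 : ∑ x, z x * ((x : ℝ) - (j : ℝ)) = z i * ((i : ℝ) - (j : ℝ)) := by
      apply sum_eq_single i
      · intro x _ hxi
        by_cases hxj : x = j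
        · rw [hxj]; ring
        · have : z x = 0 := by
            rw [← notMem_sp, hsub]
            simp [hxi, hxj]
          rw [this]; ring
      · intro h; exact absurd (mem_univ i) h
    rw [h3] at h4
    rcases mul_eq_zero.1 h4.symm with h5 | h5
    · exact hi' h5
    · have : (i : ℝ) = (j : ℝ) := by linarith
      have h6 : (i : ℕ) = (j : ℕ) := by exact_mod_cast this
      exact hji (Fin.ext h6).symm
  · push Not at hj
    have h4 : ∑ x, z x = z i := by
      apply sum_eq_single i
      · intro x _ hxi
        by_contra hne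
        exact hxi (hj x (mem_sp.2 hne))
      · intro h; exact absurd (mem_univ i) h
    rw [h1] at h4
    exact hi' h4.symm

/-- `m` points on a line and two further points on a line through the point `0`. -/
def planeV (m : ℕ) : Fin m ⊕ Fin 2 → Fin 3 → ℝ :=
  Sum.elim (fun i => ![1, (i : ℝ), 0]) (fun j => ![1, 0, (j : ℝ) + 1])

theorem mem_planeV {m : ℕ} {z : Fin m ⊕ Fin 2 → ℝ} :
    z ∈ depv (planeV m) ↔ (∑ i, z (Sum.inl i)) + (z (Sum.inr 0) + z (Sum.inr 1)) = 0 ∧
      ∑ i, z (Sum.inl i) * (i : ℝ) = 0 ∧ z (Sum.inr 0) + 2 * z (Sum.inr 1) = 0 := by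
  rw [mem_depv]
  constructor
  · intro h
    refine ⟨?_, ?_, ?_⟩
    · simpa [planeV, Fintype.sum_sum_type, Fin.sum_univ_two] using h 0
    · simpa [planeV, Fintype.sum_sum_type, Fin.sum_univ_two] using h 1
    · have := h 2
      simp only [planeV, Fintype.sum_sum_type, Fin.sum_univ_two] at this
      simp at this
      linarith
  · rintro ⟨h1, h2, h3⟩ j
    fin_cases j
    · simpa [planeV, Fintype.sum_sum_type, Fin.sum_univ_two] using h1
    · simpa [planeV, Fintype.sum_sum_type, Fin.sum_univ_two] using h2
    · simp [planeV, Fintype.sum_sum_type, Fin.sum_univ_two]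
      linarith

theorem realized_plane {m : ℕ} (hm : 2 ≤ m) :
    Realized 3 (m + 2) (m.choose 3 + (m - 1).choose 2 + 1) := by
  classical
  have hfr := finrank_depv (planeV m)
  have hcardι : Fintype.card (Fin m ⊕ Fin 2) = m + 2 := by
    rw [Fintype.card_sum, Fintype.card_fin, Fintype.card_fin]
  rw [hcardι] at hfr
  have hspl : ∀ w : Fin m → ℝ, sp (Sum.elim w (fun _ : Fin 2 => (0 : ℝ))) =
      (sp w).map Function.Embedding.inl := by
    intro w
    ext i
    rw [mem_sp, mem_map]
    rcases i with i | i
    · simp [mem_sp]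
    · simp
  -- vectors on the line
  have hline : ∀ w ∈ depv (lineV m), Sum.elim w (fun _ : Fin 2 => (0 : ℝ)) ∈
      depv (planeV m) := by
    intro w hw
    rw [mem_lineV] at hw
    rw [mem_planeV]
    exact ⟨by simpa using hw.1, by simpa using hw.2, by simp⟩
  have hline' : ∀ z ∈ depv (planeV m), z (Sum.inr 1) = 0 →
      (fun i => z (Sum.inl i)) ∈ depv (lineV m) ∧
        z = Sum.elim (fun i => z (Sum.inl i)) (fun _ : Fin 2 => (0 : ℝ)) := by
    intro z hz h1
    obtain ⟨e1, e2, e3⟩ := mem_planeV.1 hz
    have h0 : z (Sum.inr 0) = 0 := by rw [h1] at e3; linarith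
    constructor
    · rw [mem_lineV]
      rw [h0, h1] at e1
      exact ⟨by linarith, e2⟩
    · funext i
      rcases i with i | i
      · rfl
      · fin_cases i
        · exact h0
        · exact h1
  have hsim : Sim (depv (planeV m)) := by
    intro z hz hz0
    by_cases h1 : z (Sum.inr 1) = 0
    · obtain ⟨h2, h3⟩ := hline' z hz h1
      have h4 : (fun i => z (Sum.inl i)) ≠ 0 := by
        intro h4
        apply hz0
        rw [h3, h4]
        funext i
        rcases i with i | i <;> rfl
      have h5 := line_sim m _ h2 h4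
      rw [h3, hspl, card_map]
      exact h5
    · obtain ⟨e1, e2, e3⟩ := mem_planeV.1 hz
      have h0 : z (Sum.inr 0) ≠ 0 := by
        intro h
        rw [h] at e3
        exact h1 (by linarith)
      have hex : ∃ i, z (Sum.inl i) ≠ 0 := by
        by_contra hcon
        push Not at hcon
        rw [sum_eq_zero (fun i _ => hcon i)] at e1
        exact h1 (by linarith)
      obtain ⟨i, hi⟩ := hex
      have hsub : ({Sum.inl i, Sum.inr 0, Sum.inr 1} : Finset (Fin m ⊕ Fin 2)) ⊆ sp z := by
        intro j hj
        simp only [mem_insert, mem_singleton] at hj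
        rcases hj with rfl | rfl | rfl
        · exact mem_sp.2 hi
        · exact mem_sp.2 h0
        · exact mem_sp.2 h1
      have hc : ({Sum.inl i, Sum.inr 0, Sum.inr 1} : Finset (Fin m ⊕ Fin 2)).card = 3 := by
        rw [card_insert_of_notMem (by simp), card_pair (by simp)]
      rw [← hc]
      exact card_le_card hsub
  obtain ⟨o, ho⟩ : ∃ o : Fin m, (o : ℕ) = 0 := ⟨⟨0, by omega⟩, rfl⟩
  refine ⟨Fin m ⊕ Fin 2, inferInstance, inferInstance, depv (planeV m), hcardι, hfr, ?_, hsim, ?_⟩
  · intro z hz
    obtain ⟨e1, -, -⟩ := mem_planeV.1 hz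
    rw [Fintype.sum_sum_type, Fin.sum_univ_two]
    exact e1
  · have hsub : circs (depv (planeV m)) ⊆
        ((powersetCard 3 (univ : Finset (Fin m))).image
          (fun C => C.map (Function.Embedding.inl : Fin m ↪ Fin m ⊕ Fin 2)) ∪
        (powersetCard 2 ((univ : Finset (Fin m)).erase o)).image
          (fun Y => insert (Sum.inr 0) (insert (Sum.inr 1) (Y.map Function.Embedding.inl)))) ∪
        {{Sum.inl o, Sum.inr 0, Sum.inr 1}} := by
      intro C hC
      have hC4 := circ_card_le (r := 3) (by rw [hcardι]; exact hfr) hC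
      rw [mem_circs] at hC
      obtain ⟨⟨z, hz, hz0, hzC⟩, hmin⟩ := hC
      by_cases h1 : z (Sum.inr 1) = 0
      · obtain ⟨h2, h3⟩ := hline' z hz h1
        refine mem_union_left _ (mem_union_left _ (mem_image.2
          ⟨sp (fun i => z (Sum.inl i)), ?_, ?_⟩))
        · rw [mem_powersetCard]
          refine ⟨subset_univ _, ?_⟩
          have h4 : (fun i => z (Sum.inl i)) ≠ 0 := by
            intro h4
            apply hz0
            rw [h3, h4]
            funext i
            rcases i with i | i <;> rfl
          have h5 := line_sim m _ h2 h4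
          have h6 : sp (fun i => z (Sum.inl i)) ∈ circs (depv (lineV m)) := by
            rw [mem_circs]
            refine ⟨⟨_, h2, h4, rfl⟩, fun y hy hy0 hys => ?_⟩
            have h7 := hmin _ (hline y hy) (by
              intro h
              apply hy0
              funext i
              exact congrFun h (Sum.inl i)) (by
              rw [hspl, ← hzC, h3, hspl]
              exact map_subset_map.2 hys)
            rw [hspl, ← hzC, h3, hspl] at h7
            exact map_injective _ h7
          have h8 := circ_card_le (r := 2) (by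
            have := finrank_depv (lineV m)
            exact this) h6
          omega
        · rw [← hspl, ← h3, hzC]
      · obtain ⟨e1, e2, e3⟩ := mem_planeV.1 hz
        have h0 : z (Sum.inr 0) ≠ 0 := by
          intro h
          rw [h] at e3
          exact h1 (by linarith)
        by_cases hoC : z (Sum.inl o) = 0
        · refine mem_union_left _ (mem_union_right _ (mem_image.2
            ⟨sp (fun i => z (Sum.inl i)), ?_, ?_⟩))
          · have hcardC : (sp (fun i => z (Sum.inl i))).card + 2 ≤ 4 := by
              refine le_trans ?_ hC4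
              rw [← hzC]
              have h9 : insert (Sum.inr 0) (insert (Sum.inr 1)
                  ((sp (fun i => z (Sum.inl i))).map
                    (Function.Embedding.inl : Fin m ↪ Fin m ⊕ Fin 2))) ⊆ sp z := by
                intro j hj
                rw [mem_insert, mem_insert, mem_map] at hj
                rcases hj with rfl | rfl | ⟨i, hi, rfl⟩
                · exact mem_sp.2 h0
                · exact mem_sp.2 h1
                · exact mem_sp.2 (by have h9 := mem_sp.1 hi; exact h9)
              have h10 := card_le_card h9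
              rw [card_insert_of_notMem (by simp), card_insert_of_notMem (by simp),
                card_map] at h10
              omega
            have hge : 2 ≤ (sp (fun i => z (Sum.inl i))).card := by
              by_contra hlt
              push Not at hlt
              by_cases hemp : (fun i => z (Sum.inl i)) = 0
              · have : ∑ i, z (Sum.inl i) = 0 := sum_eq_zero (fun i _ => congrFun hemp i)
                rw [this] at e1
                exact h1 (by linarith)
              · have hone : (sp (fun i => z (Sum.inl i))).card = 1 := by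
                  have := card_pos.2 (sp_nonempty.2 hemp)
                  omega
                obtain ⟨i, hi⟩ := card_eq_one.1 hone
                have hii : i ∈ sp (fun i => z (Sum.inl i)) := by rw [hi]; exact mem_singleton_self i
                have hzi : z (Sum.inl i) ≠ 0 := by have h9 := mem_sp.1 hii; exact h9
                have hsum : ∑ x, z (Sum.inl x) * (x : ℝ) = z (Sum.inl i) * (i : ℝ) := by
                  apply sum_eq_single i
                  · intro x _ hxi
                    have : z (Sum.inl x) = 0 := by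
                      by_contra hne
                      have h10 : x ∈ sp (fun i => z (Sum.inl i)) := mem_sp.2 hne
                      rw [hi, mem_singleton] at h10
                      exact hxi h10
                    rw [this, zero_mul]
                  · intro h; exact absurd (mem_univ i) h
                rw [hsum] at e2
                rcases mul_eq_zero.1 e2 with h | h
                · exact hzi h
                · have h11 : (i : ℕ) = 0 := by exact_mod_cast h
                  have h12 : i = o := Fin.ext (by rw [h11, ho])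
                  rw [h12] at hzi
                  exact hzi hoC
            rw [mem_powersetCard]
            refine ⟨?_, by omega⟩
            intro i hi
            rw [mem_erase]
            refine ⟨?_, mem_univ i⟩
            rintro rfl
            have h9 := mem_sp.1 hi
            exact h9 hoC
          · rw [← hzC]
            ext j
            rw [mem_insert, mem_insert, mem_map, mem_sp]
            constructor
            · rintro (rfl | rfl | ⟨i, hi, rfl⟩)
              · exact h0
              · exact h1
              · have h9 := mem_sp.1 hi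
                exact h9
            · intro hj
              rcases j with j | j
              · exact Or.inr (Or.inr ⟨j, mem_sp.2 hj, rfl⟩)
              · fin_cases j
                · exact Or.inl rfl
                · exact Or.inr (Or.inl rfl)
        · refine mem_union_right _ (mem_singleton.2 ?_)
          set w : Fin m ⊕ Fin 2 → ℝ := Sum.elim (fun i => if i = o then 1 else 0) ![-2, 1] with hw
          have hwmem : w ∈ depv (planeV m) := by
            rw [mem_planeV]
            refine ⟨?_, ?_, ?_⟩
            · simp only [hw, Sum.elim_inl, Sum.elim_inr]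
              rw [sum_ite_eq' univ o (fun _ => (1 : ℝ)), if_pos (mem_univ o)]
              norm_num
            · simp only [hw, Sum.elim_inl]
              rw [sum_eq_single o]
              · rw [ho]; simp
              · intro x _ hx
                rw [if_neg hx, zero_mul]
              · intro h; exact absurd (mem_univ o) h
            · simp only [hw, Sum.elim_inr]
              norm_num
          have hwsp : sp w = {Sum.inl o, Sum.inr 0, Sum.inr 1} := by
            ext j
            rw [mem_sp]
            rcases j with j | j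
            · simp [hw]
            · fin_cases j <;> simp [hw]
          have h9 := hmin w hwmem (by
            intro h
            have := congrFun h (Sum.inr 1)
            simp [hw] at this) (by
            rw [hwsp, ← hzC]
            intro j hj
            simp only [mem_insert, mem_singleton] at hj
            rcases hj with rfl | rfl | rfl
            · exact mem_sp.2 hoC
            · exact mem_sp.2 h0
            · exact mem_sp.2 h1)
          rw [← h9, hwsp]
    calc (circs (depv (planeV m))).card ≤ _ := card_le_card hsub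
      _ ≤ _ := card_union_le _ _
      _ ≤ (m.choose 3 + (m - 1).choose 2) + 1 := by
          apply Nat.add_le_add
          · refine (card_union_le _ _).trans (Nat.add_le_add ?_ ?_)
            · refine card_image_le.trans ?_
              rw [card_powersetCard, card_univ, Fintype.card_fin]
            · refine card_image_le.trans ?_
              rw [card_powersetCard, card_erase_of_mem (mem_univ o), card_univ, Fintype.card_fin]
          · rw [card_singleton]

/-- The complete quadrilateral. -/
noncomputable def quadV : Fin 6 → Fin 3 → ℝ :=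
  ![![1, 0, 0], ![1, 1, 0], ![1, 3, 0], ![1, 0, 1], ![1, 0, 3], ![1, 3 / 4, 3 / 4]]

theorem mem_quadV {z : Fin 6 → ℝ} :
    z ∈ depv quadV ↔ z 0 + z 1 + z 2 + z 3 + z 4 + z 5 = 0 ∧
      z 1 + 3 * z 2 + 3 / 4 * z 5 = 0 ∧ z 3 + 3 * z 4 + 3 / 4 * z 5 = 0 := by
  rw [mem_depv]
  constructor
  · intro h
    have h0 := h 0
    have h1 := h 1
    have h2 := h 2
    simp [quadV, Fin.sum_univ_six] at h0 h1 h2
    exact ⟨by linarith, by linarith, by linarith⟩
  · rintro ⟨h1, h2, h3⟩ j
    fin_cases j
    · simp [quadV, Fin.sum_univ_six]; linarith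
    · simp [quadV, Fin.sum_univ_six]; linarith
    · simp [quadV, Fin.sum_univ_six]; linarith

set_option maxRecDepth 100000 in
theorem quad_triples : ∀ B : Finset (Fin 6), B.card = 3 → B = {0, 1, 2} ∨ B = {0, 3, 4} ∨
    B = {1, 4, 5} ∨ B = {2, 3, 5} ∨
    B = {0, 1, 3} ∨
    B = {0, 1, 4} ∨
    B = {0, 1, 5} ∨
    B = {0, 2, 3} ∨
    B = {0, 2, 4} ∨
    B = {0, 2, 5} ∨
    B = {0, 3, 5} ∨
    B = {0, 4, 5} ∨
    B = {1, 2, 3} ∨
    B = {1, 2, 4} ∨
    B = {1, 2, 5} ∨
    B = {1, 3, 4} ∨
    B = {1, 3, 5} ∨
    B = {2, 3, 4} ∨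
    B = {2, 4, 5} ∨
    B = {3, 4, 5} := by
  decide

set_option maxRecDepth 100000 in
theorem quad_small : ∀ C : Finset (Fin 6), C.card ≤ 2 → ∃ B : Finset (Fin 6), B.card = 3 ∧
    C ⊆ B ∧ B ≠ {0, 1, 2} ∧ B ≠ {0, 3, 4} ∧ B ≠ {1, 4, 5} ∧ B ≠ {2, 3, 5} := by
  decide

set_option maxRecDepth 100000 in
theorem quad_four : ∀ C : Finset (Fin 6), C.card = 4 → C = {1, 2, 3, 4} ∨ C = {0, 2, 4, 5} ∨
    C = {0, 1, 3, 5} ∨ {0, 1, 2} ⊆ C ∨ {0, 3, 4} ⊆ C ∨ {1, 4, 5} ⊆ C ∨ {2, 3, 5} ⊆ C := by
  decide

theorem quad_ind {B : Finset (Fin 6)} (hB : B.card = 3) (h1 : B ≠ {0, 1, 2})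
    (h2 : B ≠ {0, 3, 4}) (h3 : B ≠ {1, 4, 5}) (h4 : B ≠ {2, 3, 5}) : Ind (depv quadV) B := by
  intro z hz hzs
  obtain ⟨e1, e2, e3⟩ := mem_quadV.1 hz
  rw [sp_subset_iff] at hzs
  have z0 := hzs 0
  have z1 := hzs 1
  have z2 := hzs 2
  have z3 := hzs 3
  have z4 := hzs 4
  have z5 := hzs 5
  have goal : z 0 = 0 ∧ z 1 = 0 ∧ z 2 = 0 ∧ z 3 = 0 ∧ z 4 = 0 ∧ z 5 = 0 := by
    rcases quad_triples B hB with h | h | h | h | h | h | h | h | h | h | h | h | h | h | h | h |
      h | h | h | h
    · exact absurd h h1
    · exact absurd h h2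
    · exact absurd h h3
    · exact absurd h h4
    all_goals
      subst h
      simp at z0 z1 z2 z3 z4 z5
      refine ⟨?_, ?_, ?_, ?_, ?_, ?_⟩ <;> linarith
  obtain ⟨g0, g1, g2, g3, g4, g5⟩ := goal
  funext i
  fin_cases i
  · exact g0
  · exact g1
  · exact g2
  · exact g3
  · exact g4
  · exact g5

theorem realized_quad : Realized 3 6 7 := by
  classical
  have hfr := finrank_depv quadV
  rw [Fintype.card_fin] at hfr
  have hsim : Sim (depv quadV) := by
    intro z hz hz0
    by_contra hcon
    push Not at hcon
    obtain ⟨B, hB, hCB, h1, h2, h3, h4⟩ := quad_small (sp z) (by omega)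
    exact hz0 (quad_ind hB h1 h2 h3 h4 z hz hCB)
  refine ⟨Fin 6, inferInstance, inferInstance, depv quadV, Fintype.card_fin 6, hfr, ?_, hsim, ?_⟩
  · intro z hz
    obtain ⟨e1, -, -⟩ := mem_quadV.1 hz
    rw [Fin.sum_univ_six]
    exact e1
  · -- the seven circuits
    have hvec : ∀ w : Fin 6 → ℝ, w ∈ depv quadV → w ≠ 0 → ∀ C ∈ circs (depv quadV),
        sp w ⊆ C → C = sp w := by
      intro w hw hw0 C hC hs
      rw [mem_circs] at hC
      exact (hC.2 w hw hw0 hs).symm
    have hw1 : (![2, -3, 1, 0, 0, 0] : Fin 6 → ℝ) ∈ depv quadV := by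
      rw [mem_quadV]; simp; norm_num
    have hw2 : (![2, 0, 0, -3, 1, 0] : Fin 6 → ℝ) ∈ depv quadV := by
      rw [mem_quadV]; simp; norm_num
    have hw3 : (![0, 3, 0, 0, 1, -4] : Fin 6 → ℝ) ∈ depv quadV := by
      rw [mem_quadV]; simp; norm_num
    have hw4 : (![0, 0, 1, 3, 0, -4] : Fin 6 → ℝ) ∈ depv quadV := by
      rw [mem_quadV]; simp; norm_num
    have hs1 : sp (![2, -3, 1, 0, 0, 0] : Fin 6 → ℝ) = {0, 1, 2} := by
      ext i; rw [mem_sp]; fin_cases i <;> simp
    have hs2 : sp (![2, 0, 0, -3, 1, 0] : Fin 6 → ℝ) = {0, 3, 4} := by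
      ext i; rw [mem_sp]; fin_cases i <;> simp
    have hs3 : sp (![0, 3, 0, 0, 1, -4] : Fin 6 → ℝ) = {1, 4, 5} := by
      ext i; rw [mem_sp]; fin_cases i <;> simp
    have hs4 : sp (![0, 0, 1, 3, 0, -4] : Fin 6 → ℝ) = {2, 3, 5} := by
      ext i; rw [mem_sp]; fin_cases i <;> simp
    have hn1 : (![2, -3, 1, 0, 0, 0] : Fin 6 → ℝ) ≠ 0 := by
      intro h; have := congrFun h 0; simp at this
    have hn2 : (![2, 0, 0, -3, 1, 0] : Fin 6 → ℝ) ≠ 0 := by
      intro h; have := congrFun h 0; simp at this
    have hn3 : (![0, 3, 0, 0, 1, -4] : Fin 6 → ℝ) ≠ 0 := by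
      intro h; have := congrFun h 1; simp at this
    have hn4 : (![0, 0, 1, 3, 0, -4] : Fin 6 → ℝ) ≠ 0 := by
      intro h; have := congrFun h 2; simp at this
    have hsub : circs (depv quadV) ⊆ ({{0, 1, 2}, {0, 3, 4}, {1, 4, 5}, {2, 3, 5}, {1, 2, 3, 4},
        {0, 2, 4, 5}, {0, 1, 3, 5}} : Finset (Finset (Fin 6))) := by
      intro C hC
      have hC4 := circ_card_le (r := 3) (by rw [Fintype.card_fin]; exact hfr) hC
      have hC' := mem_circs.1 hC
      obtain ⟨⟨z, hz, hz0, hzC⟩, hmin⟩ := hC'
      have hC3 := hsim z hz hz0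
      rw [hzC] at hC3
      simp only [mem_insert, mem_singleton]
      have hd1 : {0, 1, 2} ⊆ C → C = {0, 1, 2} := fun h => by
        rw [← hs1] at h ⊢; exact hvec _ hw1 hn1 C hC h
      have hd2 : {0, 3, 4} ⊆ C → C = {0, 3, 4} := fun h => by
        rw [← hs2] at h ⊢; exact hvec _ hw2 hn2 C hC h
      have hd3 : {1, 4, 5} ⊆ C → C = {1, 4, 5} := fun h => by
        rw [← hs3] at h ⊢; exact hvec _ hw3 hn3 C hC h
      have hd4 : {2, 3, 5} ⊆ C → C = {2, 3, 5} := fun h => by
        rw [← hs4] at h ⊢; exact hvec _ hw4 hn4 C hC h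
      rcases (by omega : C.card = 3 ∨ C.card = 4) with h3 | h4
      · by_contra hcon
        push Not at hcon
        exact hz0 (quad_ind h3 hcon.1 hcon.2.1 hcon.2.2.1 hcon.2.2.2.1 z hz hzC.subset)
      · rcases quad_four C h4 with h | h | h | h | h | h | h
        · simp [h]
        · simp [h]
        · simp [h]
        · simp [hd1 h]
        · simp [hd2 h]
        · simp [hd3 h]
        · simp [hd4 h]
    calc (circs (depv quadV)).card ≤ _ := card_le_card hsub
      _ ≤ 7 := by decide

end Pool.Agent.Helper141C
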