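import Mathlib
import Pool.Agent.Helper141_circuits.Upper2

set_option autoImplicit false
set_option linter.unusedSectionVars false

/-!
The extremal configurations in every rank.
-/

namespace Pool.Agent.Helper141C

open Finset

theorem Realized.of_eq {r n c r' n' c' : ℕ} (h : Realized r n c) (hr : r = r') (hn : n = n')
    (hc : c ≤ c') : Realized r' n' c' := by
  subst hr hn
  obtain ⟨ι, i1, i2, U, h1, h2, h3, h4, h5⟩ := h
  exact ⟨ι, i1, i2, U, h1, h2, h3, h4, h5.trans hc⟩

theorem realized_piece {k : ℕ} (hk : 3 ≤ k) : Realized 3 (k + 1) (k.choose 3 - dl k) := by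
  by_cases h5 : k = 5
  · subst h5
    exact realized_quad
  · obtain ⟨j, rfl⟩ : ∃ j, k = j + 2 := ⟨k - 2, by omega⟩
    have h := realized_plane (m := j + 1) (by omega)
    refine h.of_eq rfl rfl ?_
    have e1 : (j + 2).choose 3 = (j + 1).choose 2 + (j + 1).choose 3 := Nat.choose_succ_succ' _ _
    have e2 : (j + 1).choose 2 = j.choose 1 + j.choose 2 := Nat.choose_succ_succ' _ _
    rw [Nat.choose_one_right] at e2
    unfold dl
    rw [if_neg h5, Nat.add_sub_cancel, e1, e2]
    omega

theorem realized_even {q : ℕ} (hq : 1 ≤ q) (s : ℕ) : Realized (2 * q) s (gq q s) := by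
  have h1 := (realized_line (s / q)).mul (q - s % q)
  have h2 := (realized_line (s / q + 1)).mul (s % q)
  have hmod := Nat.mod_lt s hq
  have hdm := Nat.div_add_mod s q
  have h3 : ∃ t, q = s % q + t := ⟨q - s % q, by omega⟩
  obtain ⟨t, ht⟩ := h3
  have hqt : q - s % q = t := by omega
  rw [hqt] at h1
  refine (h1.add h2).of_eq ?_ ?_ ?_
  · rw [← add_mul]
    omega
  · generalize s / q = a at *
    generalize s % q = b at *
    subst ht
    rw [← hdm]
    ring
  · unfold gq
    rw [Nat.choose_succ_succ' (s / q) 2]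
    generalize s / q = a at *
    generalize s % q = b at *
    subst ht
    apply le_of_eq
    ring

theorem realized_odd {q : ℕ} (hq : 1 ≤ q) {s : ℕ} (hs : 2 * q + 2 ≤ s) :
    ∃ c : ℕ, Realized (2 * q + 1) s c ∧ (c : ℤ) = Fz (2 * q + 1) s := by
  obtain ⟨N, rfl⟩ : ∃ N, s = N + 1 := ⟨s - 1, by omega⟩
  have hmod := Nat.mod_lt N hq
  have hdm := Nat.div_add_mod N q
  rcases Nat.eq_zero_or_pos (N % q) with hb | hb
  · have ha : 3 ≤ N / q := by
      rw [hb, add_zero] at hdm
      by_contra hlt
      have : q * (N / q) ≤ q * 2 := Nat.mul_le_mul_left q (by omega)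
      omega
    have h1 := (realized_line (N / q)).mul (q - 1)
    have h2 := realized_piece ha
    refine ⟨_, (h1.add h2).of_eq ?_ ?_ (le_refl _), ?_⟩
    · omega
    · rw [hb, add_zero] at hdm
      obtain ⟨t, rfl⟩ : ∃ t, q = t + 1 := ⟨q - 1, by omega⟩
      rw [Nat.add_sub_cancel]
      generalize N / (t + 1) = a at *
      rw [← hdm]
      ring
    · rw [Fz_odd, Nat.add_sub_cancel, ceil_zero hq hb, gq_eq, hb]
      have hle : dl (N / q) ≤ (N / q).choose 3 := by
        have h3 := tangent_plane (y := N / q) (k := 3) (by omega)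
        generalize N / q = a at *
        have h4 : ((3 - 1).choose 2 : ℕ) = 1 := rfl
        have h5 : (Nat.choose 3 3 : ℕ) = 1 := rfl
        have h6 : dl 3 = 0 := rfl
        rw [h4, h5, h6] at h3
        have h7 : (dl a : ℤ) ≤ (a.choose 3 : ℤ) := by
          have h8 : (3 : ℤ) ≤ a := by exact_mod_cast ha
          push_cast at h3
          linarith
        exact_mod_cast h7
      push_cast [Nat.cast_sub hle, Nat.cast_sub hq]
      ring
  · have ha : 2 ≤ N / q := (Nat.le_div_iff_mul_le hq).2 (by omega)
    have h1 := (realized_line (N / q)).mul (q - N % q)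
    have h2 := (realized_line (N / q + 1)).mul (N % q - 1)
    have h3 := realized_piece (k := N / q + 1) (by omega)
    refine ⟨_, ((h1.add h2).add h3).of_eq ?_ ?_ (le_refl _), ?_⟩
    · omega
    · obtain ⟨t, ht⟩ : ∃ t, q = N % q + t := ⟨q - N % q, by omega⟩
      obtain ⟨u, hu⟩ : ∃ u, N % q = u + 1 := ⟨N % q - 1, by omega⟩
      have e1 : q - N % q = t := by omega
      have e2 : N % q - 1 = u := by omega
      rw [e1, e2]
      generalize N / q = a at *
      generalize N % q = b at *
      subst hu
      subst ht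
      rw [← hdm]
      ring
    · rw [Fz_odd, Nat.add_sub_cancel, ceil_pos hq hb, gq_eq]
      have hle : dl (N / q + 1) ≤ (N / q + 1).choose 3 := by
        have h3 := tangent_plane (y := N / q + 1) (k := 3) (by omega)
        generalize N / q = a at *
        have h4 : ((3 - 1).choose 2 : ℕ) = 1 := rfl
        have h5 : (Nat.choose 3 3 : ℕ) = 1 := rfl
        have h6 : dl 3 = 0 := rfl
        rw [h4, h5, h6] at h3
        have h7 : (dl (a + 1) : ℤ) ≤ ((a + 1).choose 3 : ℤ) := by
          have h8 : (2 : ℤ) ≤ a := by exact_mod_cast ha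
          push_cast at h3 ⊢
          linarith
        exact_mod_cast h7
      have hc := c3_succ (N / q)
      push_cast [Nat.cast_sub hle, Nat.cast_sub hb, Nat.cast_sub hmod.le]
      rw [hc]
      ring

/-- In every dimension the extremal value is attained. -/
theorem realized_all {d s : ℕ} (hd : 1 ≤ d) (hs : d + 2 ≤ s) :
    ∃ c : ℕ, Realized (d + 1) s c ∧ (c : ℤ) = Fz (d + 1) s := by
  rcases Nat.even_or_odd' d with ⟨q, h | h⟩
  · subst h
    exact realized_odd (by omega) hs
  · subst h
    have he : 2 * q + 1 + 1 = 2 * (q + 1) := by ring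
    rw [he]
    exact ⟨_, realized_even (by omega) s, (Fz_even _ _).symm⟩

end Pool.Agent.Helper141C
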