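import Mathlib
import Pool.Agent.Helper141_circuits.Radon
import Pool.Agent.Helper141_circuits.Lower
import Pool.Agent.Helper141_circuits.Upper3

set_option autoImplicit false
set_option linter.unusedSectionVars false

/-!
The minimum number of primitive Radon partitions of `s` points in `ℝ^d`.
-/

namespace Pool.Agent.Helper141C

open Finset

section general

variable {ι : Type*} [Fintype ι] [DecidableEq ι] {E : Type*} [AddCommGroup E] [Module ℝ E]

/-- The affine dependences of distinct points have support at least three. -/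
theorem sim_adep (f : ι ↪ E) : Sim (adep (f : ι → E)) := by
  intro z hz hz0
  obtain ⟨h1, h2⟩ := mem_adep.1 hz
  by_contra hcon
  push Not at hcon
  have hsum1 : ∑ i ∈ sp z, z i = 0 := by
    rw [← h1]
    apply sum_subset (subset_univ _)
    intro i _ hi
    exact notMem_sp.1 hi
  have hsum2 : ∑ i ∈ sp z, z i • f i = 0 := by
    rw [← h2]
    apply sum_subset (subset_univ _)
    intro i _ hi
    rw [notMem_sp.1 hi, zero_smul]
  have hpos : 0 < (sp z).card := card_pos.2 (sp_nonempty.2 hz0)
  have hcases : (sp z).card = 1 ∨ (sp z).card = 2 := by omega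
  rcases hcases with h | h
  · obtain ⟨i, hi⟩ := card_eq_one.1 h
    rw [hi, sum_singleton] at hsum1
    have : i ∈ sp z := by rw [hi]; exact mem_singleton_self i
    exact mem_sp.1 this hsum1
  · obtain ⟨i, j, hij, hi⟩ := card_eq_two.1 h
    rw [hi, sum_pair hij] at hsum1 hsum2
    have hmi : i ∈ sp z := by rw [hi]; exact mem_insert_self _ _
    have hzj : z j = - z i := by linarith
    rw [hzj, neg_smul, ← sub_eq_add_neg, ← smul_sub, smul_eq_zero, sub_eq_zero] at hsum2
    rcases hsum2 with h3 | h3
    · exact mem_sp.1 hmi h3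
    · exact hij (f.injective h3)

theorem finrank_adep [Module.Finite ℝ E] (f : ι → E) :
    Fintype.card ι ≤ Module.finrank ℝ E + 1 + Module.finrank ℝ (adep f) := by
  set L : (ι → ℝ) →ₗ[ℝ] (ℝ × E) := Fintype.linearCombination ℝ (fun i => ((1 : ℝ), f i)) with hL
  have hker : LinearMap.ker L = adep f := by
    ext z
    rw [LinearMap.mem_ker, hL, Fintype.linearCombination_apply, mem_adep, Prod.ext_iff]
    simp [Prod.fst_sum, Prod.snd_sum]
  have h := LinearMap.finrank_range_add_finrank_ker L
  rw [Module.finrank_pi, hker] at h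
  have h2 := Submodule.finrank_le (LinearMap.range L)
  rw [Module.finrank_prod, Module.finrank_self] at h2
  omega

end general

/-- The lower bound for point sets. -/
theorem lower_points {d : ℕ} (hd : 1 ≤ d) (S : Finset (EuclideanSpace ℝ (Fin d)))
    (hs : d + 2 ≤ S.card) : Fz (d + 1) S.card ≤ (numPrimitive S : ℤ) := by
  classical
  have hmap : (univ : Finset {x // x ∈ S}).map (Function.Embedding.subtype (fun x => x ∈ S)) = S :=
    Finset.attach_map_val
  set f : {x // x ∈ S} ↪ EuclideanSpace ℝ (Fin d) := Function.Embedding.subtype (fun x => x ∈ S)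
    with hf
  have h1 := numPrimitive_eq f
  rw [hmap] at h1
  rw [h1]
  have hsim := sim_adep f
  have hfr := finrank_adep (f : {x // x ∈ S} → EuclideanSpace ℝ (Fin d))
  rw [finrank_euclideanSpace, Fintype.card_fin, Fintype.card_coe] at hfr
  have hcard : (univ : Finset {x // x ∈ S}).card = S.card := by
    rw [card_univ, Fintype.card_coe]
  have hne : (univ : Finset {x // x ∈ S}).Nonempty := by
    rw [← card_pos, hcard]; omega
  have hrank := (rank_pos hsim hne).2 (by rw [hcard]; omega)
  rw [on_eq_self (fun z _ => subset_univ _), hcard] at hrank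
  obtain ⟨r, hr⟩ : ∃ r, S.card = r + Module.finrank ℝ
      (adep (f : {x // x ∈ S} → EuclideanSpace ℝ (Fin d))) :=
    ⟨S.card - Module.finrank ℝ (adep (f : {x // x ∈ S} → EuclideanSpace ℝ (Fin d))), by omega⟩
  have h2 := lower_bound S.card univ (adep (f : {x // x ∈ S} → EuclideanSpace ℝ (Fin d))) hcard
    (fun z _ => subset_univ _) hsim r hr
  exact (Fz_rank_le (r := r) (r' := d + 1) (n := S.card) (by omega) (by omega) (by omega)).trans h2

/-- Every abstract affine configuration is realised by points. -/
theorem upper_points {d s c : ℕ} (hs : 1 ≤ s) (h : Realized (d + 1) s c) :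
    ∃ S : Finset (EuclideanSpace ℝ (Fin d)), S.card = s ∧ numPrimitive S ≤ c := by
  obtain ⟨ι, _, _, U, hcard, hfr, hsum, hsim, hc⟩ := h
  have hne : Nonempty ι := by
    rw [← Fintype.card_pos_iff, hcard]; omega
  obtain ⟨i₀⟩ := hne
  set e₀ : ι → ℝ := Pi.single i₀ 1 with he₀
  set V : Submodule ℝ (ι → ℝ) := U ⊔ Submodule.span ℝ {e₀} with hV
  have hV_mem : ∀ z : ι → ℝ, ∑ i, z i = 0 → z ∈ V → z ∈ U := by
    intro z hz hzV
    rw [hV, Submodule.mem_sup] at hzV
    obtain ⟨u, hu, w, hw, rfl⟩ := hzV
    obtain ⟨t, rfl⟩ := Submodule.mem_span_singleton.1 hw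
    have h1 : ∑ i, (u + t • e₀) i = t := by
      simp only [Pi.add_apply, Pi.smul_apply, smul_eq_mul, sum_add_distrib, hsum u hu, zero_add,
        ← mul_sum]
      rw [he₀]
      simp
    rw [h1] at hz
    rw [hz, zero_smul, add_zero]
    exact hu
  have hlt : U < V := by
    refine lt_of_le_of_ne le_sup_left ?_
    intro hUV
    have h1 : e₀ ∈ V := Submodule.mem_sup_right (Submodule.mem_span_singleton_self e₀)
    rw [← hUV] at h1
    have h2 := hsum e₀ h1
    rw [he₀] at h2
    simp at h2
  have hflt := Submodule.finrank_lt_finrank_of_lt hlt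
  have hq := Submodule.finrank_quotient_add_finrank V
  rw [Module.finrank_pi, hcard] at hq
  have hle : Module.finrank ℝ ((ι → ℝ) ⧸ V) ≤ Module.finrank ℝ (EuclideanSpace ℝ (Fin d)) := by
    rw [finrank_euclideanSpace, Fintype.card_fin]
    omega
  obtain ⟨J, hJ⟩ := finrank_le_iff_exists_linearMap.1 hle
  set p : ι → EuclideanSpace ℝ (Fin d) := fun i => J (V.mkQ (Pi.single i 1)) with hp
  have hp_sum : ∀ z : ι → ℝ, ∑ i, z i • p i = J (V.mkQ z) := by
    intro z
    simp only [hp]
    rw [pi_eq_sum_univ z]
    simp only [map_sum, map_smul]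
    apply sum_congr rfl
    intro i _
    congr 2
    · simp
    · congr 1
      ext j
      simp [Pi.single_apply, eq_comm]
  have hadep : adep p = U := by
    ext z
    rw [mem_adep, hp_sum]
    constructor
    · rintro ⟨h1, h2⟩
      apply hV_mem z h1
      have h3 : V.mkQ z = 0 := by
        apply hJ
        rw [h2, map_zero]
      rw [← Submodule.ker_mkQ V, LinearMap.mem_ker]
      exact h3
    · intro hz
      refine ⟨hsum z hz, ?_⟩
      have h3 : V.mkQ z = 0 := by
        rw [← LinearMap.mem_ker, Submodule.ker_mkQ]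
        exact Submodule.mem_sup_left hz
      rw [h3, map_zero]
  have hinj : Function.Injective p := by
    intro i j hij
    by_contra hne
    have h1 : (Pi.single i 1 - Pi.single j 1 : ι → ℝ) ∈ adep p := by
      rw [mem_adep, hp_sum]
      constructor
      · simp
      · rw [map_sub, map_sub]
        exact sub_eq_zero.2 hij
    rw [hadep] at h1
    have h2 : (Pi.single i 1 - Pi.single j 1 : ι → ℝ) ≠ 0 := by
      intro h0
      have := congrFun h0 i
      simp [hne] at this
    have h3 := hsim _ h1 h2
    have h4 : sp (Pi.single i 1 - Pi.single j 1 : ι → ℝ) ⊆ {i, j} := by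
      rw [sp_subset_iff]
      intro k hk
      rw [mem_insert, mem_singleton, not_or] at hk
      simp [hk.1, hk.2]
    have h5 := card_le_card h4
    have h6 := card_le_two (a := i) (b := j)
    omega
  refine ⟨(univ : Finset ι).map ⟨p, hinj⟩, ?_, ?_⟩
  · rw [card_map, card_univ, hcard]
  · rw [numPrimitive_eq]
    change (circs (adep p)).card ≤ c
    rw [hadep]
    exact hc

/-- The minimum number of primitive Radon partitions of a set of `s` points in `ℝ^d`. -/
def minPrimitive (d s : ℕ) : ℕ :=
  if d % 2 = 1 then gq ((d + 1) / 2) s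
  else gq (d / 2) (s - 1) - dl ((s - 1 + d / 2 - 1) / (d / 2))

theorem minPrimitive_eq {d s c : ℕ} (hc : (c : ℤ) = Fz (d + 1) s) : minPrimitive d s = c := by
  unfold minPrimitive
  rcases Nat.even_or_odd' d with ⟨q, h | h⟩
  · subst h
    rw [Fz_odd] at hc
    have h1 : 2 * q / 2 = q := by omega
    rw [if_neg (by omega), h1]
    omega
  · subst h
    have he : 2 * q + 1 + 1 = 2 * (q + 1) := by ring
    rw [he, Fz_even] at hc
    have h1 : (2 * q + 1 + 1) / 2 = q + 1 := by omega
    rw [if_pos (by omega), h1]
    exact_mod_cast hc.symm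

theorem minPrimitive_isLeast {d s : ℕ} (hd : 1 ≤ d) (hs : d + 2 ≤ s) :
    IsLeast {k : ℕ | ∃ S : Finset (EuclideanSpace ℝ (Fin d)), S.card = s ∧ numPrimitive S = k}
      (minPrimitive d s) := by
  obtain ⟨c, hreal, hc⟩ := realized_all hd hs
  have hm := minPrimitive_eq hc
  rw [hm]
  constructor
  · obtain ⟨S, hS, hle⟩ := upper_points (by omega) hreal
    refine ⟨S, hS, le_antisymm hle ?_⟩
    have h1 := lower_points hd S (by omega)
    rw [hS, ← hc] at h1
    exact_mod_cast h1
  · rintro k ⟨S, hS, rfl⟩
    have h1 := lower_points hd S (by omega)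
    rw [hS, ← hc] at h1
    exact_mod_cast h1

end Pool.Agent.Helper141C
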